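import Mathlib

/-!
Periodic finite subsets of finite abelian groups.
-/

set_option autoImplicit false
set_option linter.unusedSectionVars false

namespace Pool.Agent.H49.Sumset

open Finset
open scoped Pointwise

universe u

variable {G : Type u} [AddCommGroup G] [Fintype G] [DecidableEq G]

open Classical in
/-- the elements of a subgroup as a finset -/
noncomputable def hf (H : AddSubgroup G) : Finset G := Finset.univ.filter (· ∈ H)

@[simp] theorem mem_hf {H : AddSubgroup G} {x : G} : x ∈ hf H ↔ x ∈ H := by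
  simp [hf]

/-- the order of a subgroup -/
noncomputable def oH (H : AddSubgroup G) : ℕ := (hf H).card

theorem oH_eq (H : AddSubgroup G) : oH H = Nat.card H := by
  classical
  unfold oH hf
  rw [Nat.card_eq_fintype_card, Fintype.card_subtype]

theorem hf_nonempty (H : AddSubgroup G) : (hf H).Nonempty := ⟨0, mem_hf.2 H.zero_mem⟩

theorem oH_pos (H : AddSubgroup G) : 0 < oH H := Finset.card_pos.2 (hf_nonempty H)

theorem hf_mono {H K : AddSubgroup G} (h : H ≤ K) : hf H ⊆ hf K := fun x hx =>
  mem_hf.2 (h (mem_hf.1 hx))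

theorem oH_mono {H K : AddSubgroup G} (h : H ≤ K) : oH H ≤ oH K := Finset.card_le_card (hf_mono h)

theorem eq_of_oH_le {H K : AddSubgroup G} (h : H ≤ K) (hc : oH K ≤ oH H) : H = K := by
  have h1 := Finset.eq_of_subset_of_card_le (hf_mono h) hc
  refine le_antisymm h fun x hx => ?_
  rw [← mem_hf, h1]
  exact mem_hf.2 hx

theorem oH_dvd {H K : AddSubgroup G} (h : H ≤ K) : oH H ∣ oH K := by
  rw [oH_eq, oH_eq]
  exact AddSubgroup.card_dvd_of_le h

theorem oH_dvd_card (H : AddSubgroup G) : oH H ∣ Fintype.card G := by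
  rw [oH_eq, ← Nat.card_eq_fintype_card]
  exact AddSubgroup.card_addSubgroup_dvd_card H

theorem oH_top : oH (⊤ : AddSubgroup G) = Fintype.card G := by
  rw [oH_eq, ← Nat.card_eq_fintype_card]
  exact Nat.card_congr (Equiv.Set.univ G)

theorem oH_bot : oH (⊥ : AddSubgroup G) = 1 := by
  rw [oH_eq]
  exact AddSubgroup.card_bot

theorem eq_bot_of_oH {H : AddSubgroup G} (h : oH H ≤ 1) : H = ⊥ := by
  have h1 : (⊥ : AddSubgroup G) = H := eq_of_oH_le bot_le (by rw [oH_bot]; exact h)
  exact h1.symm

theorem two_le_oH {H : AddSubgroup G} (h : H ≠ ⊥) : 2 ≤ oH H := by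
  by_contra hcon
  exact h (eq_bot_of_oH (by omega))

theorem exists_ne_zero {H : AddSubgroup G} (h : H ≠ ⊥) : ∃ t ∈ H, t ≠ 0 := by
  by_contra hcon
  push Not at hcon
  exact h ((AddSubgroup.eq_bot_iff_forall H).2 hcon)

/-- `A` is a union of cosets of `H` -/
def Per (A : Finset G) (H : AddSubgroup G) : Prop := ∀ x ∈ A, ∀ g ∈ H, x + g ∈ A

theorem Per.mono {A : Finset G} {H K : AddSubgroup G} (h : Per A H) (hK : K ≤ H) : Per A K :=
  fun x hx g hg => h x hx g (hK hg)

theorem Per.iff {A : Finset G} {H : AddSubgroup G} (h : Per A H) {x g : G} (hg : g ∈ H) :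
    x + g ∈ A ↔ x ∈ A := by
  refine ⟨fun hx => ?_, fun hx => h x hx g hg⟩
  have := h _ hx (-g) (H.neg_mem hg)
  simpa using this

theorem Per.of_sub_mem {A : Finset G} {H : AddSubgroup G} (h : Per A H) {x y : G} (hx : x ∈ A)
    (hxy : y - x ∈ H) : y ∈ A := by
  have := h x hx _ hxy
  simpa using this

theorem Per.union {A B : Finset G} {H : AddSubgroup G} (hA : Per A H) (hB : Per B H) :
    Per (A ∪ B) H := by
  intro x hx g hg
  rcases Finset.mem_union.1 hx with h | h
  · exact Finset.mem_union_left _ (hA x h g hg)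
  · exact Finset.mem_union_right _ (hB x h g hg)

theorem Per.add_left {A : Finset G} {H : AddSubgroup G} (B : Finset G) (hA : Per A H) :
    Per (B + A) H := by
  intro x hx g hg
  obtain ⟨b, hb, a, ha, rfl⟩ := Finset.mem_add.1 hx
  rw [add_assoc]
  exact Finset.add_mem_add hb (hA a ha g hg)

theorem Per.add_right {A : Finset G} {H : AddSubgroup G} (B : Finset G) (hA : Per A H) :
    Per (A + B) H := by
  rw [add_comm]
  exact hA.add_left B

theorem per_hf (H : AddSubgroup G) : Per (hf H) H := fun x hx g hg =>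
  mem_hf.2 (H.add_mem (mem_hf.1 hx) hg)

theorem per_add_hf (A : Finset G) (H : AddSubgroup G) : Per (A + hf H) H :=
  (per_hf H).add_left A

theorem mem_add_hf {A : Finset G} {H : AddSubgroup G} {x : G} :
    x ∈ A + hf H ↔ ∃ a ∈ A, x - a ∈ H := by
  rw [Finset.mem_add]
  constructor
  · rintro ⟨a, ha, g, hg, rfl⟩
    exact ⟨a, ha, by simpa using hg⟩
  · rintro ⟨a, ha, h⟩
    exact ⟨a, ha, x - a, mem_hf.2 h, by simp⟩

theorem subset_add_hf (A : Finset G) (H : AddSubgroup G) : A ⊆ A + hf H := fun x hx =>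
  mem_add_hf.2 ⟨x, hx, by simp⟩

theorem Per.eq {A : Finset G} {H : AddSubgroup G} (h : Per A H) : A + hf H = A := by
  refine Finset.Subset.antisymm (fun x hx => ?_) (subset_add_hf A H)
  obtain ⟨a, ha, hxa⟩ := mem_add_hf.1 hx
  exact h.of_sub_mem ha hxa

theorem add_hf_subset {A B : Finset G} {H : AddSubgroup G} (hAB : A ⊆ B) (hB : Per B H) :
    A + hf H ⊆ B := by
  intro x hx
  obtain ⟨a, ha, hxa⟩ := mem_add_hf.1 hx
  exact hB.of_sub_mem (hAB ha) hxa

theorem add_hf_mono {A B : Finset G} (hAB : A ⊆ B) {H K : AddSubgroup G} (h : H ≤ K) :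
    A + hf H ⊆ B + hf K := Finset.add_subset_add hAB (hf_mono h)

theorem add_hf_add_hf (A : Finset G) {H K : AddSubgroup G} (h : H ≤ K) :
    (A + hf H) + hf K = A + hf K := by
  refine Finset.Subset.antisymm ?_ (add_hf_mono (subset_add_hf A H) le_rfl)
  exact add_hf_subset (add_hf_mono (Finset.Subset.refl A) h) (per_add_hf A K)

/-- the size of a periodic set -/
theorem card_per {A : Finset G} {H : AddSubgroup G} (h : Per A H) :
    ∃ k, A.card = oH H * k ∧ ∀ [DecidableEq (G ⧸ H)],
      k = (A.image (QuotientAddGroup.mk : G → G ⧸ H)).card := by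
  classical
  refine ⟨(A.image (QuotientAddGroup.mk : G → G ⧸ H)).card, ?_, ?_⟩
  · rw [Finset.card_eq_sum_card_image (QuotientAddGroup.mk : G → G ⧸ H) A]
    have h1 : ∀ q ∈ A.image (QuotientAddGroup.mk : G → G ⧸ H),
        (A.filter fun x => (QuotientAddGroup.mk x : G ⧸ H) = q).card = oH H := by
      intro q hq
      obtain ⟨a, ha, rfl⟩ := Finset.mem_image.1 hq
      unfold oH
      symm
      refine Finset.card_bij (fun g _ => a + g) ?_ ?_ ?_
      · intro g hg
        rw [Finset.mem_filter]
        refine ⟨h a ha g (mem_hf.1 hg), ?_⟩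
        rw [QuotientAddGroup.eq]
        have : -(a + g) + a = -g := by abel
        rw [this]
        exact H.neg_mem (mem_hf.1 hg)
      · intro g _ g' _ hgg
        exact add_left_cancel hgg
      · intro x hx
        rw [Finset.mem_filter] at hx
        refine ⟨x - a, ?_, by simp⟩
        have h2 := hx.2
        rw [eq_comm, QuotientAddGroup.eq] at h2
        rw [mem_hf]
        have : x - a = -a + x := by abel
        rw [this]
        exact h2
    rw [Finset.sum_congr rfl h1, Finset.sum_const, smul_eq_mul, mul_comm]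
  · intro inst
    exact congrArg Finset.card (congrArg (fun i : DecidableEq (G ⧸ H) =>
      @Finset.image _ _ i (QuotientAddGroup.mk : G → G ⧸ H) A) (Subsingleton.elim _ inst))

theorem Per.dvd {A : Finset G} {H : AddSubgroup G} (h : Per A H) : oH H ∣ A.card := by
  obtain ⟨k, hk, -⟩ := card_per h
  exact ⟨k, hk⟩

/-- the stabiliser of a set -/
def stab (C : Finset G) : AddSubgroup G where
  carrier := {g | ∀ x, x + g ∈ C ↔ x ∈ C}
  zero_mem' := by
    intro x
    simp
  add_mem' := by
    intro a b ha hb x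
    rw [← add_assoc, hb, ha]
  neg_mem' := by
    intro a ha x
    have := ha (x + -a)
    rw [neg_add_cancel_right] at this
    exact this.symm

theorem mem_stab {C : Finset G} {g : G} : g ∈ stab C ↔ ∀ x, x + g ∈ C ↔ x ∈ C := Iff.rfl

theorem per_stab (C : Finset G) : Per C (stab C) := fun x hx _ hg => (hg x).2 hx

theorem le_stab {C : Finset G} {H : AddSubgroup G} (h : Per C H) : H ≤ stab C :=
  fun _ hg _ => h.iff hg

/-- for a finite set it suffices to have an inclusion -/
theorem mem_stab_of_forall {C : Finset G} {g : G} (h : ∀ x ∈ C, x + g ∈ C) : g ∈ stab C := by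
  intro x
  refine ⟨fun hx => ?_, fun hx => h x hx⟩
  have h1 : C.image (· + g) = C := by
    refine Finset.eq_of_subset_of_card_le ?_ ?_
    · intro y hy
      obtain ⟨z, hz, rfl⟩ := Finset.mem_image.1 hy
      exact h z hz
    · rw [Finset.card_image_of_injective _ (add_left_injective g)]
  rw [← h1] at hx
  obtain ⟨z, hz, hzx⟩ := Finset.mem_image.1 hx
  have : z = x := add_right_cancel hzx
  exact this ▸ hz

theorem Per.of_stab_le {C : Finset G} {H : AddSubgroup G} (h : H ≤ stab C) : Per C H :=
  (per_stab C).mono h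

end Pool.Agent.H49.Sumset
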