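import Pool.Agent.H49.Sumset.UniqueTower

/-!
The classification of the critical sets.
-/

set_option autoImplicit false
set_option linter.unusedSectionVars false
set_option linter.unusedVariables false

namespace Pool.Agent.H49.Sumset

open Finset
open scoped Pointwise

universe u

variable {G : Type u} [AddCommGroup G] [Fintype G] [DecidableEq G]

theorem nf_tr (A : Finset G) (c : G) : ∀ k, nf k (tr A c) = tr (nf k A) (k • c)
  | 0 => by
    change ({0} : Finset G) = tr {0} (0 • c)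
    ext x
    rw [mem_tr, zero_nsmul, sub_zero]
  | (k + 1) => by
    rw [nf_succ, nf_succ, nf_tr A c k, tr_add, add_comm, tr_add, tr_tr, add_comm A, succ_nsmul,
      add_comm c]

theorem nf_in_F {A : Finset G} {g : G} {l : ℕ}
    (hper : ∀ x ∈ A, x ∉ AddSubgroup.zmultiples g → ∀ u ∈ AddSubgroup.zmultiples g, x + u ∈ A)
    (hprog : ∀ x ∈ AddSubgroup.zmultiples g, (x ∈ A ↔ ∃ j ≤ l, x = j • g)) :
    ∀ j, ∀ x ∈ nf j A, x ∈ AddSubgroup.zmultiples g →
      (∀ u ∈ AddSubgroup.zmultiples g, u ∈ nf j A) ∨ ∃ i ≤ j * l, x = i • g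
  | 0 => by
    intro x hx _
    have : x = 0 := Finset.mem_singleton.1 hx
    exact Or.inr ⟨0, by omega, by rw [this, zero_nsmul]⟩
  | (j + 1) => by
    intro x hx hxF
    obtain ⟨y, hy, a, ha, rfl⟩ := Finset.mem_add.1 hx
    by_cases hyF : y ∈ AddSubgroup.zmultiples g
    · have haF : a ∈ AddSubgroup.zmultiples g := by
        have := AddSubgroup.sub_mem _ hxF hyF
        rwa [add_sub_cancel_left] at this
      obtain ⟨i₂, hi₂, hai⟩ := (hprog a haF).1 ha
      rcases nf_in_F hper hprog j y hy hyF with h | ⟨i₁, hi₁, hyi⟩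
      · left
        intro u hu
        have := Finset.add_mem_add (h (u - a) (AddSubgroup.sub_mem _ hu haF)) ha
        rwa [sub_add_cancel] at this
      · right
        refine ⟨i₁ + i₂, ?_, by rw [add_nsmul, hyi, hai]⟩
        have : (j + 1) * l = j * l + l := by ring
        omega
    · left
      intro u hu
      have h1 := nf_per hper j y hy hyF (u - (y + a)) (AddSubgroup.sub_mem _ hu hxF)
      have h2 := Finset.add_mem_add h1 ha
      have h3 : y + (u - (y + a)) + a = u := by abel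
      rwa [h3] at h2

theorem aper_uniq {k : ℕ} {A : Finset G} (h0 : (0 : G) ∈ A) {g : G} (hg : g ≠ 0) {l : ℕ}
    (hper : ∀ x ∈ A, x ∉ AddSubgroup.zmultiples g → ∀ u ∈ AddSubgroup.zmultiples g, x + u ∈ A)
    (hprog : ∀ x ∈ AddSubgroup.zmultiples g, (x ∈ A ↔ ∃ j ≤ l, x = j • g))
    (hst : stab (nf (k + 1) A) = ⊥) : ∀ a ∈ A, -a ∈ nf k A → a = 0 := by
  intro a ha hna
  by_contra ha0
  have hmem : ∀ j ≤ l, j • g ∈ A := fun j hj =>
    (hprog _ (nsmul_mem_zmultiples' g j)).2 ⟨j, hj, rfl⟩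
  have hall : ∀ u ∈ AddSubgroup.zmultiples g, u ∈ nf (k + 1) A := by
    intro u hu
    by_cases haF : a ∈ AddSubgroup.zmultiples g
    · rcases nf_in_F hper hprog k _ hna (AddSubgroup.neg_mem _ haF) with h | ⟨i, hi, hai⟩
      · exact nf_subset_succ h0 k (h u hu)
      · obtain ⟨j, hj, haj⟩ := (hprog a haF).1 ha
        have hj0 : 1 ≤ j := by
          by_contra hcon
          have : j = 0 := by omega
          rw [this, zero_nsmul] at haj
          exact ha0 haj
        have h1 : (i + j) • g = 0 := by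
          rw [add_nsmul, ← hai, ← haj, neg_add_cancel]
        obtain ⟨r, rfl⟩ := exists_nat_of_mem_zmultiples hu
        have h2 : r • g = (r % (i + j)) • g := by
          conv_lhs => rw [← Nat.div_add_mod r (i + j)]
          rw [add_nsmul, mul_nsmul, h1, nsmul_zero, zero_add]
        rw [h2]
        have h3 := Nat.mod_lt r (show 0 < i + j by omega)
        have h4 : (k + 1) * l = k * l + l := by ring
        exact mult_mem_nf hmem (k + 1) _ (by omega)
    · have h1 := Finset.add_mem_add hna (hper a ha haF u hu)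
      have h2 : -a + (a + u) = u := by abel
      rwa [h2] at h1
  have hP : Per (nf (k + 1) A) (AddSubgroup.zmultiples g) := by
    intro x hx u hu
    by_cases hxF : x ∈ AddSubgroup.zmultiples g
    · exact hall _ (AddSubgroup.add_mem _ hxF hu)
    · exact nf_per hper _ x hx hxF u hu
  have h1 := le_stab hP (AddSubgroup.mem_zmultiples g)
  rw [hst] at h1
  exact hg (AddSubgroup.mem_bot.1 h1)

/-- the aperiodic case -/
theorem aper_tower {k : ℕ} (hk : 1 ≤ k) {A : Finset G} (hA : A.Nonempty)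
    (hT : Tc (Fintype.card G) (k + 1) A.card)
    (hcr : (nf (k + 1) A).card ≤ (k + 1) * (A.card - 1) + 1) (hst : stab (nf (k + 1) A) = ⊥) :
    ∃ (c : G) (K : AddSubgroup G), Tower (k + 1) ⊥ K (tr A (-c)) := by
  by_cases hone : A.card = 1
  · obtain ⟨a, ha⟩ := Finset.card_eq_one.1 hone
    refine ⟨a, ⊥, Tower.base _ fun x => ?_⟩
    rw [mem_tr, ha, Finset.mem_singleton, AddSubgroup.mem_bot, sub_neg_eq_add, add_eq_right]
  have hA2 : 2 ≤ A.card := by
    have := Finset.card_pos.2 hA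
    omega
  obtain ⟨h1, h2⟩ := two_fold (by omega) hA hst hcr
  obtain ⟨g, hg, c, hc, l, h3, h4, h5⟩ := critical_structure hA2 (hT.two (by omega)) h1 h2
  refine ⟨c, ?_⟩
  have hmem : ∀ x, x ∈ tr A (-c) ↔ x + c ∈ A := fun x => by rw [mem_tr, sub_neg_eq_add]
  have h0 : (0 : G) ∈ tr A (-c) := by rw [hmem, zero_add]; exact hc
  have h6 : nf (k + 1) (tr A (-c)) = tr (nf (k + 1) A) ((k + 1) • (-c)) := nf_tr A (-c) (k + 1)
  have hper : ∀ x ∈ tr A (-c), x ∉ AddSubgroup.zmultiples g →
      ∀ u ∈ AddSubgroup.zmultiples g, x + u ∈ tr A (-c) := by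
    intro x hx hxF u hu
    rw [hmem] at hx ⊢
    have h7 := h3 (x + c) hx (by rw [add_sub_cancel_right]; exact hxF) u hu
    rwa [add_right_comm] at h7
  have hprog : ∀ x ∈ AddSubgroup.zmultiples g, (x ∈ tr A (-c) ↔ ∃ j ≤ l, x = j • g) := by
    intro x hx
    rw [hmem, h4 (x + c) (by rw [add_sub_cancel_right]; exact hx)]
    constructor
    · rintro ⟨j, hj, h⟩
      rw [add_comm c] at h
      exact ⟨j, hj, add_right_cancel h⟩
    · rintro ⟨j, hj, rfl⟩
      exact ⟨j, hj, add_comm _ _⟩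
  have huq := aper_uniq (k := k) h0 hg hper hprog (by rw [h6, stab_tr, hst])
  exact unique_tower k hk _ G le_rfl _ h0 huq (by rw [card_tr]; exact hT)
    (by rw [h6, card_tr, card_tr]; exact hcr)

theorem mem_image_mk {C : Finset G} {H : AddSubgroup G} (hC : Per C H) [DecidableEq (G ⧸ H)]
    {x : G} : (QuotientAddGroup.mk x : G ⧸ H) ∈ C.image (QuotientAddGroup.mk : G → G ⧸ H) ↔
      x ∈ C := by
  constructor
  · intro h
    obtain ⟨y, hy, hyx⟩ := Finset.mem_image.1 h
    refine hC.of_sub_mem hy ?_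
    rw [← QuotientAddGroup.eq_zero_iff]
    change (QuotientAddGroup.mk x : G ⧸ H) - QuotientAddGroup.mk y = 0
    rw [hyx, sub_self]
  · exact fun h => Finset.mem_image_of_mem _ h

theorem image_add_hf (A : Finset G) (H : AddSubgroup G) [DecidableEq (G ⧸ H)] :
    (A + hf H).image (QuotientAddGroup.mk : G → G ⧸ H) =
      A.image (QuotientAddGroup.mk : G → G ⧸ H) := by
  ext y
  constructor
  · intro h
    obtain ⟨x, hx, rfl⟩ := Finset.mem_image.1 h
    obtain ⟨a, ha, hxa⟩ := mem_add_hf.1 hx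
    refine Finset.mem_image.2 ⟨a, ha, ?_⟩
    rw [← QuotientAddGroup.eq_zero_iff] at hxa
    change (QuotientAddGroup.mk x : G ⧸ H) - QuotientAddGroup.mk a = 0 at hxa
    exact (sub_eq_zero.1 hxa).symm
  · intro h
    exact Finset.image_subset_image (subset_add_hf A H) h

theorem card_pre (H : AddSubgroup G) (T : Finset (G ⧸ H)) :
    (pre H T).card = oH H * T.card := by
  classical
  have hP : Per (pre H T) H := by
    intro x hx g hg
    rw [mem_pre] at hx ⊢
    have : (QuotientAddGroup.mk (x + g) : G ⧸ H) = QuotientAddGroup.mk x := by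
      change (QuotientAddGroup.mk x : G ⧸ H) + QuotientAddGroup.mk g = QuotientAddGroup.mk x
      rw [(QuotientAddGroup.eq_zero_iff g).2 hg, add_zero]
    rw [this]
    exact hx
  obtain ⟨k, hk1, hk2⟩ := card_per hP
  rw [hk1, hk2]
  congr 2
  ext y
  constructor
  · intro h
    obtain ⟨x, hx, rfl⟩ := Finset.mem_image.1 h
    exact mem_pre.1 hx
  · intro h
    obtain ⟨x, rfl⟩ := QuotientAddGroup.mk_surjective y
    exact Finset.mem_image.2 ⟨x, mem_pre.2 h, rfl⟩

/-- **Forward direction of the classification.** -/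
theorem classify_forward {k : ℕ} (hk : 1 ≤ k) {A : Finset G} (hA : A.Nonempty)
    (hT : Tc (Fintype.card G) (k + 1) A.card)
    (hcr : (nf (k + 1) A).card ≤ (k + 1) * (A.card - 1) + 1) :
    ∃ (H F : AddSubgroup G) (T : Finset G) (c : G), Tower (k + 1) H F T ∧
      (∀ a ∈ A, a - c ∈ T) ∧ (k + 1) * T.card + k = (k + 1) * A.card + k * oH H := by
  classical
  obtain ⟨hAH, hds⟩ := stab_case (by omega) hA hT hcr
  obtain ⟨H, hH⟩ : ∃ H, H = stab (nf (k + 1) A) := ⟨_, rfl⟩
  rw [← hH] at hAH hds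
  obtain ⟨q, hq⟩ : ∃ q, q = (A.card - 1) / oH H := ⟨_, rfl⟩
  obtain ⟨s, hs⟩ : ∃ s, s = (A.card - 1) % oH H := ⟨_, rfl⟩
  rw [← hs] at hds
  rw [← hq] at hAH
  have hdp := oH_pos H
  have hA1 : 1 ≤ A.card := Finset.card_pos.2 hA
  have hAc : A.card = oH H * q + s + 1 := by
    have h1 := Nat.div_add_mod (A.card - 1) (oH H)
    rw [← hq, ← hs] at h1
    omega
  have : Fintype (G ⧸ H) := Fintype.ofFinite _
  obtain ⟨A', hA'⟩ : ∃ A', A' = A.image (QuotientAddGroup.mk : G → G ⧸ H) := ⟨_, rfl⟩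
  have hA'ne : A'.Nonempty := by rw [hA']; exact hA.image _
  have hA'c : A'.card = q + 1 := by
    obtain ⟨κ, hκ1, hκ2⟩ := card_per (per_add_hf A H)
    have hκ3 : κ = ((A + hf H).image (QuotientAddGroup.mk : G → G ⧸ H)).card := hκ2
    rw [image_add_hf, ← hA'] at hκ3
    rw [hAH, hκ3] at hκ1
    exact (Nat.eq_of_mul_eq_mul_left hdp hκ1).symm
  have hPer : Per (nf (k + 1) A) H := by rw [hH]; exact per_stab _
  have hN : (nf (k + 1) A).card = oH H * (nf (k + 1) A').card := by
    obtain ⟨κ, hκ1, hκ2⟩ := card_per hPer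
    have hκ3 : κ = ((nf (k + 1) A).image (QuotientAddGroup.mk : G → G ⧸ H)).card := hκ2
    rw [nf_image_mk, ← hA'] at hκ3
    rw [hκ1, hκ3]
  have hcr' : (nf (k + 1) A').card ≤ (k + 1) * (A'.card - 1) + 1 := by
    rw [hA'c, Nat.add_sub_cancel]
    refine Nat.le_of_mul_le_mul_left ?_ hdp
    rw [← hN]
    refine hcr.trans ?_
    have h1 : A.card - 1 = oH H * q + s := by omega
    rw [h1]
    have h2 : (k + 1) * (oH H * q + s) = oH H * ((k + 1) * q) + (k + 1) * s := by ring
    rw [h2, Nat.mul_add, Nat.mul_one]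
    omega
  have hT' : Tc (Fintype.card (G ⧸ H)) (k + 1) A'.card := by
    rw [hA'c]
    refine tc_quot (card_quot H) hdp (l := s) ?_ ?_
    · have h3 : s ≤ (k + 1) * s := Nat.le_mul_of_pos_left s (by omega)
      omega
    · rw [← hAc]
      exact hT
  have hst' : stab (nf (k + 1) A') = ⊥ := by
    rw [AddSubgroup.eq_bot_iff_forall]
    intro g' hg'
    obtain ⟨g, rfl⟩ := QuotientAddGroup.mk_surjective g'
    rw [QuotientAddGroup.eq_zero_iff, hH, mem_stab]
    intro x
    have h1 := hg' (QuotientAddGroup.mk x)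
    rw [hA', ← nf_image_mk, mem_image_mk hPer] at h1
    rw [← h1, ← mem_image_mk hPer]
    rfl
  obtain ⟨c', K, hK⟩ := aper_tower hk hA'ne hT' hcr' hst'
  obtain ⟨c, rfl⟩ := QuotientAddGroup.mk_surjective c'
  have h1 := hK.pre
  rw [comap_bot'] at h1
  refine ⟨H, _, _, c, h1, ?_, ?_⟩
  · intro a ha
    rw [mem_pre, mem_tr, hA']
    refine Finset.mem_image.2 ⟨a, ha, ?_⟩
    change (QuotientAddGroup.mk a : G ⧸ H) =
      QuotientAddGroup.mk a - QuotientAddGroup.mk c - -QuotientAddGroup.mk c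
    abel
  · rw [card_pre, card_tr, hA'c, hAc]
    have e1 : (k + 1) * (oH H * (q + 1)) = (k + 1) * (oH H * q) + k * oH H + oH H := by ring
    have e2 : (k + 1) * (oH H * q + s + 1) = (k + 1) * (oH H * q) + (k + 1) * s + k + 1 := by ring
    omega

/-- **Backward direction of the classification.** -/
theorem classify_backward {k : ℕ} {A : Finset G} (hA : A.Nonempty)
    (hT : Tc (Fintype.card G) (k + 1) A.card) {H F : AddSubgroup G} {T : Finset G} {c : G}
    (hTow : Tower (k + 1) H F T) (hsub : ∀ a ∈ A, a - c ∈ T)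
    (hc : (k + 1) * T.card + k = (k + 1) * A.card + k * oH H) :
    (nf (k + 1) A).card = (k + 1) * (A.card - 1) + 1 := by
  have h1 := nf_lower hA hT (k + 1) (by omega) le_rfl
  have h2 := hTow.bound (by omega)
  rw [Nat.add_sub_cancel] at h2
  have h3 : tr A (-c) ⊆ T := by
    intro x hx
    rw [mem_tr, sub_neg_eq_add] at hx
    have := hsub _ hx
    rwa [add_sub_cancel_right] at this
  have h4 := Finset.card_le_card (nf_mono h3 (k + 1))
  rw [nf_tr, card_tr] at h4
  obtain ⟨m, hm⟩ : ∃ m, A.card = m + 1 :=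
    ⟨A.card - 1, (Nat.sub_add_cancel (Finset.card_pos.2 hA)).symm⟩
  rw [hm, Nat.add_sub_cancel] at h1 ⊢
  rw [hm] at hc
  have e1 : (k + 1) * (m + 1) = (k + 1) * m + k + 1 := by ring
  omega

end Pool.Agent.H49.Sumset
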