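import Pool.Agent.H49.Sumset.Iso

/-!
The structure of critical sets `|A + A| = 2 |A| - 1` with aperiodic `A + A`, under the arithmetic
condition.
-/

set_option autoImplicit false
set_option linter.unusedSectionVars false
set_option linter.unusedVariables false

namespace Pool.Agent.H49.Sumset

open Finset
open scoped Pointwise

universe u

variable {G : Type u} [AddCommGroup G] [Fintype G] [DecidableEq G]

/-- the arithmetic condition -/
def Tc (n h m : ℕ) : Prop := ∀ d, d ∣ n → h * ((m - 1) % d) < d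

theorem num_lb {d m κ : ℕ} (hm : 1 ≤ m) (h : m ≤ d * κ) : (m - 1) / d + 1 ≤ κ := by
  have h1 : m - 1 < d * κ := by omega
  exact Nat.div_lt_of_lt_mul h1

theorem card_add_hf_ge {A : Finset G} (hA : A.Nonempty) (H : AddSubgroup G) :
    oH H * ((A.card - 1) / oH H + 1) ≤ (A + hf H).card := by
  obtain ⟨κ, hκ, -⟩ := card_per (per_add_hf A H)
  rw [hκ]
  refine Nat.mul_le_mul_left _ (num_lb (Finset.card_pos.2 hA) ?_)
  rw [← hκ]
  exact Finset.card_le_card (subset_add_hf A H)

/-- two large subsets of cosets add up to a whole coset -/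
theorem full_of_card {H : AddSubgroup G} {U W : Finset G} {c₁ c₂ : G} (hU : ∀ u ∈ U, u - c₁ ∈ H)
    (hW : ∀ w ∈ W, w - c₂ ∈ H) (hc : oH H < U.card + W.card) {y : G} (hy : y - (c₁ + c₂) ∈ H) :
    y ∈ U + W := by
  by_contra hcon
  have h1 : Disjoint U (W.image fun w => y - w) := by
    rw [Finset.disjoint_left]
    intro u hu hu'
    obtain ⟨w, hw, rfl⟩ := Finset.mem_image.1 hu'
    apply hcon
    have := Finset.add_mem_add hu hw
    rwa [sub_add_cancel] at this
  have h2 : U ∪ W.image (fun w => y - w) ⊆ tr (hf H) c₁ := by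
    intro z hz
    rw [mem_tr, mem_hf]
    rcases Finset.mem_union.1 hz with h | h
    · exact hU z h
    · obtain ⟨w, hw, rfl⟩ := Finset.mem_image.1 h
      have h3 : y - w - c₁ = (y - (c₁ + c₂)) - (w - c₂) := by abel
      rw [h3]
      exact H.sub_mem hy (hW w hw)
  have h3 := Finset.card_le_card h2
  rw [Finset.card_union_of_disjoint h1, card_tr,
    Finset.card_image_of_injective _ sub_right_injective] at h3
  unfold oH at hc
  omega

/-- holes in two cosets -/
theorem two_cosets {A : Finset G} {H : AddSubgroup G} {c₁ c₂ : G} [DecidablePred (· ∈ H)]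
    (h1 : c₁ ∈ A) (h2 : c₂ ∈ A)
    (h12 : c₁ - c₂ ∉ H) : 2 * oH H + A.card ≤
      (A.filter fun x => x - c₁ ∈ H).card + (A.filter fun x => x - c₂ ∈ H).card +
        (A + hf H).card := by
  set A1 := A.filter fun x => x - c₁ ∈ H with hA1
  set A2 := A.filter fun x => x - c₂ ∈ H with hA2
  have hd : Disjoint (tr (hf H) c₁) (tr (hf H) c₂) := by
    rw [Finset.disjoint_left]
    intro z hz hz'
    rw [mem_tr, mem_hf] at hz hz'
    apply h12
    have h3 : c₁ - c₂ = (z - c₂) - (z - c₁) := by abel
    rw [h3]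
    exact H.sub_mem hz' hz
  have h3 : (tr (hf H) c₁ ∪ tr (hf H) c₂).card = oH H + oH H := by
    rw [Finset.card_union_of_disjoint hd, card_tr, card_tr]
    rfl
  have h4 : (tr (hf H) c₁ ∪ tr (hf H) c₂) \ (A1 ∪ A2) ⊆ (A + hf H) \ A := by
    intro z hz
    rw [Finset.mem_sdiff] at hz ⊢
    refine ⟨?_, fun h => hz.2 ?_⟩
    · rw [mem_add_hf]
      rcases Finset.mem_union.1 hz.1 with h | h
      · exact ⟨c₁, h1, mem_hf.1 (mem_tr.1 h)⟩
      · exact ⟨c₂, h2, mem_hf.1 (mem_tr.1 h)⟩
    · rcases Finset.mem_union.1 hz.1 with h' | h'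
      · exact Finset.mem_union_left _ (Finset.mem_filter.2 ⟨h, mem_hf.1 (mem_tr.1 h')⟩)
      · exact Finset.mem_union_right _ (Finset.mem_filter.2 ⟨h, mem_hf.1 (mem_tr.1 h')⟩)
  have h5 := Finset.card_le_card h4
  rw [Finset.card_sdiff_of_subset (subset_add_hf A H)] at h5
  have h6 := Finset.le_card_sdiff (A1 ∪ A2) (tr (hf H) c₁ ∪ tr (hf H) c₂)
  rw [h3] at h6
  have h7 := Finset.card_union_le A1 A2
  have h8 := Finset.card_le_card (subset_add_hf A H)
  omega

theorem quasi {A : Finset G} (hA2 : 2 ≤ A.card) (hT : Tc (Fintype.card G) 2 A.card)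
    (hst : stab (A + A) = ⊥) (hcr : (A + A).card + 1 ≤ 2 * A.card) {H : AddSubgroup G}
    (hH : H ≠ ⊥) (hAH : (A + hf H).card + 1 ≤ A.card + oH H) [DecidablePred (· ∈ H)] :
    ∃ c ∈ A, (∀ x ∈ A, x - c ∉ H → ∀ g ∈ H, x + g ∈ A) ∧
      stab ((A.filter fun x => x - c ∈ H) + (A.filter fun x => x - c ∈ H)) = ⊥ ∧
      ((A.filter fun x => x - c ∈ H) + (A.filter fun x => x - c ∈ H)).card + 1 =
        2 * (A.filter fun x => x - c ∈ H).card ∧
      (A.filter fun x => x - c ∈ H).card = (A.card - 1) % oH H + 1 := by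
  have hAne : A.Nonempty := Finset.card_pos.1 (by omega)
  have hd2 := two_le_oH hH
  obtain ⟨d, hd⟩ : ∃ d, d = oH H := ⟨_, rfl⟩
  obtain ⟨m, hm⟩ : ∃ m, m = A.card := ⟨_, rfl⟩
  rw [← hm] at hT hA2 hcr
  rw [← hd] at hd2
  have hsT := hT d (by rw [hd]; exact oH_dvd_card H)
  obtain ⟨q, hq⟩ : ∃ q, q = (m - 1) / d := ⟨_, rfl⟩
  obtain ⟨s, hs⟩ : ∃ s, s = (m - 1) % d := ⟨_, rfl⟩
  rw [← hs] at hsT
  have hms : m = d * q + s + 1 := by
    have := Nat.div_add_mod (m - 1) d
    rw [← hq, ← hs] at this
    omega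
  have hAHc : (A + hf H).card = d * (q + 1) := by
    obtain ⟨κ, hκ, -⟩ := card_per (per_add_hf A H)
    rw [← hd] at hκ
    have h1 := card_add_hf_ge hAne H
    rw [← hd, ← hm, ← hq, hκ] at h1
    have h2 : q + 1 ≤ κ := Nat.le_of_mul_le_mul_left h1 (by omega)
    have h3 : κ ≤ q + 1 := by
      by_contra hcon
      have h4 : d * (q + 2) ≤ d * κ := Nat.mul_le_mul_left _ (by omega)
      have h5 : d * (q + 2) = d * q + d + d := by ring
      omega
    rw [hκ, le_antisymm h3 h2]
  have hdq : d * (q + 1) = d * q + d := by ring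
  -- large pairs of cosets
  have hpair : ∀ a ∈ A, ∀ b ∈ A, ∀ g ∈ H, a + b + g ∉ A + A →
      (A.filter fun x => x - a ∈ H).card + (A.filter fun x => x - b ∈ H).card ≤ d ∧ a - b ∈ H := by
    intro a ha b hb g hg hn
    have h1 : (A.filter fun x => x - a ∈ H).card + (A.filter fun x => x - b ∈ H).card ≤ d := by
      by_contra hcon
      push Not at hcon
      apply hn
      have h2 := full_of_card (H := H) (U := A.filter fun x => x - a ∈ H)
        (W := A.filter fun x => x - b ∈ H) (c₁ := a) (c₂ := b) (y := a + b + g)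
        (fun u hu => (Finset.mem_filter.1 hu).2) (fun u hu => (Finset.mem_filter.1 hu).2)
        (by rw [← hd]; exact hcon) (by simpa using hg)
      exact Finset.add_subset_add (Finset.filter_subset _ _) (Finset.filter_subset _ _) h2
    refine ⟨h1, ?_⟩
    by_contra hab
    have h2 := two_cosets ha hb hab
    rw [← hd, ← hm, hAHc] at h2
    omega
  have hfeq : ∀ a b : G, a - b ∈ H →
      (A.filter fun x => x - a ∈ H) = A.filter fun x => x - b ∈ H := by
    intro a b hab
    ext x
    rw [Finset.mem_filter, Finset.mem_filter]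
    have h1 : x - b = (x - a) + (a - b) := by abel
    rw [h1, H.add_mem_cancel_right hab]
  -- the exceptional coset
  have hnp : ¬ Per (A + A) H := fun h => hH (le_bot_iff.1 (hst ▸ le_stab h))
  unfold Per at hnp
  push Not at hnp
  obtain ⟨z, hz, g0, hg0, hzg⟩ := hnp
  obtain ⟨c, hc, c2, hc2, rfl⟩ := Finset.mem_add.1 hz
  obtain ⟨hcc, hcc2⟩ := hpair c hc c2 hc2 g0 hg0 hzg
  rw [← hfeq c c2 hcc2] at hcc
  set A0 := A.filter fun x => x - c ∈ H with hA0
  have hA0sub : A0 ⊆ A := Finset.filter_subset _ _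
  have hA0mem : ∀ x, x ∈ A0 ↔ x ∈ A ∧ x - c ∈ H := fun x => Finset.mem_filter
  have hfull : ∀ a ∈ A, ∀ b ∈ A, (a - c ∉ H ∨ b - c ∉ H) → ∀ g ∈ H, a + b + g ∈ A + A := by
    intro a ha b hb hab g hg
    by_contra hcon
    obtain ⟨h1, h2⟩ := hpair a ha b hb g hg hcon
    have h3 : a - c ∉ H := by
      rcases hab with h | h
      · exact h
      · intro h4
        apply h
        have h5 : b - c = (a - c) - (a - b) := by abel
        rw [h5]
        exact H.sub_mem h4 h2
    rw [← hfeq a b h2] at h1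
    have h4 := two_cosets ha hc h3
    rw [← hd, ← hm, hAHc, ← hA0] at h4
    omega
  have hz0 : (c + c2 + g0) - (c + c) ∈ H := by
    have h1 : (c + c2 + g0) - (c + c) = g0 - (c - c2) := by abel
    rw [h1]
    exact H.sub_mem hg0 hcc2
  have hsum : ∀ a ∈ A, ∀ b ∈ A, a + b - (c + c) ∈ H → a - c ∈ H ∧ b - c ∈ H := by
    intro a ha b hb hab
    by_contra hcon
    rw [not_and_or] at hcon
    have h1 := hfull a ha b hb hcon ((c + c2 + g0) - (a + b)) (by
      have h2 : (c + c2 + g0) - (a + b) = ((c + c2 + g0) - (c + c)) - (a + b - (c + c)) := by abel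
      rw [h2]
      exact H.sub_mem hz0 hab)
    apply hzg
    have h2 : a + b + (c + c2 + g0 - (a + b)) = c + c2 + g0 := by abel
    rwa [h2] at h1
  -- the rest of the sumset
  set R := (A + A).filter fun x => x - (c + c) ∉ H with hR
  have hRper : Per R H := by
    intro x hx g hg
    rw [hR, Finset.mem_filter] at hx ⊢
    obtain ⟨hx1, hx2⟩ := hx
    obtain ⟨a, ha, b, hb, rfl⟩ := Finset.mem_add.1 hx1
    refine ⟨hfull a ha b hb ?_ g hg, fun h => hx2 ?_⟩
    · by_contra hcon
      push Not at hcon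
      apply hx2
      have h1 : a + b - (c + c) = (a - c) + (b - c) := by abel
      rw [h1]
      exact H.add_mem hcon.1 hcon.2
    · have h1 : a + b - (c + c) = (a + b + g - (c + c)) - g := by abel
      rw [h1]
      exact H.sub_mem h hg
  have hA0A0 : (A + A).filter (fun x => x - (c + c) ∈ H) = A0 + A0 := by
    ext x
    rw [Finset.mem_filter]
    constructor
    · rintro ⟨hx, hx'⟩
      obtain ⟨a, ha, b, hb, rfl⟩ := Finset.mem_add.1 hx
      obtain ⟨h1, h2⟩ := hsum a ha b hb hx'
      exact Finset.add_mem_add ((hA0mem a).2 ⟨ha, h1⟩) ((hA0mem b).2 ⟨hb, h2⟩)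
    · intro hx
      obtain ⟨a, ha, b, hb, rfl⟩ := Finset.mem_add.1 hx
      rw [hA0mem] at ha hb
      refine ⟨Finset.add_mem_add ha.1 hb.1, ?_⟩
      have h1 : a + b - (c + c) = (a - c) + (b - c) := by abel
      rw [h1]
      exact H.add_mem ha.2 hb.2
  have hcardAA : (A0 + A0).card + R.card = (A + A).card := by
    rw [← hA0A0, hR]
    exact Finset.card_filter_add_card_filter_not _
  have hAAR : A + A = R ∪ (A0 + A0) := by
    rw [← hA0A0, hR]
    ext x
    rw [Finset.mem_union, Finset.mem_filter, Finset.mem_filter]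
    tauto
  have hRc : (A + A + hf H).card ≤ R.card + d := by
    have h1 : A + A + hf H ⊆ R ∪ tr (hf H) (c + c) := by
      intro x hx
      obtain ⟨y, hy, hxy⟩ := mem_add_hf.1 hx
      rw [Finset.mem_union, mem_tr, mem_hf]
      by_cases h : y - (c + c) ∈ H
      · right
        have h1 : x - (c + c) = (x - y) + (y - (c + c)) := by abel
        rw [h1]
        exact H.add_mem hxy h
      · left
        exact hRper.of_sub_mem (Finset.mem_filter.2 ⟨hy, h⟩) hxy
    refine (Finset.card_le_card h1).trans ((Finset.card_union_le _ _).trans ?_)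
    rw [card_tr, hd]
    rfl
  -- Kneser modulo `H`
  have hC : 2 * (d * q) + d ≤ (A + A + hf H).card := by
    have e1 : (A + hf H) + (A + hf H) = A + A + hf H := by
      rw [add_add_add_comm, ← add_assoc, add_hf_add_hf _ le_rfl]
    have hne' : (A + hf H).Nonempty := hAne.mono (subset_add_hf A H)
    have h1 := kneser hne' hne'
    rw [e1] at h1
    obtain ⟨H', hH'⟩ : ∃ H', H' = stab (A + A + hf H) := ⟨_, rfl⟩
    have hHH' : H ≤ H' := by
      rw [hH']
      exact le_stab (per_add_hf _ H)
    rw [← hH', add_hf_add_hf A hHH'] at h1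
    have h2 := card_add_hf_ge hAne H'
    obtain ⟨d', hd'⟩ : ∃ d', d' = oH H' := ⟨_, rfl⟩
    rw [← hd', ← hm] at h2
    rw [← hd'] at h1
    have hdvd : d ∣ d' := by rw [hd, hd']; exact oH_dvd hHH'
    have hs'T := hT d' (by rw [hd']; exact oH_dvd_card H')
    obtain ⟨e, he⟩ := hdvd
    have h3 := Nat.div_add_mod (m - 1) d'
    have h4 : (m - 1) % d' % d = s := by
      rw [he, hs, Nat.mod_mul_right_mod]
    have h5 := Nat.div_add_mod ((m - 1) % d') d
    rw [h4] at h5
    obtain ⟨j, hj⟩ : ∃ j, j = (m - 1) % d' / d := ⟨_, rfl⟩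
    rw [← hj] at h5
    obtain ⟨q', hq'⟩ : ∃ q', q' = (m - 1) / d' := ⟨_, rfl⟩
    rw [← hq'] at h2 h3
    have h6 : 2 * j < e := by
      by_contra hcon
      push Not at hcon
      have h7 : d * e ≤ d * (2 * j) := Nat.mul_le_mul_left _ hcon
      have h8 : d * (2 * j) = 2 * (d * j) := by ring
      omega
    have h7 : d * (2 * j + 1) ≤ d * e := Nat.mul_le_mul_left _ h6
    have h8 : d * (2 * j + 1) = 2 * (d * j) + d := by ring
    have h9 : d' * (q' + 1) = d' * q' + d' := by ring
    omega
  have hA0A0c : (A0 + A0).card ≤ 2 * s + 1 := by omega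
  have hA0ne : A0.Nonempty := ⟨c, (hA0mem c).2 ⟨hc, by simp⟩⟩
  have hrest : A \ A0 ⊆ (A + hf H) \ tr (hf H) c := by
    intro x hx
    rw [Finset.mem_sdiff, hA0mem] at hx
    rw [Finset.mem_sdiff, mem_tr, mem_hf]
    exact ⟨subset_add_hf A H hx.1, fun h => hx.2 ⟨hx.1, h⟩⟩
  have hrestc : ((A + hf H) \ tr (hf H) c).card = d * q := by
    rw [Finset.card_sdiff_of_subset, hAHc, card_tr, hdq]
    · have : (hf H).card = d := hd.symm
      omega
    · intro x hx
      rw [mem_tr, mem_hf] at hx
      exact mem_add_hf.2 ⟨c, hc, hx⟩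
  have hA0c : s + 1 ≤ A0.card := by
    have h1 := Finset.card_le_card hrest
    rw [hrestc, Finset.card_sdiff_of_subset hA0sub] at h1
    have h2 := Finset.card_le_card hA0sub
    omega
  -- the stabiliser of `A0 + A0`
  have hKH : stab (A0 + A0) ≤ H := by
    intro g hg
    have h1 := per_stab (A0 + A0) (c + c) (Finset.add_mem_add ((hA0mem c).2 ⟨hc, by simp⟩)
      ((hA0mem c).2 ⟨hc, by simp⟩)) g hg
    rw [← hA0A0, Finset.mem_filter] at h1
    simpa using h1.2
  have hK : stab (A0 + A0) = ⊥ := by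
    rw [← le_bot_iff, ← hst]
    refine le_stab ?_
    rw [hAAR]
    exact (hRper.mono hKH).union (per_stab _)
  have hkn := kneser_aper hA0ne hA0ne hK
  have hf1 : (A0 + A0).card + 1 = 2 * A0.card := by omega
  have hf2 : A0.card = (m - 1) % d + 1 := by omega
  refine ⟨c, hc, ?_, hK, hf1, by rw [← hm, ← hd]; exact hf2⟩
  intro x hx hxc g hg
  have h1 : A \ A0 = (A + hf H) \ tr (hf H) c := by
    refine Finset.eq_of_subset_of_card_le hrest ?_
    rw [hrestc, Finset.card_sdiff_of_subset hA0sub]
    omega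
  have h2 : x + g ∈ (A + hf H) \ tr (hf H) c := by
    rw [Finset.mem_sdiff, mem_tr, mem_hf]
    refine ⟨per_add_hf A H x (subset_add_hf A H hx) g hg, fun h => hxc ?_⟩
    have h3 : x - c = (x + g - c) - g := by abel
    rw [h3]
    exact H.sub_mem h hg
  rw [← h1, Finset.mem_sdiff] at h2
  exact h2.1

theorem exists_nat_of_mem_zmultiples {g x : G} (h : x ∈ AddSubgroup.zmultiples g) :
    ∃ n : ℕ, n • g = x := by
  have := mem_multiples_iff_mem_zmultiples.2 h
  exact this

theorem nsmul_mem_zmultiples' (g : G) (n : ℕ) : n • g ∈ AddSubgroup.zmultiples g :=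
  AddSubgroup.nsmul_mem _ (AddSubgroup.mem_zmultiples g) n

/-- a set which gains at most one element from a shift -/
theorem ap_structure {A : Finset G} {g : G} (hg : (A ∪ tr A g).card ≤ A.card + 1)
    (hns : g ∉ stab A) : ∃ c ∈ A, ∃ l : ℕ,
      (∀ x ∈ A, x - c ∉ AddSubgroup.zmultiples g → ∀ u ∈ AddSubgroup.zmultiples g, x + u ∈ A) ∧
      (∀ x, x - c ∈ AddSubgroup.zmultiples g → (x ∈ A ↔ ∃ j ≤ l, x = c + j • g)) ∧
      ∀ j, 1 ≤ j → j ≤ l → j • g ≠ 0 := by
  classical
  obtain ⟨a0, ha0, ha0g⟩ : ∃ a0 ∈ A, a0 + g ∉ A := by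
    by_contra hcon
    push Not at hcon
    exact hns (mem_stab_of_forall hcon)
  have hstep : ∀ x ∈ A, x ≠ a0 → x + g ∈ A := by
    intro x hx hne
    have h1 : insert (a0 + g) A ⊆ A ∪ tr A g := by
      intro y hy
      rcases Finset.mem_insert.1 hy with rfl | hy
      · refine Finset.mem_union_right _ ?_
        rw [mem_tr]
        simpa using ha0
      · exact Finset.mem_union_left _ hy
    have h2 : insert (a0 + g) A = A ∪ tr A g :=
      Finset.eq_of_subset_of_card_le h1 (by rw [Finset.card_insert_of_notMem ha0g]; exact hg)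
    have h3 : x + g ∈ A ∪ tr A g := by
      refine Finset.mem_union_right _ ?_
      rw [mem_tr]
      simpa using hx
    rw [← h2, Finset.mem_insert] at h3
    rcases h3 with h3 | h3
    · exact absurd (add_right_cancel h3) hne
    · exact h3
  have hex : ∃ j : ℕ, a0 - j • g ∉ A := by
    refine ⟨addOrderOf g - 1, ?_⟩
    have hpos : 0 < addOrderOf g := addOrderOf_pos g
    have h1 : a0 - (addOrderOf g - 1) • g = a0 + g := by
      have h2 : (addOrderOf g - 1) • g + g = 0 := by
        rw [← succ_nsmul, Nat.sub_add_cancel hpos, addOrderOf_nsmul_eq_zero]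
      have h3 : (addOrderOf g - 1) • g = -g := eq_neg_of_add_eq_zero_left h2
      rw [h3]
      abel
    rw [h1]
    exact ha0g
  obtain ⟨N, hN⟩ : ∃ N, N = Nat.find hex := ⟨_, rfl⟩
  have hNs : a0 - N • g ∉ A := by rw [hN]; exact Nat.find_spec hex
  have hNm : ∀ j < N, a0 - j • g ∈ A := fun j hj => by
    by_contra hcon
    rw [hN] at hj
    exact Nat.find_min hex hj hcon
  have hN1 : 1 ≤ N := by
    by_contra hcon
    have : N = 0 := by omega
    rw [this, zero_nsmul, sub_zero] at hNs
    exact hNs ha0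
  obtain ⟨l, rfl⟩ : ∃ l, N = l + 1 := ⟨N - 1, by omega⟩
  set c := a0 - l • g with hc
  have hca : a0 - c = l • g := by rw [hc]; abel
  have hmemF : ∀ x, x - c ∈ AddSubgroup.zmultiples g → a0 - x ∈ AddSubgroup.zmultiples g := by
    intro x hx
    have h1 : a0 - x = (a0 - c) - (x - c) := by abel
    rw [h1, hca]
    exact AddSubgroup.sub_mem _ (nsmul_mem_zmultiples' g l) hx
  refine ⟨c, hNm l (by omega), l, ?_, ?_, ?_⟩
  · intro x hx hxc u hu
    obtain ⟨i, rfl⟩ := exists_nat_of_mem_zmultiples hu
    clear hu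
    induction i with
    | zero => simpa using hx
    | succ i ih =>
      rw [succ_nsmul, ← add_assoc]
      refine hstep _ ih fun h => hxc ?_
      have h1 : x - c = (a0 - c) - i • g := by rw [← h]; abel
      rw [h1, hca]
      exact AddSubgroup.sub_mem _ (nsmul_mem_zmultiples' g l) (nsmul_mem_zmultiples' g i)
  · intro x hx
    constructor
    · intro hxA
      have hex2 : ∃ i : ℕ, x + i • g = a0 := by
        obtain ⟨i, hi⟩ := exists_nat_of_mem_zmultiples (hmemF x hx)
        exact ⟨i, by rw [hi]; abel⟩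
      obtain ⟨i, hi⟩ : ∃ i, i = Nat.find hex2 := ⟨_, rfl⟩
      have his : x + i • g = a0 := by rw [hi]; exact Nat.find_spec hex2
      have him : ∀ j < i, x + j • g ≠ a0 := fun j hj => by
        rw [hi] at hj
        exact Nat.find_min hex2 hj
      have hin : ∀ j ≤ i, x + j • g ∈ A := by
        intro j hj
        induction j with
        | zero => simpa using hxA
        | succ j ih =>
          rw [succ_nsmul, ← add_assoc]
          exact hstep _ (ih (by omega)) (him j (by omega))
      have hil : i ≤ l := by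
        by_contra hcon
        apply hNs
        have h1 := hin (i - (l + 1)) (by omega)
        have h2 : x + (i - (l + 1)) • g = a0 - (l + 1) • g := by
          have h3 : i • g = (i - (l + 1)) • g + (l + 1) • g := by
            rw [← add_nsmul]
            congr 1
            omega
          rw [← his, h3]
          abel
        rwa [h2] at h1
      refine ⟨l - i, by omega, ?_⟩
      have h3 : l • g = (l - i) • g + i • g := by
        rw [← add_nsmul]
        congr 1
        omega
      rw [hc, h3, ← his]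
      abel
    · rintro ⟨j, hj, rfl⟩
      have h3 : l • g = (l - j) • g + j • g := by
        rw [← add_nsmul]
        congr 1
        omega
      have h4 : c + j • g = a0 - (l - j) • g := by
        rw [hc, h3]
        abel
      rw [h4]
      exact hNm _ (by omega)
  · intro j hj1 hj2 hj0
    apply ha0g
    have h1 := hNm (j - 1) (by omega)
    have h2 : (j - 1) • g + g = 0 := by
      rw [← succ_nsmul, Nat.sub_add_cancel hj1, hj0]
    have h3 : (j - 1) • g = -g := eq_neg_of_add_eq_zero_left h2
    rw [h3] at h1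
    have h4 : a0 + g = a0 - -g := by abel
    rwa [h4]

theorem tr_union (X Y : Finset G) (y : G) : tr (X ∪ Y) y = tr X y ∪ tr Y y := by
  ext z
  rw [Finset.mem_union, mem_tr, mem_tr, mem_tr, Finset.mem_union]

theorem tr_tr (X : Finset G) (a b : G) : tr (tr X a) b = tr X (a + b) := by
  ext z
  rw [mem_tr, mem_tr, mem_tr]
  have : z - b - a = z - (a + b) := by abel
  rw [this]

theorem stab_tr (X : Finset G) (y : G) : stab (tr X y) = stab X := by
  ext g
  rw [mem_stab, mem_stab]
  constructor
  · intro h x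
    have h1 := h (x + y)
    rw [mem_tr, mem_tr] at h1
    have h2 : x + y + g - y = x + g := by abel
    have h3 : x + y - y = x := by abel
    rwa [h2, h3] at h1
  · intro h x
    rw [mem_tr, mem_tr]
    have h1 := h (x - y)
    have h2 : x - y + g = x + g - y := by abel
    rwa [h2] at h1

/-- **Structure of critical sets.** -/
theorem critical_structure {A : Finset G} (hA2 : 2 ≤ A.card) (hT : Tc (Fintype.card G) 2 A.card)
    (hst : stab (A + A) = ⊥) (hcr : (A + A).card + 1 ≤ 2 * A.card) :
    ∃ g : G, g ≠ 0 ∧ ∃ c ∈ A, ∃ l : ℕ,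
      (∀ x ∈ A, x - c ∉ AddSubgroup.zmultiples g → ∀ u ∈ AddSubgroup.zmultiples g, x + u ∈ A) ∧
      (∀ x, x - c ∈ AddSubgroup.zmultiples g → (x ∈ A ↔ ∃ j ≤ l, x = c + j • g)) ∧
      ∀ j, 1 ≤ j → j ≤ l → j • g ≠ 0 := by
  classical
  have hAne : A.Nonempty := Finset.card_pos.1 (by omega)
  -- minimal subgroup
  have hex : ∃ n, ∃ H : AddSubgroup G, oH H = n ∧ H ≠ ⊥ ∧ (A + hf H).card + 1 ≤ A.card + oH H := by
    refine ⟨_, ⊤, rfl, ?_, ?_⟩
    · intro h
      have h1 : oH (⊤ : AddSubgroup G) = 1 := by rw [h, oH_bot]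
      have h2 : A.card ≤ Fintype.card G := Finset.card_le_univ A
      rw [oH_top] at h1
      omega
    · have h1 : (A + hf (⊤ : AddSubgroup G)).card ≤ Fintype.card G := Finset.card_le_univ _
      rw [oH_top]
      omega
  obtain ⟨H, hHn, hH, hAH⟩ := Nat.find_spec hex
  have hmin : ∀ K : AddSubgroup G, K ≠ ⊥ → (A + hf K).card + 1 ≤ A.card + oH K → oH H ≤ oH K := by
    intro K hK1 hK2
    rw [hHn]
    exact Nat.find_min' hex ⟨K, rfl, hK1, hK2⟩
  obtain ⟨c, hc, hper, hst0, hcr0, hA0c⟩ := quasi hA2 hT hst hcr hH hAH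
  set A0 := A.filter fun x => x - c ∈ H with hA0
  have hA0mem : ∀ x, x ∈ A0 ↔ x ∈ A ∧ x - c ∈ H := fun x => Finset.mem_filter
  set A1 := A.filter fun x => x - c ∉ H with hA1
  have hA1mem : ∀ x, x ∈ A1 ↔ x ∈ A ∧ x - c ∉ H := fun x => Finset.mem_filter
  have hA01 : A0.card + A1.card = A.card := Finset.card_filter_add_card_filter_not _
  have hA1per : Per A1 H := by
    intro x hx g hg
    rw [hA1mem] at hx ⊢
    refine ⟨hper x hx.1 hx.2 g hg, fun h => hx.2 ?_⟩
    have h3 : x - c = (x + g - c) - g := by abel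
    rw [h3]
    exact H.sub_mem h hg
  have hAsplit : ∀ x ∈ A, x ∈ A0 ∨ x ∈ A1 := by
    intro x hx
    by_cases h : x - c ∈ H
    · exact Or.inl ((hA0mem x).2 ⟨hx, h⟩)
    · exact Or.inr ((hA1mem x).2 ⟨hx, h⟩)
  have hcA0 : c ∈ A0 := (hA0mem c).2 ⟨hc, by simp⟩
  by_cases hone : A0.card = 1
  · -- a single exceptional element
    obtain ⟨t, ht, ht0⟩ := exists_ne_zero hH
    have hF : AddSubgroup.zmultiples t ≤ H := by
      rw [AddSubgroup.zmultiples_le]
      exact ht
    have hA0eq : ∀ x ∈ A0, x = c := by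
      obtain ⟨a, ha⟩ := Finset.card_eq_one.1 hone
      intro x hx
      rw [ha, Finset.mem_singleton] at hx
      have := hcA0
      rw [ha, Finset.mem_singleton] at this
      rw [hx, this]
    refine ⟨t, ht0, c, hc, 0, ?_, ?_, ?_⟩
    · intro x hx hxc u hu
      refine hper x hx (fun h => hxc ?_) u (hF hu)
      rw [hA0eq x ((hA0mem x).2 ⟨hx, h⟩), sub_self]
      exact AddSubgroup.zero_mem _
    · intro x hx
      constructor
      · intro hxA
        exact ⟨0, le_rfl, by rw [zero_nsmul, add_zero]; exact hA0eq x ((hA0mem x).2 ⟨hxA, hF hx⟩)⟩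
      · rintro ⟨j, hj, rfl⟩
        have : j = 0 := by omega
        rw [this, zero_nsmul, add_zero]
        exact hc
    · intro j h1 h2
      omega
  · have hA02 : 2 ≤ A0.card := by
      have := Finset.card_pos.2 ⟨c, hcA0⟩
      omega
    set S := tr A0 (-c) with hS
    have hSc : S.card = A0.card := card_tr _ _
    have hSmem : ∀ x, x ∈ S ↔ x + c ∈ A0 := fun x => by rw [hS, mem_tr, sub_neg_eq_add]
    have h0S : (0 : G) ∈ S := by rw [hSmem, zero_add]; exact hcA0
    set L := AddSubgroup.closure (S : Set G) with hL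
    have hLH : L ≤ H := by
      rw [hL, AddSubgroup.closure_le]
      intro x hx
      rw [Finset.mem_coe, hSmem, hA0mem] at hx
      simpa using hx.2
    have hSL : S ⊆ hf L := fun x hx => mem_hf.2 (AddSubgroup.subset_closure hx)
    have hSS : S + S = tr (A0 + A0) (-c + -c) := by
      rw [hS, tr_add, add_comm A0 (tr A0 (-c)), tr_add, tr_tr]
    have hSSc : (S + S).card = (A0 + A0).card := by rw [hSS, card_tr]
    have hSSst : stab (S + S) = ⊥ := by rw [hSS, stab_tr, hst0]
    have hSSL : S + S ⊆ hf L := by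
      intro z hz
      obtain ⟨a, ha, b, hb, rfl⟩ := Finset.mem_add.1 hz
      exact mem_hf.2 (L.add_mem (mem_hf.1 (hSL ha)) (mem_hf.1 (hSL hb)))
    have hSSle := Finset.card_le_card hSSL
    have hLne : L ≠ ⊥ := by
      intro h
      have h1 := Finset.card_le_card hSL
      rw [h] at h1
      have h2 : (hf (⊥ : AddSubgroup G)).card = 1 := oH_bot
      omega
    have hne1 : (S + S).card ≠ oH L := by
      intro h
      have h1 : S + S = hf L := Finset.eq_of_subset_of_card_le hSSL (by unfold oH at h; omega)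
      apply hLne
      rw [← le_bot_iff, ← hSSst, h1]
      exact le_stab (per_hf L)
    obtain ⟨s, hs⟩ : ∃ s, s = (A.card - 1) % oH H := ⟨_, rfl⟩
    rw [← hs] at hA0c
    have hne2 : (S + S).card + 1 ≠ oH L := by
      intro h
      have h1 : oH L = 2 * (s + 1) := by omega
      have h2 : (s + 1) ∣ oH H := (Dvd.intro_left 2 h1.symm).trans (oH_dvd hLH)
      have h3 := hT (s + 1) (h2.trans (oH_dvd_card H))
      have h4 : (A.card - 1) % (s + 1) = s % (s + 1) := by
        have h5 := Nat.mod_mod_of_dvd (A.card - 1) h2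
        rw [← hs] at h5
        exact h5.symm
      rw [h4, Nat.mod_eq_of_lt (by omega)] at h3
      omega
    have htop : (S + S).card + 2 ≤ oH L := by
      have : (hf L).card = oH L := rfl
      omega
    rcases iso S.card S le_rfl (by omega) h0S L hL ⟨S, hSL, by omega, htop, by omega⟩ with
      ⟨g, hgL, hg0, hgc⟩ | ⟨K, hKL, hK, hK1, hK2⟩
    · -- a shift gaining one element
      have hgH : g ∈ H := hLH hgL
      have h1 : (A0 ∪ tr A0 g).card ≤ A0.card + 1 := by
        have h2 : S ∪ tr S g = tr (A0 ∪ tr A0 g) (-c) := by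
          rw [hS, tr_union, tr_tr, tr_tr, add_comm g]
        rw [h2, card_tr, hSc] at hgc
        exact hgc
      have h2 : (A ∪ tr A g).card ≤ A.card + 1 := by
        have h3 : A ∪ tr A g ⊆ A1 ∪ (A0 ∪ tr A0 g) := by
          intro x hx
          rw [Finset.mem_union, Finset.mem_union]
          rcases Finset.mem_union.1 hx with h | h
          · rcases hAsplit x h with h | h
            · exact Or.inr (Or.inl h)
            · exact Or.inl h
          · rw [mem_tr] at h
            rcases hAsplit _ h with h | h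
            · exact Or.inr (Or.inr (mem_tr.2 h))
            · left
              have := hA1per _ h g hgH
              rwa [sub_add_cancel] at this
        have h4 := Finset.card_le_card h3
        have h5 := Finset.card_union_le A1 (A0 ∪ tr A0 g)
        omega
      have h3 : g ∉ stab A := by
        intro h
        apply hg0
        have h4 : stab A ≤ stab (A + A) := le_stab ((per_stab A).add_right A)
        have h5 := h4 h
        rw [hst] at h5
        exact h5
      obtain ⟨c', hc', l, h4, h5, h6⟩ := ap_structure h2 h3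
      exact ⟨g, hg0, c', hc', l, h4, h5, h6⟩
    · exfalso
      have hKH : K ≤ H := hKL.trans hLH
      have h1 : (A + hf K).card + 1 ≤ A.card + oH K := by
        have h2 : A + hf K ⊆ A1 ∪ (A0 + hf K) := by
          intro x hx
          obtain ⟨a, ha, hxa⟩ := mem_add_hf.1 hx
          rw [Finset.mem_union]
          rcases hAsplit a ha with h | h
          · exact Or.inr (mem_add_hf.2 ⟨a, h, hxa⟩)
          · exact Or.inl ((hA1per.mono hKH).of_sub_mem h hxa)
        have h3 : (A0 + hf K).card = (S + hf K).card := by rw [hS, tr_add, card_tr]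
        have h4 := Finset.card_le_card h2
        have h5 := Finset.card_union_le A1 (A0 + hf K)
        omega
      have h2 := hmin K hK h1
      have h3 := oH_mono hKL
      have h4 := oH_mono hLH
      have h5 : hf K ⊆ S + hf K := fun g hg => by
        have := Finset.add_mem_add h0S hg
        rwa [zero_add] at this
      have h6 := Finset.card_le_card h5
      have h7 : (hf K).card = oH K := rfl
      omega

end Pool.Agent.H49.Sumset
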