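import Mathlib

/-!
Definitions for the determination of the triples `(G, m, h)` with `ρ(G, m, h) = hm - h + 1 < |G|`
and of the corresponding minimisers.
-/

set_option autoImplicit false
set_option linter.unusedSectionVars false

namespace Pool.Agent.H49.Sumset

open Finset

universe u

/-- The `h`-fold sumset `hA = {a_1 + ... + a_h : a_i ∈ A}` (repetitions allowed). -/
def hfold {G : Type u} [AddCommGroup G] [DecidableEq G] (h : ℕ) (A : Finset G) : Finset G :=
  (Fintype.piFinset fun _ : Fin h => A).image fun a => ∑ i, a i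

/-- `ρ(G, m, h)`, the least size of `hA` over the `m`-subsets `A` of `G`. -/
noncomputable def rho (G : Type u) [AddCommGroup G] [DecidableEq G] (m h : ℕ) : ℕ :=
  sInf {k | ∃ A : Finset G, A.card = m ∧ (hfold h A).card = k}

/-- A *block* `B ⊆ F' \ F`, for subgroups `F ≤ F'`.  It is either a *progression block*: the union
of the cosets `t + F, 2t + F, ..., lt + F`, for some `t ∈ F'` and `l ≥ 0` such that none of
`t, 2t, ..., (hl)t` lies in `F`; or, if `h = 2`, a *half block*: a union of cosets of `F` inside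
`F' \ F` which contains exactly one of `x` and `-x`, for each `x ∈ F' \ F`. -/
def Block {G : Type u} [AddCommGroup G] (h : ℕ) (F F' : AddSubgroup G) (B : Finset G) : Prop :=
  (∃ t ∈ F', ∃ l : ℕ, (∀ j, 1 ≤ j → j ≤ h * l → j • t ∉ F) ∧
      ∀ x, x ∈ B ↔ ∃ j, 1 ≤ j ∧ j ≤ l ∧ x - j • t ∈ F) ∨
    (h = 2 ∧ (∀ x ∈ B, x ∈ F' ∧ x ∉ F ∧ ∀ g ∈ F, x + g ∈ B) ∧
      ∀ x ∈ F', x ∉ F → (x ∈ B ↔ -x ∉ B))

/-- `Tower h H F T`: `T` is a *tower* over the subgroup `H` inside the subgroup `F`, that is,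
`T = H ∪ B_1 ∪ ... ∪ B_k` for some chain `H = F_0 ≤ F_1 ≤ ... ≤ F_k = F` of subgroups and blocks
`B_i ⊆ F_i \ F_{i-1}` (in the sense of `Block h F_{i-1} F_i B_i`). -/
inductive Tower {G : Type u} [AddCommGroup G] [DecidableEq G] (h : ℕ) (H : AddSubgroup G) :
    AddSubgroup G → Finset G → Prop
  | base (T : Finset G) : (∀ x, x ∈ T ↔ x ∈ H) → Tower h H H T
  | step (F F' : AddSubgroup G) (T B : Finset G) : Tower h H F T → F ≤ F' → Block h F F' B →
      Tower h H F' (T ∪ B)

end Pool.Agent.H49.Sumset
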