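import Pool.Agent.H49.Sumset.Kneser

/-!
Sets with a small sumset: an isoperimetric argument with minimal critical sets.
-/

set_option autoImplicit false
set_option linter.unusedSectionVars false
set_option linter.unusedVariables false

namespace Pool.Agent.H49.Sumset

open Finset
open scoped Pointwise

universe u

variable {G : Type u} [AddCommGroup G] [Fintype G] [DecidableEq G]

/-- translate -/
def tr (X : Finset G) (y : G) : Finset G := X.image (· + y)

theorem mem_tr {X : Finset G} {y z : G} : z ∈ tr X y ↔ z - y ∈ X := by
  unfold tr
  rw [Finset.mem_image]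
  constructor
  · rintro ⟨x, hx, rfl⟩
    simpa using hx
  · intro h
    exact ⟨z - y, h, by simp⟩

theorem card_tr (X : Finset G) (y : G) : (tr X y).card = X.card :=
  Finset.card_image_of_injective _ (add_left_injective y)

theorem tr_add (X S : Finset G) (y : G) : tr X y + S = tr (X + S) y := by
  ext z
  rw [mem_tr, Finset.mem_add, Finset.mem_add]
  constructor
  · rintro ⟨a, ha, s, hs, rfl⟩
    exact ⟨a - y, mem_tr.1 ha, s, hs, by abel⟩
  · rintro ⟨a, ha, s, hs, h⟩
    refine ⟨a + y, mem_tr.2 (by simpa using ha), s, hs, ?_⟩
    rw [add_right_comm, h]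
    abel

theorem mem_stab_of_tr_eq {X : Finset G} {y : G} (h : tr X y = X) : y ∈ stab X := by
  intro z
  constructor
  · intro hz
    rw [← h, mem_tr] at hz
    simpa using hz
  · intro hz
    rw [← h, mem_tr]
    simpa using hz

theorem card_union_inter (A B : Finset G) : (A ∪ B).card + (A ∩ B).card = A.card + B.card :=
  Finset.card_union_add_card_inter A B

/-- subsets of a finite group: `U` and its translate meet -/
theorem card_inter_tr_ge {H : AddSubgroup G} {U : Finset G} {c : G} (hU : ∀ u ∈ U, u - c ∈ H)
    {y : G} (hy : y ∈ H) : 2 * U.card ≤ (U ∩ tr U y).card + oH H := by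
  classical
  have h1 := card_union_inter U (tr U y)
  rw [card_tr] at h1
  have h2 : (U ∪ tr U y).card ≤ oH H := by
    have h3 : U ∪ tr U y ⊆ tr (hf H) c := by
      intro z hz
      rw [mem_tr, mem_hf]
      rcases Finset.mem_union.1 hz with h | h
      · exact hU z h
      · have h4 := H.add_mem (hU _ (mem_tr.1 h)) hy
        have h5 : z - y - c + y = z - c := by abel
        rwa [h5] at h4
    have h4 := Finset.card_le_card h3
    rwa [card_tr] at h4
  omega

theorem iso : ∀ n : ℕ, ∀ S : Finset G, S.card ≤ n → 2 ≤ S.card → (0 : G) ∈ S →
    ∀ L : AddSubgroup G, L = AddSubgroup.closure (S : Set G) →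
    (∃ X : Finset G, X ⊆ hf L ∧ 2 ≤ X.card ∧ (X + S).card + 2 ≤ oH L ∧
      (X + S).card + 1 ≤ X.card + S.card) →
    (∃ g ∈ L, g ≠ 0 ∧ (S ∪ tr S g).card ≤ S.card + 1) ∨
    ∃ H : AddSubgroup G, H ≤ L ∧ H ≠ ⊥ ∧ (S + hf H).card < oH L ∧
      (S + hf H).card + 1 ≤ S.card + oH H := by
  classical
  intro n
  induction n with
  | zero =>
    intro S h1 h2
    omega
  | succ n ih =>
    intro S hSn hS2 hS0 L hL hex
    have hSL : S ⊆ hf L := fun s hs => by
      rw [mem_hf, hL]
      exact AddSubgroup.subset_closure hs
    have hXSL : ∀ X : Finset G, X ⊆ hf L → X + S ⊆ hf L := by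
      intro X hX z hz
      obtain ⟨x, hx, s, hs, rfl⟩ := Finset.mem_add.1 hz
      exact mem_hf.2 (L.add_mem (mem_hf.1 (hX hx)) (mem_hf.1 (hSL hs)))
    set F : Finset (Finset G) := (hf L).powerset.filter fun X => 2 ≤ X.card ∧
      (X + S).card + 2 ≤ oH L ∧ (X + S).card + 1 ≤ X.card + S.card with hF
    have hFmem : ∀ X, X ∈ F ↔ X ⊆ hf L ∧ 2 ≤ X.card ∧ (X + S).card + 2 ≤ oH L ∧
        (X + S).card + 1 ≤ X.card + S.card := fun X => by
      rw [hF, Finset.mem_filter, Finset.mem_powerset]
    -- the subcritical case
    by_cases hlow : ∃ X ∈ F, (X + S).card + 2 ≤ X.card + S.card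
    · obtain ⟨X, hXF, hXlow⟩ := hlow
      obtain ⟨hX1, hX2, hX3, hX4⟩ := (hFmem X).1 hXF
      have hXne : X.Nonempty := Finset.card_pos.1 (by omega)
      have hSne : S.Nonempty := ⟨0, hS0⟩
      have hk := kneser hXne hSne
      set H := stab (X + S) with hH
      have hXle := Finset.card_le_card (subset_add_hf X H)
      right
      refine ⟨H, ?_, ?_, ?_, ?_⟩
      · intro g hg
        obtain ⟨x, hx⟩ := hXne.add hSne
        have h1 := per_stab (X + S) x hx g hg
        have h2 := mem_hf.1 (hXSL X hX1 h1)
        have h3 := mem_hf.1 (hXSL X hX1 hx)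
        have h4 := L.sub_mem h2 h3
        simpa using h4
      · intro hbot
        have h1 := kneser_aper hXne hSne hbot
        omega
      · obtain ⟨x, hx⟩ := hXne
        have h1 : (S + hf H).card ≤ (X + S).card := by
          rw [← card_tr (S + hf H) x]
          refine Finset.card_le_card fun z hz => ?_
          rw [mem_tr, mem_add_hf] at hz
          obtain ⟨s, hs, hzs⟩ := hz
          refine (per_stab (X + S)).of_sub_mem (Finset.add_mem_add hx hs) ?_
          rw [← hH]
          have : z - (x + s) = z - x - s := by abel
          rw [this]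
          exact hzs
        omega
      · omega
    push Not at hlow
    -- critical lower bound
    have hdag : ∀ Z : Finset G, Z ⊆ hf L → 2 ≤ Z.card → (Z + S).card + 2 ≤ oH L →
        Z.card + S.card ≤ (Z + S).card + 1 := by
      intro Z h1 h2 h3
      by_contra hcon
      have h4 := hlow Z ((hFmem Z).2 ⟨h1, h2, h3, by omega⟩)
      omega
    obtain ⟨X0, hX0, hmin⟩ := Finset.exists_min_image F Finset.card (by
      obtain ⟨X, hX⟩ := hex
      exact ⟨X, (hFmem X).2 hX⟩)
    -- translate to contain zero
    obtain ⟨hX01, hX02, hX03, hX04⟩ := (hFmem X0).1 hX0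
    obtain ⟨x0, hx0⟩ : X0.Nonempty := Finset.card_pos.1 (by omega)
    obtain ⟨X, hcX, hcXS, hXL, h0X⟩ : ∃ X : Finset G, X.card = X0.card ∧
        (X + S).card = (X0 + S).card ∧ X ⊆ hf L ∧ (0 : G) ∈ X := by
      refine ⟨tr X0 (-x0), card_tr _ _, by rw [tr_add, card_tr], fun z hz => ?_, ?_⟩
      · rw [mem_tr] at hz
        have h1 := mem_hf.1 (hX01 hz)
        have h2 := mem_hf.1 (hX01 hx0)
        rw [mem_hf]
        have h3 := L.sub_mem h1 h2
        have h4 : z - -x0 - x0 = z := by abel
        rwa [h4] at h3
      · rw [mem_tr]
        simpa using hx0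
    have hXeq : (X + S).card + 1 = X.card + S.card := by
      have h1 := hdag X hXL (by omega) (by omega)
      omega
    have hXtop : (X + S).card + 2 ≤ oH L := by omega
    have hX2 : 2 ≤ X.card := by omega
    have hlt : ∀ Z : Finset G, Z ⊆ hf L → 2 ≤ Z.card → Z.card < X.card → (Z + S).card + 2 ≤ oH L →
        Z.card + S.card ≤ (Z + S).card := by
      intro Z h1 h2 h3 h4
      by_contra hcon
      have h5 := hmin Z ((hFmem Z).2 ⟨h1, h2, h4, by omega⟩)
      omega
    -- step 2: duality
    have hdual : X.card + (X + S).card ≤ oH L := by
      set Y := hf L \ (X + S) with hY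
      have hYc : Y.card + (X + S).card = oH L := by
        rw [hY, Finset.card_sdiff_of_subset (hXSL X hXL)]
        have := Finset.card_le_card (hXSL X hXL)
        unfold oH
        omega
      set N := Y.image Neg.neg with hN
      have hNc : N.card = Y.card := Finset.card_image_of_injective _ neg_injective
      have hNL : N ⊆ hf L := by
        intro z hz
        obtain ⟨y, hy, rfl⟩ := Finset.mem_image.1 hz
        rw [hY, Finset.mem_sdiff, mem_hf] at hy
        exact mem_hf.2 (L.neg_mem hy.1)
      have hNS : N + S ⊆ hf L \ X.image Neg.neg := by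
        intro z hz
        rw [Finset.mem_sdiff]
        refine ⟨hXSL N hNL hz, fun h => ?_⟩
        obtain ⟨w, hw, s, hs, rfl⟩ := Finset.mem_add.1 hz
        obtain ⟨y, hy, rfl⟩ := Finset.mem_image.1 hw
        obtain ⟨x, hx, hxz⟩ := Finset.mem_image.1 h
        rw [hY, Finset.mem_sdiff] at hy
        apply hy.2
        have : y = x + s := by
          have h1 : -x = -y + s := hxz
          have h2 : y = x + s := by
            have := congrArg Neg.neg h1
            rw [neg_neg, neg_add, neg_neg] at this
            rw [this]
            abel
          exact h2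
        rw [this]
        exact Finset.add_mem_add hx hs
      have hNSc : (N + S).card + X.card ≤ oH L := by
        have h1 := Finset.card_le_card hNS
        have h2 : X.image Neg.neg ⊆ hf L := by
          intro z hz
          obtain ⟨x, hx, rfl⟩ := Finset.mem_image.1 hz
          exact mem_hf.2 (L.neg_mem (mem_hf.1 (hXL hx)))
        rw [Finset.card_sdiff_of_subset h2, Finset.card_image_of_injective _ neg_injective] at h1
        have h3 := Finset.card_le_card h2
        rw [Finset.card_image_of_injective _ neg_injective] at h3
        unfold oH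
        omega
      have h1 := hmin N ((hFmem N).2 ⟨hNL, by omega, by omega, by omega⟩)
      omega
    -- step 3: intersections
    have hint : ∀ y ∈ L, tr X y ≠ X → (X ∩ tr X y).card ≤ 1 := by
      intro y hy hne
      by_contra hcon
      push Not at hcon
      set Z := X ∩ tr X y with hZ
      have hZX : Z ⊆ X := Finset.inter_subset_left
      have hZlt : Z.card < X.card := by
        refine Finset.card_lt_card ⟨hZX, fun h => hne ?_⟩
        have h1 : X ⊆ tr X y := fun x hx => (Finset.mem_inter.1 (h hx)).2
        exact (Finset.eq_of_subset_of_card_le h1 (by rw [card_tr])).symm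
      have hZS : Z + S ⊆ X + S := Finset.add_subset_add_right hZX
      have h1 := hlt Z (hZX.trans hXL) (by omega) hZlt
        (by have := Finset.card_le_card hZS; omega)
      set U := X ∪ tr X y with hU
      have hUc := card_union_inter X (tr X y)
      rw [card_tr, ← hU, ← hZ] at hUc
      have htrL : tr X y ⊆ hf L := by
        intro z hz
        rw [mem_tr] at hz
        have h3 := L.add_mem (mem_hf.1 (hXL hz)) hy
        rw [mem_hf]
        simpa using h3
      have hUL : U ⊆ hf L := Finset.union_subset hXL htrL
      have hUS : U + S = (X + S) ∪ tr (X + S) y := by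
        rw [hU, Finset.union_add, tr_add]
      have hUSc := card_union_inter (X + S) (tr (X + S) y)
      rw [card_tr, ← hUS] at hUSc
      have hZS' : Z + S ⊆ (X + S) ∩ tr (X + S) y := by
        refine Finset.subset_inter hZS ?_
        rw [← tr_add]
        exact Finset.add_subset_add_right Finset.inter_subset_right
      have h2 := Finset.card_le_card hZS'
      have h3 := hdag U hUL (by omega) (by omega)
      omega
    -- step 4
    by_cases hX3 : X.card = 2
    · left
      obtain ⟨a, b, hab, hXab⟩ := Finset.card_eq_two.1 hX3
      have hg : ∃ g, g ≠ 0 ∧ g ∈ X := by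
        by_cases ha : a = 0
        · exact ⟨b, fun hb => hab (ha.trans hb.symm), by rw [hXab]; simp⟩
        · exact ⟨a, ha, by rw [hXab]; simp⟩
      obtain ⟨g, hg0, hgX⟩ := hg
      refine ⟨g, mem_hf.1 (hXL hgX), hg0, ?_⟩
      have h1 : S ∪ tr S g ⊆ X + S := by
        intro z hz
        rcases Finset.mem_union.1 hz with h | h
        · have := Finset.add_mem_add h0X h
          rwa [zero_add] at this
        · rw [mem_tr] at h
          have := Finset.add_mem_add hgX h
          rwa [add_sub_cancel] at this
      have := Finset.card_le_card h1
      omega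
    have hX3' : 3 ≤ X.card := by omega
    -- step 5
    by_cases hstab : stab X = ⊥
    swap
    · right
      set Q := stab X with hQ
      have hQX : hf Q ⊆ X := by
        intro g hg
        have := per_stab X 0 h0X g (mem_hf.1 hg)
        rwa [zero_add] at this
      have hXQ : X ⊆ hf Q := by
        intro x hx
        rw [mem_hf]
        by_cases h1 : tr X (-x) = X
        · have h2 := mem_stab_of_tr_eq h1
          rw [hQ]
          simpa using (stab X).neg_mem h2
        · exfalso
          have h2 := hint (-x) (L.neg_mem (mem_hf.1 (hXL hx))) h1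
          have h3 : hf Q ⊆ X ∩ tr X (-x) := by
            refine Finset.subset_inter hQX fun g hg => ?_
            rw [mem_tr, sub_neg_eq_add, add_comm]
            exact per_stab X x hx g (mem_hf.1 hg)
          have h4 := Finset.card_le_card h3
          have h5 := two_le_oH hstab
          unfold oH at h5
          omega
      have hXeqQ : X = hf Q := Finset.Subset.antisymm hXQ hQX
      refine ⟨Q, fun g hg => mem_hf.1 (hXL (hQX (mem_hf.2 hg))), hstab, ?_, ?_⟩
      · rw [add_comm S, ← hXeqQ]
        omega
      · rw [add_comm S, ← hXeqQ]
        unfold oH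
        rw [← hXeqQ]
        omega
    -- step 6
    have hsid : ∀ y ∈ L, y ≠ 0 → (X ∩ tr X y).card ≤ 1 := by
      intro y hy hy0
      refine hint y hy fun h => hy0 ?_
      have := mem_stab_of_tr_eq h
      rw [hstab] at this
      exact this
    have hsid2 : ∀ a ∈ L, ∀ b ∈ L, a ≠ b → (tr X a ∩ tr X b).card ≤ 1 := by
      intro a ha b hb hab
      have h1 := hsid (b - a) (L.sub_mem hb ha) (sub_ne_zero.2 (Ne.symm hab))
      refine le_trans (Finset.card_le_card_of_injOn (fun z => z - a) ?_ ?_) h1
      · intro z hz
        rw [Finset.mem_coe, Finset.mem_inter, mem_tr, mem_tr] at hz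
        rw [Finset.mem_coe, Finset.mem_inter, mem_tr]
        refine ⟨hz.1, ?_⟩
        change z - a - (b - a) ∈ X
        have : z - a - (b - a) = z - b := by abel
        rw [this]
        exact hz.2
      · intro z _ w _ hzw
        exact sub_left_injective hzw
    have htrXS : ∀ s ∈ S, tr X s ⊆ X + S := by
      intro s hs z hz
      rw [mem_tr] at hz
      have := Finset.add_mem_add hz hs
      rwa [sub_add_cancel] at this
    have hXltS : X.card < S.card := by
      obtain ⟨s1, hs1, hs10⟩ : ∃ s ∈ S, s ≠ 0 := Finset.exists_mem_ne (by omega) 0
      have e1 := card_union_inter (tr X 0) (tr X s1)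
      rw [card_tr, card_tr] at e1
      have e2 := hsid2 0 L.zero_mem s1 (mem_hf.1 (hSL hs1)) (Ne.symm hs10)
      by_cases hS3 : S.card = 2
      · have e3 := Finset.card_le_card (Finset.union_subset (htrXS 0 hS0) (htrXS s1 hs1))
        omega
      · obtain ⟨s2, hs2, hs20, hs21⟩ : ∃ s ∈ S, s ≠ 0 ∧ s ≠ s1 := by
          have h1 : 0 < ((S.erase 0).erase s1).card := by
            rw [Finset.card_erase_of_mem (Finset.mem_erase.2 ⟨hs10, hs1⟩),
              Finset.card_erase_of_mem hS0]
            omega
          obtain ⟨s, hs⟩ := Finset.card_pos.1 h1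
          rw [Finset.mem_erase, Finset.mem_erase] at hs
          exact ⟨s, hs.2.2, hs.2.1, hs.1⟩
        have e4 := card_union_inter (tr X 0 ∪ tr X s1) (tr X s2)
        rw [card_tr] at e4
        have e5 : ((tr X 0 ∪ tr X s1) ∩ tr X s2).card ≤ 2 := by
          rw [Finset.union_inter_distrib_right]
          refine (Finset.card_union_le _ _).trans ?_
          have e6 := hsid2 0 L.zero_mem s2 (mem_hf.1 (hSL hs2)) (Ne.symm hs20)
          have e7 := hsid2 s1 (mem_hf.1 (hSL hs1)) s2 (mem_hf.1 (hSL hs2)) (Ne.symm hs21)
          omega
        have e8 := Finset.card_le_card (Finset.union_subset (Finset.union_subset (htrXS 0 hS0)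
          (htrXS s1 hs1)) (htrXS s2 hs2))
        omega
    -- every element of `X + S` has two representations
    have hrep : ∀ x ∈ X, ∀ s ∈ S, ∃ x' ∈ X, ∃ s' ∈ S, x' ≠ x ∧ x' + s' = x + s := by
      intro x hx s hs
      have h1 : (X.erase x) + S ⊆ X + S := Finset.add_subset_add_right (Finset.erase_subset _ _)
      have h2 := Finset.card_erase_of_mem hx
      have h3 := hlt (X.erase x) ((Finset.erase_subset _ _).trans hXL) (by omega) (by omega)
        (by have := Finset.card_le_card h1; omega)
      have h4 : (X.erase x) + S = X + S := Finset.eq_of_subset_of_card_le h1 (by omega)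
      have h5 : x + s ∈ X.erase x + S := by
        rw [h4]
        exact Finset.add_mem_add hx hs
      obtain ⟨x', hx', s', hs', h6⟩ := Finset.mem_add.1 h5
      rw [Finset.mem_erase] at hx'
      exact ⟨x', hx'.2, s', hs', hx'.1, h6⟩
    set L' := AddSubgroup.closure (X : Set G) with hL'
    have hXL' : X ⊆ hf L' := fun x hx => by
      rw [mem_hf, hL']
      exact AddSubgroup.subset_closure hx
    have hL'L : L' ≤ L := by
      rw [hL', AddSubgroup.closure_le]
      intro x hx
      exact mem_hf.1 (hXL hx)
    by_cases hA : ∃ s0 ∈ S, 2 ≤ (S.filter fun s => s - s0 ∈ L').card ∧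
        (X + S.filter fun s => s - s0 ∈ L').card + 2 ≤ oH L'
    · -- apply the induction hypothesis to `X`
      exfalso
      obtain ⟨s0, hs0, hSC2, hSC⟩ := hA
      set SC := S.filter fun s => s - s0 ∈ L' with hSCdef
      have hSCsub : SC ⊆ S := Finset.filter_subset _ _
      have hSCle : (X + SC).card + 1 ≤ SC.card + X.card := by
        -- `(X + SC) \ SC` is contained in `(X + S) \ S`
        have h1 : (X + SC) \ SC ⊆ (X + S) \ S := by
          intro z hz
          rw [Finset.mem_sdiff] at hz ⊢
          refine ⟨Finset.add_subset_add_left hSCsub hz.1, fun h => hz.2 ?_⟩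
          rw [hSCdef, Finset.mem_filter]
          refine ⟨h, ?_⟩
          obtain ⟨x, hx, s, hs, rfl⟩ := Finset.mem_add.1 hz.1
          rw [hSCdef, Finset.mem_filter] at hs
          rw [add_sub_assoc]
          exact L'.add_mem (mem_hf.1 (hXL' hx)) hs.2
        have h2 := Finset.card_le_card h1
        have h3 : S ⊆ X + S := fun s hs => by
          have := Finset.add_mem_add h0X hs
          rwa [zero_add] at this
        have h4 : SC ⊆ X + SC := fun s hs => by
          have := Finset.add_mem_add h0X hs
          rwa [zero_add] at this
        rw [Finset.card_sdiff_of_subset h3, Finset.card_sdiff_of_subset h4] at h2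
        have h5 := Finset.card_le_card h3
        have h6 := Finset.card_le_card h4
        omega
      have hih := ih X (by omega) hX2 h0X L' hL' ⟨tr SC (-s0), by
          intro z hz
          rw [mem_tr, hSCdef, Finset.mem_filter] at hz
          rw [mem_hf]
          have h1 : z - -s0 - s0 = z := by abel
          rw [← h1]
          exact hz.2, by rw [card_tr]; exact hSC2, by
          rw [tr_add, card_tr, add_comm SC]
          exact hSC, by
          rw [tr_add, card_tr, card_tr, add_comm SC]
          exact hSCle⟩
      rcases hih with ⟨g, hg, hg0, hgc⟩ | ⟨H', hH'L, hH'ne, hH'1, hH'2⟩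
      · have h1 := hsid g (hL'L hg) hg0
        have h2 := card_union_inter X (tr X g)
        rw [card_tr] at h2
        omega
      · -- counting
        obtain ⟨x1, hx1, hx1'⟩ : ∃ x1 ∈ X, x1 ∉ H' := by
          by_contra hcon
          push Not at hcon
          have h1 : L' ≤ H' := by
            rw [hL', AddSubgroup.closure_le]
            exact hcon
          have h2 : hf H' ⊆ X + hf H' := fun g hg => by
            have := Finset.add_mem_add h0X hg
            rwa [zero_add] at this
          have h3 := Finset.card_le_card h2
          have h4 := oH_mono h1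
          unfold oH at h4 hH'1
          omega
        obtain ⟨y, hy, hy0⟩ := exists_ne_zero hH'ne
        set U := X.filter fun x => x - 0 ∈ H' with hU
        set W := X.filter fun x => x - x1 ∈ H' with hW
        have hUW : Disjoint U W := by
          rw [Finset.disjoint_left]
          intro z hz hz'
          rw [hU, Finset.mem_filter, sub_zero] at hz
          rw [hW, Finset.mem_filter] at hz'
          apply hx1'
          have := H'.sub_mem hz.2 hz'.2
          have h3 : z - (z - x1) = x1 := by abel
          rwa [h3] at this
        -- holes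
        have hholes : 2 * oH H' + 1 ≤ U.card + W.card + oH H' := by
          have h1 : (hf H' ∪ tr (hf H') x1) \ (U ∪ W) ⊆ (X + hf H') \ X := by
            intro z hz
            rw [Finset.mem_sdiff] at hz ⊢
            refine ⟨?_, fun h => hz.2 ?_⟩
            · rcases Finset.mem_union.1 hz.1 with h | h
              · have := Finset.add_mem_add h0X h
                rwa [zero_add] at this
              · rw [mem_tr] at h
                have := Finset.add_mem_add hx1 h
                rwa [add_sub_cancel] at this
            · rcases Finset.mem_union.1 hz.1 with h' | h'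
              · refine Finset.mem_union_left _ ?_
                rw [hU, Finset.mem_filter, sub_zero]
                exact ⟨h, mem_hf.1 h'⟩
              · refine Finset.mem_union_right _ ?_
                rw [hW, Finset.mem_filter]
                exact ⟨h, mem_hf.1 (mem_tr.1 h')⟩
          have h2 := Finset.card_le_card h1
          rw [Finset.card_sdiff_of_subset (subset_add_hf X H')] at h2
          have h3 : Disjoint (hf H') (tr (hf H') x1) := by
            rw [Finset.disjoint_left]
            intro z hz hz'
            rw [mem_hf] at hz
            rw [mem_tr, mem_hf] at hz'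
            apply hx1'
            have := H'.sub_mem hz hz'
            have h3 : z - (z - x1) = x1 := by abel
            rwa [h3] at this
          have h4 : (hf H' ∪ tr (hf H') x1).card = oH H' + oH H' := by
            rw [Finset.card_union_of_disjoint h3, card_tr]
            rfl
          have h5 := Finset.le_card_sdiff (U ∪ W) (hf H' ∪ tr (hf H') x1)
          rw [h4, Finset.card_union_of_disjoint hUW] at h5
          have h6 := Finset.card_le_card (subset_add_hf X H')
          omega
        have hUy := card_inter_tr_ge (H := H') (U := U) (c := 0) (fun u hu => by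
          rw [hU, Finset.mem_filter] at hu
          exact hu.2) hy
        have hWy := card_inter_tr_ge (H := H') (U := W) (c := x1) (fun u hu => by
          rw [hW, Finset.mem_filter] at hu
          exact hu.2) hy
        have h7 : (U ∩ tr U y) ∪ (W ∩ tr W y) ⊆ X ∩ tr X y := by
          intro z hz
          rw [Finset.mem_inter, mem_tr]
          rcases Finset.mem_union.1 hz with h | h
          · rw [Finset.mem_inter, mem_tr] at h
            exact ⟨(Finset.mem_filter.1 h.1).1, (Finset.mem_filter.1 h.2).1⟩
          · rw [Finset.mem_inter, mem_tr] at h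
            exact ⟨(Finset.mem_filter.1 h.1).1, (Finset.mem_filter.1 h.2).1⟩
        have h8 := Finset.card_le_card h7
        rw [Finset.card_union_of_disjoint
          (hUW.mono Finset.inter_subset_left Finset.inter_subset_left)] at h8
        have h9 := hsid y (hL'L (hH'L hy)) hy0
        omega
    · -- the subgroup generated by `X`
      right
      push Not at hA
      have hSC2 : ∀ s0 ∈ S, 2 ≤ (S.filter fun s => s - s0 ∈ L').card := by
        intro s0 hs0
        obtain ⟨x', hx', s', hs', hne, heq⟩ := hrep 0 h0X s0 hs0
        rw [zero_add] at heq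
        refine Finset.one_lt_card.2 ⟨s0, ?_, s', ?_, ?_⟩
        · rw [Finset.mem_filter, sub_self]
          exact ⟨hs0, L'.zero_mem⟩
        · rw [Finset.mem_filter]
          refine ⟨hs', ?_⟩
          have : s' - s0 = -x' := by rw [← heq]; abel
          rw [this]
          exact L'.neg_mem (mem_hf.1 (hXL' hx'))
        · rintro rfl
          apply hne
          have : x' + s0 = 0 + s0 := by rw [zero_add]; exact heq
          exact add_right_cancel this
      have hS3 : S ⊆ X + S := fun s hs => by
        have := Finset.add_mem_add h0X hs
        rwa [zero_add] at this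
      -- a missing point is the only one in its coset
      have huniq : ∀ s0 ∈ S, ∀ p p' : G, p - s0 ∈ L' → p' - s0 ∈ L' → p ∉ X + S → p' ∉ X + S →
          p = p' := by
        intro s0 hs0 p p' hp hp' hpX hp'X
        by_contra hne
        have h1 := hA s0 hs0 (hSC2 s0 hs0)
        set SC := S.filter fun s => s - s0 ∈ L' with hSC
        have h2 : insert p (insert p' (X + SC)) ⊆ tr (hf L') s0 := by
          intro z hz
          rw [mem_tr, mem_hf]
          rw [Finset.mem_insert, Finset.mem_insert] at hz
          rcases hz with rfl | rfl | hz
          · exact hp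
          · exact hp'
          · obtain ⟨x, hx, s, hs, rfl⟩ := Finset.mem_add.1 hz
            rw [hSC, Finset.mem_filter] at hs
            rw [add_sub_assoc]
            exact L'.add_mem (mem_hf.1 (hXL' hx)) hs.2
        have h3 : X + SC ⊆ X + S := Finset.add_subset_add_left (Finset.filter_subset _ _)
        have h4 := Finset.card_le_card h2
        rw [card_tr, Finset.card_insert_of_notMem, Finset.card_insert_of_notMem] at h4
        · unfold oH at h1
          omega
        · exact fun h => hp'X (h3 h)
        · rw [Finset.mem_insert, not_or]
          exact ⟨hne, fun h => hpX (h3 h)⟩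
      have hE : ∀ p : G, p ∈ S + hf L' → p ∉ X + S →
          (X.erase 0).image (fun x => p - x) = (X + S) \ S := by
        intro p hp hpX
        obtain ⟨s0, hs0, hps⟩ := mem_add_hf.1 hp
        refine Finset.eq_of_subset_of_card_le ?_ ?_
        · intro z hz
          obtain ⟨x, hx, rfl⟩ := Finset.mem_image.1 hz
          rw [Finset.mem_erase] at hx
          rw [Finset.mem_sdiff]
          constructor
          · by_contra hcon
            have h1 := huniq s0 hs0 p (p - x) hps (by
              have h2 : p - x - s0 = (p - s0) - x := by abel
              rw [h2]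
              exact L'.sub_mem hps (mem_hf.1 (hXL' hx.2))) hpX hcon
            apply hx.1
            have h2 : p - x = p - 0 := by rw [sub_zero]; exact h1.symm
            exact sub_right_injective h2
          · intro h
            apply hpX
            have := Finset.add_mem_add hx.2 h
            rwa [add_sub_cancel] at this
        · rw [Finset.card_image_of_injective _ sub_right_injective, Finset.card_erase_of_mem h0X,
            Finset.card_sdiff_of_subset hS3]
          omega
      have hM : ((S + hf L') \ (X + S)).card ≤ 1 := by
        rw [Finset.card_le_one]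
        intro p hp p' hp'
        rw [Finset.mem_sdiff] at hp hp'
        have h1 := hE p hp.1 hp.2
        have h2 := hE p' hp'.1 hp'.2
        obtain ⟨x, hx⟩ : (X.erase 0).Nonempty := Finset.card_pos.1 (by
          rw [Finset.card_erase_of_mem h0X]; omega)
        have h3 : p - x ∈ (X.erase 0).image (fun x => p' - x) := by
          rw [h2, ← h1]
          exact Finset.mem_image.2 ⟨x, hx, rfl⟩
        obtain ⟨x', hx', h4⟩ := Finset.mem_image.1 h3
        rw [Finset.mem_erase] at hx hx'
        obtain ⟨s0, hs0, hps⟩ := mem_add_hf.1 hp.1
        refine huniq s0 hs0 p p' hps ?_ hp.2 hp'.2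
        have h5 : p' - s0 = (p - s0) - x + x' := by
          have h6 : p' - x' = p - x := h4
          have h7 : p' = p - x + x' := by rw [← h6]; abel
          rw [h7]
          abel
        rw [h5]
        exact L'.add_mem (L'.sub_mem hps (mem_hf.1 (hXL' hx.2))) (mem_hf.1 (hXL' hx'.2))
      have hcard : (S + hf L').card ≤ (X + S).card + 1 := by
        have h1 := Finset.le_card_sdiff (X + S) (S + hf L')
        omega
      have hL'ne : L' ≠ ⊥ := by
        intro h
        have h1 := Finset.card_le_card hXL'
        rw [h] at h1
        have h2 : (hf (⊥ : AddSubgroup G)).card = 1 := oH_bot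
        omega
      have hlt' : X.card < oH L' := by
        refine lt_of_le_of_ne (Finset.card_le_card hXL') fun h => hL'ne ?_
        have h1 : X = hf L' := Finset.eq_of_subset_of_card_le hXL' (by unfold oH at h; omega)
        have h2 : L' ≤ stab X := by
          rw [h1]
          exact le_stab (per_hf L')
        rw [hstab] at h2
        exact le_bot_iff.1 h2
      exact ⟨L', hL'L, hL'ne, by omega, by omega⟩

end Pool.Agent.H49.Sumset
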