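import Pool.Agent.H49.Sumset.Basic

/-!
Kneser's addition theorem for finite abelian groups.
-/

set_option autoImplicit false
set_option linter.unusedSectionVars false
set_option linter.unusedVariables false

namespace Pool.Agent.H49.Sumset

open Finset
open scoped Pointwise

universe u

variable {G : Type u} [AddCommGroup G] [Fintype G] [DecidableEq G]

/-- counting sums `x + h + k` -/
theorem card_mul_card_le {H₁ H₂ : AddSubgroup G} {P Q D : Finset G} (x : G)
    (hP : ∀ h ∈ P, h ∈ H₁) (hQ : ∀ k ∈ Q, k ∈ H₂) (hD : ∀ h ∈ P, ∀ k ∈ Q, x + h + k ∈ D) :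
    P.card * Q.card ≤ oH (H₁ ⊓ H₂) * D.card := by
  classical
  rw [← Finset.card_product]
  have h1 : (P ×ˢ Q).card ≤ oH (H₁ ⊓ H₂) * ((P ×ˢ Q).image fun z : G × G => x + z.1 + z.2).card := by
    refine Finset.card_le_mul_card_image (f := fun z : G × G => x + z.1 + z.2) (P ×ˢ Q)
      (oH (H₁ ⊓ H₂)) fun y hy => ?_
    obtain ⟨z0, hz0, hz0y⟩ := Finset.mem_image.1 hy
    rw [Finset.mem_product] at hz0
    unfold oH
    refine Finset.card_le_card_of_injOn (fun z : G × G => z.1 - z0.1) ?_ ?_
    · intro z hz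
      rw [Finset.mem_coe, Finset.mem_filter, Finset.mem_product] at hz
      have h2 : z.1 - z0.1 = z0.2 - z.2 := by
        have h3 := hz.2.trans hz0y.symm
        rw [add_assoc, add_assoc] at h3
        have h4 := add_left_cancel h3
        rw [sub_eq_sub_iff_add_eq_add, h4]
        abel
      rw [Finset.mem_coe, mem_hf]
      refine ⟨H₁.sub_mem (hP _ hz.1.1) (hP _ hz0.1), ?_⟩
      change z.1 - z0.1 ∈ H₂
      rw [h2]
      exact H₂.sub_mem (hQ _ hz0.2) (hQ _ hz.1.2)
    · intro z hz z' hz' hzz
      rw [Finset.mem_coe, Finset.mem_filter, Finset.mem_product] at hz hz'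
      have h2 : z.1 = z'.1 := sub_left_injective hzz
      have h3 := hz.2.trans hz'.2.symm
      rw [h2] at h3
      exact Prod.ext h2 (add_left_cancel h3)
  refine h1.trans (Nat.mul_le_mul_left _ (Finset.card_le_card ?_))
  intro y hy
  obtain ⟨z, hz, rfl⟩ := Finset.mem_image.1 hy
  rw [Finset.mem_product] at hz
  exact hD _ hz.1 _ hz.2

/-- numerical part of the two sets lemma -/
theorem num_aux {n a b α β h1 h2 D1 D2 : ℕ} (hn : 1 ≤ n) (ha : n ≤ a) (hb : n ≤ b)
    (hα : α = 0 ∨ n ≤ α) (e1 : a + α = h1) (e2 : b + β = h2) (i1 : α * β ≤ n * D2)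
    (i2 : a * b ≤ n * D1) (c1 : D2 + n < h1) (c2 : D1 + n < h2) : h1 < h2 := by
  rcases hα with rfl | hα
  · by_contra hcon
    push Not at hcon
    have e3 : a = h1 := by omega
    subst e3
    nlinarith
  · exfalso
    -- (a - n) * b ≤ n * (β - n - 1), α * (β - n) ≤ n * (a - n - 1)
    obtain ⟨a', rfl⟩ := Nat.exists_eq_add_of_le ha
    obtain ⟨b', rfl⟩ := Nat.exists_eq_add_of_le hb
    obtain ⟨α', rfl⟩ := Nat.exists_eq_add_of_le hα
    have k1 : D1 + 1 ≤ b' + β := by omega
    have k2 : D2 + 1 ≤ a' + (n + α') := by omega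
    have k3 : (n + a') * (n + b') + n ≤ n * (b' + β) := by nlinarith
    have k4 : (n + α') * β + n ≤ n * (a' + (n + α')) := by nlinarith
    -- from k3: n*n + n*a' + n ≤ n*β, so β ≥ n + a' + 1
    have k5 : n + a' + 1 ≤ β := by
      have : n * (n + a' + 1) ≤ n * β := by nlinarith
      exact Nat.le_of_mul_le_mul_left this (by omega)
    nlinarith

theorem one_side {H K : AddSubgroup G} {C C' : Finset G} (hC : Per C H) (hC' : Per C' K) {x : G}
    (hx : x ∈ C) (hx' : x ∉ C') (c1 : (C' \ C).card + oH (H ⊓ K) < oH H)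
    (c2 : (C \ C').card + oH (H ⊓ K) < oH K) : oH H < oH K := by
  classical
  refine num_aux (n := oH (H ⊓ K)) (a := ((hf H).filter fun h => x + h ∉ C').card)
    (b := ((hf K).filter fun k => x + k ∈ C).card)
    (α := ((hf H).filter fun h => x + h ∈ C').card)
    (β := ((hf K).filter fun k => x + k ∉ C).card) (oH_pos _) ?_ ?_ ?_ ?_ ?_ ?_ ?_ c1 c2
  · refine Finset.card_le_card fun g hg => ?_
    rw [mem_hf] at hg
    rw [Finset.mem_filter, mem_hf]
    exact ⟨hg.1, fun h => hx' ((hC'.iff hg.2).1 h)⟩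
  · refine Finset.card_le_card fun g hg => ?_
    rw [mem_hf] at hg
    rw [Finset.mem_filter, mem_hf]
    exact ⟨hg.2, hC x hx g hg.1⟩
  · by_cases hex : ((hf H).filter fun h => x + h ∈ C') = ∅
    · left
      rw [hex]
      simp
    · right
      obtain ⟨h0, hh0⟩ := Finset.nonempty_iff_ne_empty.2 hex
      rw [Finset.mem_filter, mem_hf] at hh0
      refine Finset.card_le_card_of_injOn (fun g => h0 + g) ?_ ?_
      · intro g hg
        rw [Finset.mem_coe, mem_hf] at hg
        rw [Finset.mem_coe, Finset.mem_filter, mem_hf, ← add_assoc]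
        exact ⟨H.add_mem hh0.1 hg.1, hC' _ hh0.2 g hg.2⟩
      · intro g _ g' _ hgg
        exact add_left_cancel hgg
  · rw [add_comm, Finset.card_filter_add_card_filter_not]
    rfl
  · rw [Finset.card_filter_add_card_filter_not]
    rfl
  · refine card_mul_card_le x (fun h hh => mem_hf.1 (Finset.mem_filter.1 hh).1)
      (fun k hk => mem_hf.1 (Finset.mem_filter.1 hk).1) fun h hh k hk => ?_
    rw [Finset.mem_filter, mem_hf] at hh hk
    rw [Finset.mem_sdiff, hC'.iff hk.1]
    refine ⟨hh.2, ?_⟩
    rw [add_right_comm, hC.iff hh.1]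
    exact hk.2
  · refine card_mul_card_le x (fun h hh => mem_hf.1 (Finset.mem_filter.1 hh).1)
      (fun k hk => mem_hf.1 (Finset.mem_filter.1 hk).1) fun h hh k hk => ?_
    rw [Finset.mem_filter, mem_hf] at hh hk
    rw [Finset.mem_sdiff, hC'.iff hk.1]
    refine ⟨?_, hh.2⟩
    rw [add_right_comm, hC.iff hh.1]
    exact hk.2

/-- **Kneser's lemma on the union of two periodic sets.** -/
theorem two_sets {C₁ C₂ : Finset G} {H₁ H₂ : AddSubgroup G} (p₁ : Per C₁ H₁) (p₂ : Per C₂ H₂)
    {x₁ x₂ : G} (hx₁ : x₁ ∈ C₁) (hx₁' : x₁ ∉ C₂) (hx₂ : x₂ ∈ C₂) (hx₂' : x₂ ∉ C₁) :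
    C₁.card + oH H₁ ≤ (C₁ ∪ C₂).card + oH (H₁ ⊓ H₂) ∨
      C₂.card + oH H₂ ≤ (C₁ ∪ C₂).card + oH (H₁ ⊓ H₂) := by
  classical
  by_contra hcon
  push Not at hcon
  obtain ⟨c1, c2⟩ := hcon
  have u1 : (C₁ ∪ C₂).card = C₁.card + (C₂ \ C₁).card := by
    rw [← Finset.card_union_of_disjoint Finset.disjoint_sdiff, Finset.union_sdiff_self_eq_union]
  have u2 : (C₁ ∪ C₂).card = C₂.card + (C₁ \ C₂).card := by
    rw [← Finset.card_union_of_disjoint Finset.disjoint_sdiff, Finset.union_sdiff_self_eq_union,
      Finset.union_comm]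
  have a1 := one_side p₁ p₂ hx₁ hx₁' (by omega) (by omega)
  have a2 := one_side p₂ p₁ hx₂ hx₂' (by rw [inf_comm]; omega) (by rw [inf_comm]; omega)
  omega

/-- Dyson transforms produce large almost periodic pieces of a sumset around each of its elements. -/
theorem dyson : ∀ n : ℕ, ∀ A B : Finset G, B.card ≤ n → ∀ a ∈ A, ∀ b ∈ B,
    ∃ D : Finset G, D ⊆ A + B ∧ a + b ∈ D ∧ ∃ H, Per D H ∧ A.card + B.card ≤ D.card + oH H := by
  classical
  intro n
  induction n with
  | zero =>
    intro A B hB a ha b hb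
    have : B = ∅ := Finset.card_eq_zero.1 (by omega)
    rw [this] at hb
    simp at hb
  | succ n ih =>
    intro A B hB a ha b hb
    by_cases hall : ∀ e ∈ A, ∀ x ∈ B, x + (e - b) ∈ A
    · -- `A` is periodic under `B - b`
      refine ⟨A.image (· + b), ?_, Finset.mem_image.2 ⟨a, ha, rfl⟩, stab A, ?_, ?_⟩
      · intro y hy
        obtain ⟨x, hx, rfl⟩ := Finset.mem_image.1 hy
        exact Finset.add_mem_add hx hb
      · intro y hy g hg
        obtain ⟨x, hx, rfl⟩ := Finset.mem_image.1 hy
        refine Finset.mem_image.2 ⟨x + g, per_stab A x hx g hg, by abel⟩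
      · rw [Finset.card_image_of_injective _ (add_left_injective b)]
        refine Nat.add_le_add_left ?_ _
        unfold oH
        refine Finset.card_le_card_of_injOn (fun x => x - b) ?_ ?_
        · intro x hx
          rw [Finset.mem_coe, mem_hf]
          refine mem_stab_of_forall fun e he => ?_
          have := hall e he x hx
          have h2 : x + (e - b) = e + (x - b) := by abel
          rwa [h2] at this
        · intro x _ y _ hxy
          exact sub_left_injective hxy
    · push Not at hall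
      obtain ⟨e, he, x0, hx0, hx0'⟩ := hall
      set A' := A ∪ B.image (· + (e - b)) with hA'
      set B' := B.filter (fun x => x + (e - b) ∈ A) with hB'
      have hcard : A'.card + B'.card = A.card + B.card := by
        have h1 := Finset.card_union_add_card_inter A (B.image (· + (e - b)))
        have h2 : (B.image (· + (e - b))).card = B.card :=
          Finset.card_image_of_injective _ (add_left_injective _)
        have h3 : (A ∩ B.image (· + (e - b))).card = B'.card := by
          symm
          refine Finset.card_bij (fun x _ => x + (e - b)) ?_ ?_ ?_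
          · intro x hx
            rw [hB', Finset.mem_filter] at hx
            exact Finset.mem_inter.2 ⟨hx.2, Finset.mem_image.2 ⟨x, hx.1, rfl⟩⟩
          · intro x _ y _ hxy
            exact add_right_cancel hxy
          · intro y hy
            obtain ⟨hy1, hy2⟩ := Finset.mem_inter.1 hy
            obtain ⟨x, hx, rfl⟩ := Finset.mem_image.1 hy2
            exact ⟨x, Finset.mem_filter.2 ⟨hx, hy1⟩, rfl⟩
        rw [← hA', h2, h3] at h1
        omega
      have hlt : B'.card < B.card := by
        refine Finset.card_lt_card ⟨Finset.filter_subset _ _, fun hsub => hx0' ?_⟩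
        exact (Finset.mem_filter.1 (hsub hx0)).2
      obtain ⟨D, hD1, hD2, H, hD3, hD4⟩ := ih A' B' (by omega) a (Finset.mem_union_left _ ha) b
        (Finset.mem_filter.2 ⟨hb, by simpa using he⟩)
      refine ⟨D, hD1.trans ?_, hD2, H, hD3, by omega⟩
      intro y hy
      obtain ⟨u, hu, w, hw, rfl⟩ := Finset.mem_add.1 hy
      obtain ⟨hw1, hw2⟩ := Finset.mem_filter.1 hw
      rcases Finset.mem_union.1 hu with hu | hu
      · exact Finset.add_mem_add hu hw1
      · obtain ⟨z, hz, rfl⟩ := Finset.mem_image.1 hu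
        have : z + (e - b) + w = (w + (e - b)) + z := by abel
        rw [this]
        exact Finset.add_mem_add hw2 hz

/-- weak form of Kneser's theorem -/
theorem kneser_weak {A B : Finset G} (hA : A.Nonempty) (hB : B.Nonempty) :
    ∃ H, Per (A + B) H ∧ A.card + B.card ≤ (A + B).card + oH H := by
  classical
  set N := A.card + B.card with hN
  let good : Finset G → Prop := fun D => ∃ H, Per D H ∧ N ≤ D.card + oH H
  obtain ⟨a, ha⟩ := hA
  obtain ⟨b, hb⟩ := hB
  obtain ⟨D0, hD0, -, hD0g⟩ := dyson B.card A B le_rfl a ha b hb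
  obtain ⟨D, hD, hmax⟩ := Finset.exists_max_image ((A + B).powerset.filter good) Finset.card
    ⟨D0, Finset.mem_filter.2 ⟨Finset.mem_powerset.2 hD0, hD0g⟩⟩
  rw [Finset.mem_filter, Finset.mem_powerset] at hD
  obtain ⟨hD1, H, hDH, hDc⟩ := hD
  by_cases hall : A + B ⊆ D
  · have : D = A + B := Finset.Subset.antisymm hD1 hall
    rw [← this]
    exact ⟨H, hDH, hDc⟩
  · exfalso
    obtain ⟨c, hc, hcD⟩ := Finset.not_subset.1 hall
    obtain ⟨u, hu, w, hw, rfl⟩ := Finset.mem_add.1 hc
    obtain ⟨D', hD'1, hD'2, H', hD'H, hD'c⟩ := dyson B.card A B le_rfl u hu w hw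
    by_cases hsub : D ⊆ D'
    · have h1 := hmax D' (Finset.mem_filter.2 ⟨Finset.mem_powerset.2 hD'1, H', hD'H, hD'c⟩)
      have h2 : D = D' := Finset.eq_of_subset_of_card_le hsub h1
      exact hcD (h2 ▸ hD'2)
    · obtain ⟨x1, hx1, hx1'⟩ := Finset.not_subset.1 hsub
      have h1 := two_sets hDH hD'H hx1 hx1' hD'2 hcD
      have hper : Per (D ∪ D') (H ⊓ H') := (hDH.mono inf_le_left).union (hD'H.mono inf_le_right)
      have h2 := hmax (D ∪ D') (Finset.mem_filter.2 ⟨Finset.mem_powerset.2
        (Finset.union_subset hD1 hD'1), H ⊓ H', hper, by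
          rcases h1 with h1 | h1
          · exact hDc.trans h1
          · exact hD'c.trans h1⟩)
      have h3 : D.card < (D ∪ D').card := by
        refine Finset.card_lt_card ⟨Finset.subset_union_left, fun h => hcD (h ?_)⟩
        exact Finset.mem_union_right _ hD'2
      omega

/-- **Kneser's theorem.** -/
theorem kneser {A B : Finset G} (hA : A.Nonempty) (hB : B.Nonempty) :
    (A + hf (stab (A + B))).card + (B + hf (stab (A + B))).card ≤
      (A + B).card + oH (stab (A + B)) := by
  classical
  set S := stab (A + B) with hS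
  have hne : ∀ C : Finset G, C.Nonempty → (C + hf S).Nonempty := fun C hC =>
    hC.mono (subset_add_hf C S)
  obtain ⟨H, h1, h2⟩ := kneser_weak (hne A hA) (hne B hB)
  have h3 : (A + hf S) + (B + hf S) = A + B := by
    have h4 : (A + hf S) + (B + hf S) = ((A + B) + hf S) + hf S := by
      rw [add_add_add_comm, ← add_assoc]
    rw [h4, add_hf_add_hf _ le_rfl, (per_stab (A + B)).eq]
  rw [h3] at h1 h2
  exact h2.trans (Nat.add_le_add_left (oH_mono (le_stab h1)) _)

/-- Kneser's theorem with a larger subgroup is not needed; here is the aperiodic case. -/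
theorem kneser_aper {A B : Finset G} (hA : A.Nonempty) (hB : B.Nonempty) (h : stab (A + B) = ⊥) :
    A.card + B.card ≤ (A + B).card + 1 := by
  have h1 := kneser hA hB
  rw [h, oH_bot] at h1
  have h2 := Finset.card_le_card (subset_add_hf A ⊥)
  have h3 := Finset.card_le_card (subset_add_hf B ⊥)
  omega

/-! ### Iterated sumsets -/

/-- the `k`-fold sumset -/
def nf : ℕ → Finset G → Finset G
  | 0, _ => {0}
  | (k + 1), A => nf k A + A

theorem nf_succ (k : ℕ) (A : Finset G) : nf (k + 1) A = nf k A + A := rfl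

theorem nf_one (A : Finset G) : nf 1 A = A := by
  change ({0} : Finset G) + A = A
  rw [Finset.singleton_zero, zero_add]

theorem nf_two (A : Finset G) : nf 2 A = A + A := by
  rw [nf_succ, nf_one]

theorem nf_nonempty {A : Finset G} (hA : A.Nonempty) : ∀ k, (nf k A).Nonempty
  | 0 => ⟨0, Finset.mem_singleton_self 0⟩
  | (k + 1) => (nf_nonempty hA k).add hA

theorem nf_mono {A B : Finset G} (h : A ⊆ B) : ∀ k, nf k A ⊆ nf k B
  | 0 => Finset.Subset.refl _
  | (k + 1) => Finset.add_subset_add (nf_mono h k) h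

theorem nf_add (A : Finset G) (k : ℕ) : ∀ l, nf (k + l) A = nf k A + nf l A
  | 0 => by
    change nf k A = nf k A + ({0} : Finset G)
    rw [Finset.singleton_zero, add_zero]
  | (l + 1) => by
    rw [← add_assoc, nf_succ, nf_succ, nf_add A k l, add_assoc]

theorem nf_zero_mem {A : Finset G} (h0 : (0 : G) ∈ A) : ∀ k, (0 : G) ∈ nf k A
  | 0 => Finset.mem_singleton_self 0
  | (k + 1) => by
    have := Finset.add_mem_add (nf_zero_mem h0 k) h0
    rwa [add_zero] at this

theorem nf_subset_succ {A : Finset G} (h0 : (0 : G) ∈ A) (k : ℕ) : nf k A ⊆ nf (k + 1) A := by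
  intro x hx
  have := Finset.add_mem_add hx h0
  rwa [add_zero] at this

theorem nf_subset_of_le {A : Finset G} (h0 : (0 : G) ∈ A) {k l : ℕ} (h : k ≤ l) :
    nf k A ⊆ nf l A := by
  induction l, h using Nat.le_induction with
  | base => exact Finset.Subset.refl _
  | succ l _ ih => exact ih.trans (nf_subset_succ h0 l)

theorem nf_add_hf (A : Finset G) (H : AddSubgroup G) : ∀ k, 1 ≤ k →
    nf k (A + hf H) = nf k A + hf H := by
  intro k hk
  induction k, hk using Nat.le_induction with
  | base => rw [nf_one, nf_one]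
  | succ k _ ih =>
    rw [nf_succ, nf_succ, ih]
    have h4 : (nf k A + hf H) + (A + hf H) = ((nf k A + A) + hf H) + hf H := by
      rw [add_add_add_comm, ← add_assoc]
    rw [h4, add_hf_add_hf _ le_rfl]

/-- Kneser's theorem for iterated sumsets -/
theorem kneser_nf : ∀ k, 1 ≤ k → ∀ A : Finset G, A.Nonempty →
    k * (A + hf (stab (nf k A))).card ≤ (nf k A).card + (k - 1) * oH (stab (nf k A)) := by
  intro k hk
  induction k, hk using Nat.le_induction with
  | base =>
    intro A hA
    rw [nf_one, (per_stab A).eq]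
    simp
  | succ k hk ih =>
    intro A hA
    set H := stab (nf (k + 1) A) with hH
    have h1 := kneser (nf_nonempty hA k) hA
    rw [← nf_succ, ← hH, ← nf_add_hf A H k hk] at h1
    have h2 := ih (A + hf H) (hA.mono (subset_add_hf A H))
    have h3 : stab (nf k (A + hf H)) ≤ H := by
      rw [hH]
      refine le_stab ?_
      have h4 : nf (k + 1) A = nf k (A + hf H) + A := by
        rw [nf_add_hf A H k hk, add_right_comm, ← nf_succ, hH, (per_stab _).eq]
      have h5 := (per_stab (nf k (A + hf H))).add_right A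
      rwa [← h4] at h5
    have h4 : A + hf H ⊆ A + hf H + hf (stab (nf k (A + hf H))) := subset_add_hf _ _
    have h5 := Finset.card_le_card h4
    have h6 := oH_mono h3
    have h7 : k * (A + hf H).card ≤ (nf k (A + hf H)).card + (k - 1) * oH H := by
      calc k * (A + hf H).card ≤ k * (A + hf H + hf (stab (nf k (A + hf H)))).card :=
            Nat.mul_le_mul_left _ h5
        _ ≤ _ := h2
        _ ≤ _ := Nat.add_le_add_left (Nat.mul_le_mul_left _ h6) _
    obtain ⟨j, rfl⟩ : ∃ j, k = j + 1 := ⟨k - 1, by omega⟩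
    simp only [Nat.add_sub_cancel] at h7 ⊢
    nlinarith

end Pool.Agent.H49.Sumset
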