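import Pool.Agent.H49.Sumset.Classify

/-!
The value of `ρ(G, m, h)` compared with `hm - h + 1`.
-/

set_option autoImplicit false
set_option linter.unusedSectionVars false
set_option linter.unusedVariables false

namespace Pool.Agent.H49.Sumset

open Finset
open scoped Pointwise

universe u

variable {G : Type u} [AddCommGroup G] [Fintype G] [DecidableEq G]

/-! ### Sums of `h` elements -/

theorem mem_hfold {h : ℕ} {A : Finset G} {x : G} :
    x ∈ hfold h A ↔ ∃ a : Fin h → G, (∀ i, a i ∈ A) ∧ ∑ i, a i = x := by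
  unfold hfold
  rw [Finset.mem_image]
  simp only [Fintype.mem_piFinset]

theorem hfold_eq (A : Finset G) : ∀ h, hfold h A = nf h A
  | 0 => by
    ext x
    rw [mem_hfold]
    change _ ↔ x ∈ ({0} : Finset G)
    rw [Finset.mem_singleton]
    constructor
    · rintro ⟨a, -, rfl⟩
      exact Fin.sum_univ_zero a
    · rintro rfl
      exact ⟨fun i => 0, fun i => i.elim0, Fin.sum_univ_zero _⟩
  | (h + 1) => by
    ext x
    rw [nf_succ, ← hfold_eq A h, mem_hfold, Finset.mem_add]
    constructor
    · rintro ⟨a, ha, rfl⟩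
      refine ⟨∑ i : Fin h, a (Fin.castSucc i), mem_hfold.2 ⟨_, fun i => ha _, rfl⟩, a (Fin.last h),
        ha _, ?_⟩
      rw [Fin.sum_univ_castSucc]
    · rintro ⟨y, hy, z, hz, rfl⟩
      obtain ⟨a, ha, rfl⟩ := mem_hfold.1 hy
      refine ⟨Fin.snoc (α := fun _ => G) a z, fun i => ?_, ?_⟩
      · refine Fin.lastCases ?_ (fun j => ?_) i
        · rw [Fin.snoc_last]
          exact hz
        · rw [Fin.snoc_castSucc]
          exact ha j
      · rw [Fin.sum_univ_castSucc, Fin.snoc_last]
        congr 1
        refine Finset.sum_congr rfl fun j _ => ?_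
        rw [Fin.snoc_castSucc]

/-! ### A subadditive numbering -/

/-- a subgroup whose elements can be numbered subadditively -/
def Num (H : AddSubgroup G) : Prop := ∃ num : G → ℕ,
  (∀ x ∈ H, ∀ y ∈ H, num x = num y → x = y) ∧ (∀ x ∈ H, num x < oH H) ∧
    ∀ x ∈ H, ∀ y ∈ H, num (x + y) ≤ num x + num y

theorem num_bot : Num (⊥ : AddSubgroup G) := by
  refine ⟨fun _ => 0, ?_, ?_, ?_⟩
  · intro x hx y hy _
    rw [AddSubgroup.mem_bot] at hx hy
    rw [hx, hy]
  · intro x _
    exact oH_pos _
  · intro x _ y _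
    exact Nat.zero_le _

theorem num_extend {H : AddSubgroup G} (hH : Num H) (hne : H ≠ ⊤) :
    ∃ H' : AddSubgroup G, oH H < oH H' ∧ Num H' := by
  classical
  obtain ⟨num, h1, h2, h3⟩ := hH
  obtain ⟨g, hg⟩ : ∃ g, g ∉ H := by
    by_contra hcon
    push Not at hcon
    exact hne ((AddSubgroup.eq_top_iff' H).2 hcon)
  set H' := H ⊔ AddSubgroup.zmultiples g with hH'
  have hHH' : H ≤ H' := le_sup_left
  have hgH' : g ∈ H' := (le_sup_right : _ ≤ H') (AddSubgroup.mem_zmultiples g)
  have hex : ∀ x ∈ H', ∃ i : ℕ, x - i • g ∈ H := by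
    intro x hx
    rw [hH', AddSubgroup.mem_sup] at hx
    obtain ⟨y, hy, z, hz, rfl⟩ := hx
    obtain ⟨i, rfl⟩ := exists_nat_of_mem_zmultiples hz
    exact ⟨i, by rwa [add_sub_cancel_right]⟩
  let idx : G → ℕ := fun x => if h : ∃ i : ℕ, x - i • g ∈ H then Nat.find h else 0
  have hidx : ∀ x ∈ H', x - idx x • g ∈ H := by
    intro x hx
    have h := hex x hx
    have h4 : idx x = Nat.find h := dif_pos h
    rw [h4]
    exact Nat.find_spec h
  have hmin : ∀ x ∈ H', ∀ j, x - j • g ∈ H → idx x ≤ j := by
    intro x hx j hj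
    have h := hex x hx
    have h4 : idx x = Nat.find h := dif_pos h
    rw [h4]
    exact Nat.find_min' h hj
  have hdp := oH_pos H
  have hbd : ∀ x ∈ H', (idx x + 1) * oH H ≤ oH H' := by
    intro x hx
    have h4 : ∀ j, 1 ≤ j → j ≤ idx x → j • g ∉ H := by
      intro j hj1 hj2 hj
      have h5 := hmin x hx (idx x - j) ?_
      · omega
      · have h6 : idx x • g = (idx x - j) • g + j • g := by
          rw [← add_nsmul]
          congr 1
          omega
        have h7 : x - (idx x - j) • g = (x - idx x • g) + j • g := by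
          rw [h6]
          abel
        rw [h7]
        exact H.add_mem (hidx x hx) hj
    have h5 : Disjoint (hf H) (prog H g (idx x)) := by
      rw [Finset.disjoint_left]
      intro z hz hz'
      obtain ⟨j, hj1, hj2, hj⟩ := mem_prog.1 hz'
      apply h4 j hj1 hj2
      have := H.sub_mem (mem_hf.1 hz) hj
      rwa [sub_sub_cancel] at this
    have h6 : hf H ∪ prog H g (idx x) ⊆ hf H' := by
      intro z hz
      rw [mem_hf]
      rcases Finset.mem_union.1 hz with hz | hz
      · exact hHH' (mem_hf.1 hz)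
      · obtain ⟨j, hj1, hj2, hj⟩ := mem_prog.1 hz
        have := H'.add_mem (hHH' hj) (H'.nsmul_mem hgH' j)
        rwa [sub_add_cancel] at this
    have h7 := Finset.card_le_card h6
    rw [Finset.card_union_of_disjoint h5, card_prog h4] at h7
    have h8 : (hf H).card = oH H := rfl
    have h9 : (hf H').card = oH H' := rfl
    have h10 : (idx x + 1) * oH H = idx x * oH H + oH H := by ring
    omega
  refine ⟨H', ?_, fun x => idx x * oH H + num (x - idx x • g), ?_, ?_, ?_⟩
  · have h4 := hbd g hgH'
    have h5 : idx g ≠ 0 := by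
      intro h
      have := hidx g hgH'
      rw [h, zero_nsmul, sub_zero] at this
      exact hg this
    have h6 : 2 * oH H ≤ (idx g + 1) * oH H := Nat.mul_le_mul_right _ (by omega)
    omega
  · intro x hx y hy hxy
    have h4 := h2 _ (hidx x hx)
    have h5 := h2 _ (hidx y hy)
    have hxy' : idx x * oH H + num (x - idx x • g) = idx y * oH H + num (y - idx y • g) := hxy
    have h6 : idx x = idx y := by
      rcases Nat.lt_trichotomy (idx x) (idx y) with h | h | h
      · have h7 : (idx x + 1) * oH H ≤ idx y * oH H := Nat.mul_le_mul_right _ h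
        have h8 : (idx x + 1) * oH H = idx x * oH H + oH H := by ring
        omega
      · exact h
      · have h7 : (idx y + 1) * oH H ≤ idx x * oH H := Nat.mul_le_mul_right _ h
        have h8 : (idx y + 1) * oH H = idx y * oH H + oH H := by ring
        omega
    rw [h6] at hxy'
    have h7 : x - idx x • g = y - idx y • g := by
      refine h1 _ (hidx x hx) _ (hidx y hy) ?_
      rw [h6]
      omega
    rw [h6] at h7
    exact sub_left_inj.1 h7
  · intro x hx
    have h4 := h2 _ (hidx x hx)
    have h5 := hbd x hx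
    have h8 : (idx x + 1) * oH H = idx x * oH H + oH H := by ring
    change idx x * oH H + num (x - idx x • g) < oH H'
    omega
  · intro x hx y hy
    change idx (x + y) * oH H + num (x + y - idx (x + y) • g) ≤
      idx x * oH H + num (x - idx x • g) + (idx y * oH H + num (y - idx y • g))
    have hxy := H'.add_mem hx hy
    have e1 : x + y - (idx x + idx y) • g = (x - idx x • g) + (y - idx y • g) := by
      rw [add_nsmul]
      abel
    have h4 : x + y - (idx x + idx y) • g ∈ H := by
      rw [e1]
      exact H.add_mem (hidx x hx) (hidx y hy)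
    have h5 := hmin _ hxy _ h4
    rcases Nat.lt_or_ge (idx (x + y)) (idx x + idx y) with h | h
    · have h6 := h2 _ (hidx _ hxy)
      have h7 : (idx (x + y) + 1) * oH H ≤ (idx x + idx y) * oH H := Nat.mul_le_mul_right _ h
      have h8 : (idx (x + y) + 1) * oH H = idx (x + y) * oH H + oH H := by ring
      have h9 : (idx x + idx y) * oH H = idx x * oH H + idx y * oH H := by ring
      omega
    · have h6 : idx (x + y) = idx x + idx y := le_antisymm h5 h
      rw [h6, e1]
      have h7 := h3 _ (hidx x hx) _ (hidx y hy)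
      have h9 : (idx x + idx y) * oH H = idx x * oH H + idx y * oH H := by ring
      omega

theorem num_top : Num (⊤ : AddSubgroup G) := by
  by_contra hcon
  have key : ∀ N : ℕ, ∃ H : AddSubgroup G, Num H ∧ N ≤ oH H := by
    intro N
    induction N with
    | zero => exact ⟨⊥, num_bot, Nat.zero_le _⟩
    | succ N ih =>
      obtain ⟨H, hH, hN⟩ := ih
      have hne : H ≠ ⊤ := by
        rintro rfl
        exact hcon hH
      obtain ⟨H', h1, h2⟩ := num_extend hH hne
      exact ⟨H', h2, by omega⟩
  obtain ⟨H, -, h⟩ := key (Fintype.card G + 1)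
  have h1 := Nat.le_of_dvd (Fintype.card_pos_iff.2 ⟨(0 : G)⟩) (oH_dvd_card H)
  omega

/-- sets with small iterated sumsets -/
theorem exists_small (m h : ℕ) (hm : 1 ≤ m) (hmn : m ≤ Fintype.card G) (hh : 1 ≤ h) :
    ∃ A : Finset G, A.card = m ∧ (nf h A).card ≤ h * (m - 1) + 1 := by
  obtain ⟨num, h1, h2, h3⟩ := num_top (G := G)
  rw [oH_top] at h2
  have hinj : Function.Injective num := fun x y hxy =>
    h1 x (AddSubgroup.mem_top x) y (AddSubgroup.mem_top y) hxy
  have himage : Finset.univ.image num = Finset.range (Fintype.card G) := by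
    refine Finset.eq_of_subset_of_card_le ?_ ?_
    · intro i hi
      obtain ⟨x, -, rfl⟩ := Finset.mem_image.1 hi
      exact Finset.mem_range.2 (h2 x (AddSubgroup.mem_top x))
    · rw [Finset.card_image_of_injective _ hinj, Finset.card_range, Finset.card_univ]
  refine ⟨Finset.univ.filter fun x => num x < m, ?_, ?_⟩
  · rw [← Finset.card_image_of_injective _ hinj]
    have h4 : (Finset.univ.filter fun x => num x < m).image num = Finset.range m := by
      ext i
      rw [Finset.mem_image, Finset.mem_range]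
      constructor
      · rintro ⟨x, hx, rfl⟩
        exact (Finset.mem_filter.1 hx).2
      · intro hi
        have h5 : i ∈ Finset.univ.image num := by
          rw [himage, Finset.mem_range]
          omega
        obtain ⟨x, -, rfl⟩ := Finset.mem_image.1 h5
        exact ⟨x, Finset.mem_filter.2 ⟨Finset.mem_univ x, hi⟩, rfl⟩
    rw [h4, Finset.card_range]
  · have h4 : ∀ k, 1 ≤ k → ∀ x ∈ nf k (Finset.univ.filter fun x => num x < m),
        num x ≤ k * (m - 1) := by
      intro k hk
      induction k, hk using Nat.le_induction with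
      | base =>
        intro x hx
        rw [nf_one, Finset.mem_filter] at hx
        omega
      | succ k hk ih =>
        intro x hx
        obtain ⟨y, hy, a, ha, rfl⟩ := Finset.mem_add.1 hx
        have h5 := ih y hy
        have h6 := (Finset.mem_filter.1 ha).2
        have h7 := h3 y (AddSubgroup.mem_top y) a (AddSubgroup.mem_top a)
        have h8 : (k + 1) * (m - 1) = k * (m - 1) + (m - 1) := by ring
        omega
    have h5 : (nf h (Finset.univ.filter fun x => num x < m)).image num ⊆
        Finset.range (h * (m - 1) + 1) := by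
      intro i hi
      obtain ⟨x, hx, rfl⟩ := Finset.mem_image.1 hi
      rw [Finset.mem_range]
      have := h4 h hh x hx
      omega
    have h6 := Finset.card_le_card h5
    rwa [Finset.card_image_of_injective _ hinj, Finset.card_range] at h6

/-! ### Subgroups of given order -/

theorem exists_subgroup : ∀ N : ℕ, ∀ (V : Type u) [AddCommGroup V] [Fintype V] [DecidableEq V],
    Fintype.card V ≤ N → ∀ d, d ∣ Fintype.card V → ∃ H : AddSubgroup V, oH H = d := by
  classical
  intro N
  induction N with
  | zero =>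
    intro V _ _ _ hV
    exact absurd (Fintype.card_pos_iff.2 ⟨(0 : V)⟩) (by omega)
  | succ N ih =>
    intro V _ _ _ hV d hd
    have hVpos : 0 < Fintype.card V := Fintype.card_pos_iff.2 ⟨(0 : V)⟩
    have hdpos : 0 < d := Nat.pos_of_dvd_of_pos hd hVpos
    by_cases hd1 : d = 1
    · exact ⟨⊥, by rw [hd1, oH_bot]⟩
    obtain ⟨p, hp, hpd⟩ := Nat.exists_prime_and_dvd hd1
    have : Fact p.Prime := ⟨hp⟩
    obtain ⟨x, hx⟩ := exists_prime_addOrderOf_dvd_card p (hpd.trans hd)
    set F := AddSubgroup.zmultiples x with hF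
    have hFc : oH F = p := by
      rw [oH_eq, hF, Nat.card_zmultiples, hx]
    have : Fintype (V ⧸ F) := Fintype.ofFinite _
    have hq := card_quot F
    rw [hFc] at hq
    obtain ⟨e, he⟩ := hpd
    have h1 : 0 < Fintype.card (V ⧸ F) := Fintype.card_pos_iff.2 ⟨0⟩
    have h2 : e ∣ Fintype.card (V ⧸ F) := by
      rw [hq, he] at hd
      exact Nat.dvd_of_mul_dvd_mul_left hp.pos hd
    have h3 : 2 * Fintype.card (V ⧸ F) ≤ p * Fintype.card (V ⧸ F) :=
      Nat.mul_le_mul_right _ hp.two_le
    obtain ⟨K, hK⟩ := ih (V ⧸ F) (by omega) e h2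
    refine ⟨K.comap (QuotientAddGroup.mk' F), ?_⟩
    have h4 : hf (K.comap (QuotientAddGroup.mk' F)) = pre F (hf K) := by
      ext y
      rw [mem_hf, mem_pre, mem_hf]
      rfl
    unfold oH
    rw [h4, card_pre, hFc, he]
    congr 1

/-- if the arithmetic condition fails then there are sets with smaller sumsets -/
theorem exists_smaller {m h d : ℕ} (hm : 1 ≤ m) (hmn : m ≤ Fintype.card G) (hh : 1 ≤ h)
    (hd : d ∣ Fintype.card G) (hbad : d ≤ h * ((m - 1) % d)) :
    ∃ A : Finset G, A.card = m ∧ (nf h A).card ≤ h * (m - 1) := by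
  classical
  obtain ⟨H, hH⟩ := exists_subgroup _ G le_rfl d hd
  have : Fintype (G ⧸ H) := Fintype.ofFinite _
  have hq := card_quot H
  have hdp := oH_pos H
  have h1 := Nat.div_add_mod (m - 1) d
  rw [← hH] at hbad h1
  obtain ⟨q, hqq⟩ : ∃ q, q = (m - 1) / oH H := ⟨_, rfl⟩
  obtain ⟨s, hs⟩ : ∃ s, s = (m - 1) % oH H := ⟨_, rfl⟩
  have hsd : s < oH H := by rw [hs]; exact Nat.mod_lt _ hdp
  rw [← hqq, ← hs] at h1
  rw [← hs] at hbad
  have h2 : q + 1 ≤ Fintype.card (G ⧸ H) := by
    by_contra hcon
    have h3 : oH H * Fintype.card (G ⧸ H) ≤ oH H * q := Nat.mul_le_mul_left _ (by omega)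
    omega
  obtain ⟨A', hA', hA'c⟩ := exists_small (G := G ⧸ H) (q + 1) h (by omega) h2 hh
  rw [Nat.add_sub_cancel] at hA'c
  have h3 : m ≤ (pre H A').card := by
    rw [card_pre, hA']
    have : oH H * (q + 1) = oH H * q + oH H := by ring
    omega
  obtain ⟨A, hA, hAc⟩ := Finset.exists_subset_card_eq h3
  refine ⟨A, hAc, ?_⟩
  have h4 : nf h A ⊆ pre H (nf h A') := by
    refine (nf_mono hA h).trans ?_
    intro x hx
    rw [mem_pre]
    have h5 : (QuotientAddGroup.mk x : G ⧸ H) ∈
        (nf h (pre H A')).image (QuotientAddGroup.mk : G → G ⧸ H) := Finset.mem_image_of_mem _ hx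
    rw [nf_image_mk] at h5
    refine nf_mono ?_ h h5
    intro y hy
    obtain ⟨z, hz, rfl⟩ := Finset.mem_image.1 hy
    exact mem_pre.1 hz
  refine (Finset.card_le_card h4).trans ?_
  rw [card_pre]
  refine (Nat.mul_le_mul_left _ hA'c).trans ?_
  rw [← h1]
  have e1 : oH H * (h * q + 1) = h * (oH H * q) + oH H := by ring
  have e2 : h * (oH H * q + s) = h * (oH H * q) + h * s := by ring
  omega

/-! ### The value of `ρ` -/

theorem rho_le {m h : ℕ} {A : Finset G} (hA : A.card = m) : rho G m h ≤ (hfold h A).card :=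
  Nat.sInf_le ⟨A, hA, rfl⟩

theorem rho_mem {m h : ℕ} (hmn : m ≤ Fintype.card G) :
    ∃ A : Finset G, A.card = m ∧ (hfold h A).card = rho G m h := by
  have h1 : {k | ∃ A : Finset G, A.card = m ∧ (hfold h A).card = k}.Nonempty := by
    obtain ⟨A, -, hA⟩ := Finset.exists_subset_card_eq
      (s := (Finset.univ : Finset G)) (n := m) (by rwa [Finset.card_univ])
    exact ⟨_, A, hA, rfl⟩
  exact Nat.sInf_mem h1

theorem rho_eq_iff {m h : ℕ} (hm : 1 ≤ m) (hmn : m ≤ Fintype.card G) (hh : 1 ≤ h) :
    rho G m h = h * (m - 1) + 1 ↔ Tc (Fintype.card G) h m := by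
  constructor
  · intro hρ d hd
    by_contra hcon
    push Not at hcon
    obtain ⟨A, hA, hAc⟩ := exists_smaller hm hmn hh hd hcon
    have h1 := rho_le (h := h) hA
    rw [hfold_eq] at h1
    omega
  · intro hT
    obtain ⟨A, hA, hAc⟩ := rho_mem (h := h) hmn
    obtain ⟨B, hB, hBc⟩ := exists_small m h hm hmn hh
    have h1 := rho_le (h := h) hB
    rw [hfold_eq] at h1 hAc
    have hAne : A.Nonempty := Finset.card_pos.1 (by omega)
    have h2 := nf_lower hAne (by rw [hA]; exact hT) h hh le_rfl
    rw [hA] at h2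
    omega

end Pool.Agent.H49.Sumset
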