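import Pool.Agent.H49.Sumset.Critical
import Pool.Agent.H49.Sumset.Defs

/-!
Towers: basic facts, the upper bound for the `h`-fold sumset, and pulling back along quotients.
-/

set_option autoImplicit false
set_option linter.unusedSectionVars false
set_option linter.unusedVariables false

namespace Pool.Agent.H49.Sumset

open Finset
open scoped Pointwise

universe u

variable {G : Type u} [AddCommGroup G] [Fintype G] [DecidableEq G]

theorem Block.mem {h : ℕ} {F F' : AddSubgroup G} {B : Finset G} (hh : 1 ≤ h) (hF : F ≤ F')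
    (hB : Block h F F' B) {x : G} (hx : x ∈ B) : x ∈ F' ∧ x ∉ F := by
  rcases hB with ⟨t, ht, l, h1, h2⟩ | ⟨h1, h2, h3⟩
  · obtain ⟨j, hj1, hj2, hj⟩ := (h2 x).1 hx
    refine ⟨?_, fun hxF => h1 j hj1 (hj2.trans (Nat.le_mul_of_pos_left l hh)) ?_⟩
    · have h3 := F'.add_mem (hF hj) (F'.nsmul_mem ht j)
      rwa [sub_add_cancel] at h3
    · have h3 := F.sub_mem hxF hj
      rwa [sub_sub_cancel] at h3
  · exact ⟨(h2 x hx).1, (h2 x hx).2.1⟩

theorem Block.per {h : ℕ} {F F' : AddSubgroup G} {B : Finset G} (hB : Block h F F' B) :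
    Per B F := by
  rcases hB with ⟨t, ht, l, h1, h2⟩ | ⟨h1, h2, h3⟩
  · intro x hx g hg
    obtain ⟨j, hj1, hj2, hj⟩ := (h2 x).1 hx
    refine (h2 _).2 ⟨j, hj1, hj2, ?_⟩
    have h3 : x + g - j • t = (x - j • t) + g := by abel
    rw [h3]
    exact F.add_mem hj hg
  · intro x hx g hg
    exact (h2 x hx).2.2 g hg

theorem Tower.sub {h : ℕ} (hh : 1 ≤ h) {H F : AddSubgroup G} {T : Finset G}
    (hT : Tower h H F T) : H ≤ F ∧ (∀ x ∈ T, x ∈ F) ∧ (∀ x ∈ H, x ∈ T) ∧ Per T H := by
  induction hT with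
  | base T hT =>
    exact ⟨le_rfl, fun x hx => (hT x).1 hx, fun x hx => (hT x).2 hx,
      fun x hx g hg => (hT _).2 (H.add_mem ((hT x).1 hx) hg)⟩
  | step F F' T B hT hF hB ih =>
    obtain ⟨h1, h2, h3, h4⟩ := ih
    refine ⟨h1.trans hF, ?_, ?_, ?_⟩
    · intro x hx
      rcases Finset.mem_union.1 hx with h | h
      · exact hF (h2 x h)
      · exact (hB.mem hh hF h).1
    · intro x hx
      exact Finset.mem_union_left _ (h3 x hx)
    · exact h4.union (hB.per.mono h1)

/-- the union of the cosets `t + F, ..., lt + F` -/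
noncomputable def prog (F : AddSubgroup G) (t : G) (l : ℕ) : Finset G :=
  (Finset.range l).biUnion fun j => tr (hf F) ((j + 1) • t)

theorem mem_prog {F : AddSubgroup G} {t : G} {l : ℕ} {x : G} :
    x ∈ prog F t l ↔ ∃ j, 1 ≤ j ∧ j ≤ l ∧ x - j • t ∈ F := by
  unfold prog
  rw [Finset.mem_biUnion]
  constructor
  · rintro ⟨j, hj, hx⟩
    rw [mem_tr, mem_hf] at hx
    exact ⟨j + 1, by omega, by have := Finset.mem_range.1 hj; omega, hx⟩
  · rintro ⟨j, hj1, hj2, hx⟩
    refine ⟨j - 1, Finset.mem_range.2 (by omega), ?_⟩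
    rw [mem_tr, mem_hf, Nat.sub_add_cancel hj1]
    exact hx

theorem card_prog {F : AddSubgroup G} {t : G} {l : ℕ} (hl : ∀ j, 1 ≤ j → j ≤ l → j • t ∉ F) :
    (prog F t l).card = l * oH F := by
  unfold prog
  rw [Finset.card_biUnion]
  · rw [Finset.sum_congr rfl fun j _ => card_tr (hf F) ((j + 1) • t), Finset.sum_const,
      Finset.card_range, smul_eq_mul]
    rfl
  · have key : ∀ i j : ℕ, i < j → j < l →
        Disjoint (tr (hf F) ((i + 1) • t)) (tr (hf F) ((j + 1) • t)) := by
      intro i j hij hj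
      rw [Finset.disjoint_left]
      intro z hz hz'
      rw [mem_tr, mem_hf] at hz hz'
      apply hl (j - i) (by omega) (by omega)
      have h1 : (j + 1) • t = (j - i) • t + (i + 1) • t := by
        rw [← add_nsmul]
        congr 1
        omega
      have h2 : (j - i) • t = (z - (i + 1) • t) - (z - (j + 1) • t) := by
        rw [h1]
        abel
      rw [h2]
      exact F.sub_mem hz hz'
    intro i hi j hj hij
    rw [Finset.mem_coe, Finset.mem_range] at hi hj
    rcases Nat.lt_or_ge i j with h | h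
    · exact key i j h hj
    · exact (key j i (by omega) hi).symm

theorem nf_mem_sub {F : AddSubgroup G} {T : Finset G} (hT : ∀ x ∈ T, x ∈ F) :
    ∀ k, ∀ x ∈ nf k T, x ∈ F
  | 0 => by
    intro x hx
    have : x = 0 := Finset.mem_singleton.1 hx
    rw [this]
    exact F.zero_mem
  | (k + 1) => by
    intro x hx
    obtain ⟨y, hy, a, ha, rfl⟩ := Finset.mem_add.1 hx
    exact F.add_mem (nf_mem_sub hT k y hy) (hT a ha)

theorem prog_bound {F : AddSubgroup G} {T B : Finset G} (hT : ∀ x ∈ T, x ∈ F) {t : G} {l : ℕ}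
    (hB : ∀ x, x ∈ B ↔ ∃ j, 1 ≤ j ∧ j ≤ l ∧ x - j • t ∈ F) :
    ∀ k, nf k (T ∪ B) ⊆ nf k T ∪ prog F t (k * l)
  | 0 => Finset.subset_union_left
  | (k + 1) => by
    intro x hx
    obtain ⟨y, hy, a, ha, rfl⟩ := Finset.mem_add.1 hx
    have hy' := prog_bound hT hB k hy
    have hkl : (k + 1) * l = k * l + l := by ring
    rw [Finset.mem_union] at hy' ha ⊢
    rcases hy' with hy' | hy' <;> rcases ha with ha | ha
    · exact Or.inl (Finset.add_mem_add hy' ha)
    · right
      obtain ⟨j, hj1, hj2, hj⟩ := (hB a).1 ha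
      refine mem_prog.2 ⟨j, hj1, by omega, ?_⟩
      have h1 : y + a - j • t = y + (a - j • t) := by abel
      rw [h1]
      exact F.add_mem (nf_mem_sub hT k y hy') hj
    · right
      obtain ⟨j, hj1, hj2, hj⟩ := mem_prog.1 hy'
      refine mem_prog.2 ⟨j, hj1, by omega, ?_⟩
      have h1 : y + a - j • t = (y - j • t) + a := by abel
      rw [h1]
      exact F.add_mem hj (hT a ha)
    · right
      obtain ⟨j, hj1, hj2, hj⟩ := mem_prog.1 hy'
      obtain ⟨i, hi1, hi2, hi⟩ := (hB a).1 ha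
      refine mem_prog.2 ⟨j + i, by omega, by omega, ?_⟩
      have h1 : y + a - (j + i) • t = (y - j • t) + (a - i • t) := by
        rw [add_nsmul]
        abel
      rw [h1]
      exact F.add_mem hj hi

theorem half_bound {F F' : AddSubgroup G} {T B : Finset G} (hF : F ≤ F') (hT : ∀ x ∈ T, x ∈ F)
    (h2 : ∀ x ∈ B, x ∈ F' ∧ x ∉ F ∧ ∀ g ∈ F, x + g ∈ B)
    (h3 : ∀ x ∈ F', x ∉ F → (x ∈ B ↔ -x ∉ B)) :
    (nf 2 (T ∪ B)).card ≤ (nf 2 T).card + 2 * B.card := by
  have h4 : nf 2 (T ∪ B) ⊆ nf 2 T ∪ (B ∪ B.image fun x => -x) := by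
    intro x hx
    rw [nf_two] at hx
    rw [nf_two, Finset.mem_union]
    obtain ⟨a, ha, b, hb, rfl⟩ := Finset.mem_add.1 hx
    have key : ∀ z ∈ F', z ∉ F → z ∈ B ∪ B.image fun x => -x := by
      intro z hz hzF
      rw [Finset.mem_union]
      by_cases h : z ∈ B
      · exact Or.inl h
      · right
        have h5 : -z ∈ B := by
          by_contra hcon
          exact h ((h3 z hz hzF).2 hcon)
        exact Finset.mem_image.2 ⟨-z, h5, neg_neg z⟩
    rw [Finset.mem_union] at ha hb
    rcases ha with ha | ha <;> rcases hb with hb | hb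
    · exact Or.inl (Finset.add_mem_add ha hb)
    · right
      refine key _ (F'.add_mem (hF (hT a ha)) (h2 b hb).1) fun h => (h2 b hb).2.1 ?_
      have h5 := F.sub_mem h (hT a ha)
      rwa [add_sub_cancel_left] at h5
    · right
      refine key _ (F'.add_mem (h2 a ha).1 (hF (hT b hb))) fun h => (h2 a ha).2.1 ?_
      have h5 := F.sub_mem h (hT b hb)
      rwa [add_sub_cancel_right] at h5
    · right
      refine key _ (F'.add_mem (h2 a ha).1 (h2 b hb).1) fun h => ?_
      have h5 := (h2 b hb).2.2 (-(a + b)) (F.neg_mem h)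
      have h6 : b + -(a + b) = -a := by abel
      rw [h6] at h5
      exact (h3 a (h2 a ha).1 (h2 a ha).2.1).1 ha h5
  have h5 := Finset.card_le_card h4
  have h6 := Finset.card_union_le (nf 2 T) (B ∪ B.image fun x => -x)
  have h7 := Finset.card_union_le B (B.image fun x => -x)
  have h8 : (B.image fun x => -x).card ≤ B.card := Finset.card_image_le
  omega

theorem Block.bound {h : ℕ} (hh : 1 ≤ h) {F F' : AddSubgroup G} {T B : Finset G} (hF : F ≤ F')
    (hT : ∀ x ∈ T, x ∈ F) (hB : Block h F F' B) :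
    (nf h (T ∪ B)).card ≤ (nf h T).card + h * B.card := by
  rcases hB with ⟨t, ht, l, h1, h2⟩ | ⟨h1, h2, h3⟩
  · have hBp : B = prog F t l := by
      ext x
      rw [h2, mem_prog]
    have h3 : B.card = l * oH F := by
      rw [hBp]
      exact card_prog fun j hj1 hj2 => h1 j hj1 (hj2.trans (Nat.le_mul_of_pos_left l hh))
    have h4 := Finset.card_le_card (prog_bound hT h2 h)
    have h5 := Finset.card_union_le (nf h T) (prog F t (h * l))
    rw [card_prog h1] at h5
    rw [h3, ← mul_assoc]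
    exact h4.trans h5
  · subst h1
    exact half_bound hF hT h2 h3

/-- **Towers have small `h`-fold sumsets.** -/
theorem Tower.bound {h : ℕ} (hh : 1 ≤ h) {H F : AddSubgroup G} {T : Finset G}
    (hT : Tower h H F T) : (nf h T).card + (h - 1) * oH H ≤ h * T.card := by
  induction hT with
  | base T hT =>
    have h1 : T = hf H := by
      ext x
      rw [hT, mem_hf]
    have h2 : nf h T ⊆ hf H := fun x hx =>
      mem_hf.2 (nf_mem_sub (F := H) (fun x hx => (hT x).1 hx) h x hx)
    have h3 := Finset.card_le_card h2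
    have h4 : T.card = oH H := by rw [h1]; rfl
    have h5 : (hf H).card = oH H := rfl
    rw [h4]
    obtain ⟨k, rfl⟩ : ∃ k, h = k + 1 := ⟨h - 1, by omega⟩
    simp only [Nat.add_sub_cancel]
    have h6 : (k + 1) * oH H = k * oH H + oH H := by ring
    omega
  | step F F' T B hT hF hB ih =>
    obtain ⟨h1, h2, h3, h4⟩ := hT.sub hh
    have h5 := hB.bound hh hF h2
    have h6 : Disjoint T B := by
      rw [Finset.disjoint_left]
      intro x hx hx'
      exact (hB.mem hh hF hx').2 (h2 x hx)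
    rw [Finset.card_union_of_disjoint h6, Nat.mul_add]
    omega

/-! ### Pulling back along a quotient map -/

open Classical in
/-- the preimage of a finset in the quotient -/
noncomputable def pre (F : AddSubgroup G) (T : Finset (G ⧸ F)) : Finset G :=
  Finset.univ.filter fun x => (QuotientAddGroup.mk x : G ⧸ F) ∈ T

theorem mem_pre {F : AddSubgroup G} {T : Finset (G ⧸ F)} {x : G} :
    x ∈ pre F T ↔ (QuotientAddGroup.mk x : G ⧸ F) ∈ T := by
  simp [pre]

theorem Block.pre {h : ℕ} {F : AddSubgroup G} {K K' : AddSubgroup (G ⧸ F)}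
    {B : Finset (G ⧸ F)} (hB : Block h K K' B) :
    Block h (K.comap (QuotientAddGroup.mk' F)) (K'.comap (QuotientAddGroup.mk' F))
      (Sumset.pre F B) := by
  rcases hB with ⟨t, ht, l, h1, h2⟩ | ⟨h1, h2, h3⟩
  · left
    obtain ⟨t, rfl⟩ := QuotientAddGroup.mk'_surjective F t
    refine ⟨t, AddSubgroup.mem_comap.2 ht, l, ?_, ?_⟩
    · intro j hj1 hj2 hj
      apply h1 j hj1 hj2
      rw [AddSubgroup.mem_comap, map_nsmul] at hj
      exact hj
    · intro x
      rw [mem_pre, h2]
      simp only [AddSubgroup.mem_comap, map_sub, map_nsmul]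
      rfl
  · right
    refine ⟨h1, ?_, ?_⟩
    · intro x hx
      rw [mem_pre] at hx
      obtain ⟨h4, h5, h6⟩ := h2 _ hx
      refine ⟨AddSubgroup.mem_comap.2 h4, fun h => h5 (AddSubgroup.mem_comap.1 h), ?_⟩
      intro g hg
      rw [mem_pre]
      exact h6 _ (AddSubgroup.mem_comap.1 hg)
    · intro x hx hx'
      rw [mem_pre, mem_pre]
      exact h3 _ (AddSubgroup.mem_comap.1 hx) fun h => hx' (AddSubgroup.mem_comap.2 h)

theorem Tower.pre {h : ℕ} {F : AddSubgroup G} [DecidableEq (G ⧸ F)] {K K' : AddSubgroup (G ⧸ F)}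
    {T : Finset (G ⧸ F)} (hT : Tower h K K' T) :
    Tower h (K.comap (QuotientAddGroup.mk' F)) (K'.comap (QuotientAddGroup.mk' F))
      (Sumset.pre F T) := by
  induction hT with
  | base T hT =>
    refine Tower.base _ fun x => ?_
    rw [mem_pre, hT]
    rfl
  | step K' K'' T B hT hK hB ih =>
    have h1 : Sumset.pre F (T ∪ B) = Sumset.pre F T ∪ Sumset.pre F B := by
      ext x
      rw [Finset.mem_union, mem_pre, mem_pre, mem_pre, Finset.mem_union]
    rw [h1]
    exact Tower.step _ _ _ _ ih (AddSubgroup.comap_mono hK) hB.pre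

theorem comap_bot' (F : AddSubgroup G) :
    (⊥ : AddSubgroup (G ⧸ F)).comap (QuotientAddGroup.mk' F) = F := by
  rw [AddMonoidHom.comap_bot, QuotientAddGroup.ker_mk']

/-- adding a block at the bottom of a tower -/
theorem Tower.prepend {h : ℕ} (hh : 1 ≤ h) {H F K : AddSubgroup G} {B T : Finset G} (hHF : H ≤ F)
    (hB : Block h H F B) (hT : Tower h F K T) : ∀ S : Finset G,
    (∀ x, x ∈ S ↔ x ∈ H ∨ x ∈ B ∨ (x ∈ T ∧ x ∉ F)) → Tower h H K S := by
  classical
  induction hT with
  | base T hT =>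
    intro S hS
    have h1 : S = hf H ∪ B := by
      ext x
      rw [hS, Finset.mem_union, mem_hf, hT]
      tauto
    rw [h1]
    exact Tower.step _ _ _ _ (Tower.base _ fun x => mem_hf) hHF hB
  | step K K' T B₁ hT hK hB₁ ih =>
    intro S hS
    obtain ⟨h1, h2, h3, h4⟩ := hT.sub hh
    set S₁ := Finset.univ.filter fun x => x ∈ H ∨ x ∈ B ∨ (x ∈ T ∧ x ∉ F) with hS₁
    have hS₁' : ∀ x, x ∈ S₁ ↔ x ∈ H ∨ x ∈ B ∨ (x ∈ T ∧ x ∉ F) := by
      intro x
      rw [hS₁, Finset.mem_filter]
      simp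
    have h5 : S = S₁ ∪ B₁ := by
      ext x
      rw [hS, Finset.mem_union, Finset.mem_union, hS₁']
      have h6 : x ∈ B₁ → x ∉ F := fun hx h => (hB₁.mem hh hK hx).2 (h1 h)
      tauto
    rw [h5]
    exact Tower.step _ _ _ _ (ih S₁ hS₁') hK hB₁

end Pool.Agent.H49.Sumset
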