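import Pool.Agent.H49.Sumset.Tower

/-!
Critical sets in which `0` has a unique representation are towers.
-/

set_option autoImplicit false
set_option linter.unusedSectionVars false
set_option linter.unusedVariables false

namespace Pool.Agent.H49.Sumset

open Finset
open scoped Pointwise

universe u

variable {G : Type u} [AddCommGroup G] [Fintype G] [DecidableEq G]

/-! ### Kneser's bound under the arithmetic condition -/

/-- Kneser's theorem with a carry condition -/
theorem kneser_tc {X Y : Finset G} (hX : X.Nonempty) (hY : Y.Nonempty) {x y : ℕ}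
    (hx : x + 1 ≤ X.card) (hy : y + 1 ≤ Y.card)
    (hT : x % oH (stab (X + Y)) + y % oH (stab (X + Y)) < oH (stab (X + Y))) :
    x + y + 1 ≤ (X + Y).card := by
  have h1 := kneser hX hY
  obtain ⟨K, hK⟩ : ∃ K, K = stab (X + Y) := ⟨_, rfl⟩
  rw [← hK] at h1 hT
  have h2 : ∀ (Z : Finset G) (z : ℕ), Z.Nonempty → z + 1 ≤ Z.card →
      oH K * (z / oH K) + oH K ≤ (Z + hf K).card := by
    intro Z z hZ hz
    have h3 := card_add_hf_ge hZ K
    have h4 : z / oH K ≤ (Z.card - 1) / oH K := Nat.div_le_div_right (by omega)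
    calc oH K * (z / oH K) + oH K = oH K * (z / oH K + 1) := by ring
      _ ≤ oH K * ((Z.card - 1) / oH K + 1) := Nat.mul_le_mul_left _ (by omega)
      _ ≤ _ := h3
  have h3 := h2 X x hX hx
  have h4 := h2 Y y hY hy
  have h5 := Nat.div_add_mod x (oH K)
  have h6 := Nat.div_add_mod y (oH K)
  omega

/-- the lower bound for iterated sumsets -/
theorem nf_lower {h : ℕ} {A : Finset G} (hA : A.Nonempty)
    (hT : Tc (Fintype.card G) h A.card) : ∀ k, 1 ≤ k → k ≤ h → k * (A.card - 1) + 1 ≤ (nf k A).card := by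
  intro k hk
  have hAc : 1 ≤ A.card := Finset.card_pos.2 hA
  induction k, hk using Nat.le_induction with
  | base =>
    intro _
    rw [nf_one]
    omega
  | succ k hk ih =>
    intro hkh
    have h1 := ih (by omega)
    rw [nf_succ]
    have h2 := kneser_tc (nf_nonempty hA k) hA (x := k * (A.card - 1)) (y := A.card - 1) h1
      (by omega) ?_
    · have h3 : (k + 1) * (A.card - 1) = k * (A.card - 1) + (A.card - 1) := by ring
      omega
    · set e := oH (stab (nf k A + A)) with he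
      have h3 := hT e (by rw [he]; exact oH_dvd_card _)
      set σ := (A.card - 1) % e with hσ
      have h4 : (k + 1) * σ ≤ h * σ := Nat.mul_le_mul_right _ hkh
      have h5 : (k + 1) * σ = k * σ + σ := by ring
      have h6 : k * (A.card - 1) % e = k * σ := by
        rw [← Nat.mul_mod_mod, ← hσ]
        exact Nat.mod_eq_of_lt (by omega)
      omega

/-- the reduction of Lemma C -/
theorem two_fold {k : ℕ} (hk : 2 ≤ k) {A : Finset G} (hA : A.Nonempty) (hst : stab (nf k A) = ⊥)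
    (hcr : (nf k A).card ≤ k * (A.card - 1) + 1) :
    stab (A + A) = ⊥ ∧ (A + A).card + 1 ≤ 2 * A.card := by
  have hAc : 1 ≤ A.card := Finset.card_pos.2 hA
  have h1 : ∀ j, 2 ≤ j → stab (nf j A) = ⊥ →
      stab (nf 2 A) = ⊥ ∧ (nf 2 A).card + (j - 2) * (A.card - 1) ≤ (nf j A).card := by
    intro j hj
    induction j, hj using Nat.le_induction with
    | base =>
      intro h
      exact ⟨h, by simp⟩
    | succ j hj ih =>
      intro h
      have e0 : nf (j + 1) A = nf j A + A := rfl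
      rw [e0] at h ⊢
      have h2 : stab (nf j A) = ⊥ := by
        rw [← le_bot_iff, ← h]
        exact le_stab ((per_stab _).add_right A)
      obtain ⟨h3, h4⟩ := ih h2
      have h5 := kneser_aper (nf_nonempty hA j) hA h
      refine ⟨h3, ?_⟩
      obtain ⟨i, rfl⟩ : ∃ i, j = i + 2 := ⟨j - 2, by omega⟩
      have e1 : i + 2 + 1 - 2 = i + 1 := by omega
      have e2 : i + 2 - 2 = i := by omega
      rw [e2] at h4
      rw [e1]
      have h6 : (i + 1) * (A.card - 1) = i * (A.card - 1) + (A.card - 1) := by ring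
      omega
  obtain ⟨h2, h3⟩ := h1 k hk hst
  rw [nf_two] at h2 h3
  refine ⟨h2, ?_⟩
  obtain ⟨i, rfl⟩ : ∃ i, k = i + 2 := ⟨k - 2, by omega⟩
  have e2 : i + 2 - 2 = i := by omega
  rw [e2] at h3
  have h6 : (i + 2) * (A.card - 1) = i * (A.card - 1) + 2 * (A.card - 1) := by ring
  omega

theorem Tc.two {n h m : ℕ} (hh : 2 ≤ h) (hT : Tc n h m) : Tc n 2 m := by
  intro d hd
  exact lt_of_le_of_lt (Nat.mul_le_mul_right _ hh) (hT d hd)

/-- the case of a nontrivial stabiliser -/
theorem stab_case {h : ℕ} (hh : 1 ≤ h) {A : Finset G} (hA : A.Nonempty)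
    (hT : Tc (Fintype.card G) h A.card) (hcr : (nf h A).card ≤ h * (A.card - 1) + 1) :
    (A + hf (stab (nf h A))).card =
        oH (stab (nf h A)) * ((A.card - 1) / oH (stab (nf h A)) + 1) ∧
      h * ((A.card - 1) % oH (stab (nf h A))) + 1 = oH (stab (nf h A)) := by
  have h1 := kneser_nf h hh A hA
  obtain ⟨H, hH⟩ : ∃ H, H = stab (nf h A) := ⟨_, rfl⟩
  rw [← hH] at h1 ⊢
  obtain ⟨d, hd⟩ : ∃ d, d = oH H := ⟨_, rfl⟩
  obtain ⟨κ, hκ, -⟩ := card_per (per_add_hf A H)
  have h2 := card_add_hf_ge hA H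
  have hdp : 0 < d := by rw [hd]; exact oH_pos H
  have h3 := hT d (by rw [hd]; exact oH_dvd_card H)
  rw [← hd] at h1 h2 hκ ⊢
  obtain ⟨m, hm⟩ : ∃ m, m = A.card - 1 := ⟨_, rfl⟩
  rw [← hm] at hcr h3 h2 ⊢
  obtain ⟨q, hq⟩ : ∃ q, q = m / d := ⟨_, rfl⟩
  obtain ⟨s, hs⟩ : ∃ s, s = m % d := ⟨_, rfl⟩
  rw [← hs] at h3 ⊢
  rw [← hq] at h2 ⊢
  have hms : m = d * q + s := by
    have := Nat.div_add_mod m d
    rw [← hq, ← hs] at this
    omega
  rw [hκ] at h1 h2 ⊢
  have h4 : q + 1 ≤ κ := Nat.le_of_mul_le_mul_left h2 hdp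
  obtain ⟨k, rfl⟩ : ∃ k, h = k + 1 := ⟨h - 1, by omega⟩
  simp only [Nat.add_sub_cancel] at h1
  have e1 : (k + 1) * m = (k + 1) * (d * q) + (k + 1) * s := by rw [hms]; ring
  have h5 : κ ≤ q + 1 := by
    by_contra hcon
    have h6 : (k + 1) * (d * (q + 2)) ≤ (k + 1) * (d * κ) :=
      Nat.mul_le_mul_left _ (Nat.mul_le_mul_left _ (by omega))
    have e2 : (k + 1) * (d * (q + 2)) = (k + 1) * (d * q) + 2 * (k * d) + 2 * d := by ring
    omega
  have h6 : κ = q + 1 := le_antisymm h5 h4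
  subst h6
  refine ⟨rfl, ?_⟩
  have e2 : (k + 1) * (d * (q + 1)) = (k + 1) * (d * q) + k * d + d := by ring
  omega

/-! ### Splitting off a subgroup -/

theorem card_split {C : Finset G} {F : AddSubgroup G} (h0 : (0 : G) ∈ C)
    (hper : ∀ x ∈ C, x ∉ F → ∀ g ∈ F, x + g ∈ C) [DecidableEq (G ⧸ F)] :
    C.card = (C ∩ hf F).card +
      oH F * ((C.image (QuotientAddGroup.mk : G → G ⧸ F)).card - 1) := by
  classical
  have h1 : Per (C \ hf F) F := by
    intro x hx g hg
    rw [Finset.mem_sdiff, mem_hf] at hx ⊢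
    refine ⟨hper x hx.1 hx.2 g hg, fun h => hx.2 ?_⟩
    have h2 := F.sub_mem h hg
    rwa [add_sub_cancel_right] at h2
  obtain ⟨k, hk1, hk2⟩ := card_per h1
  have h2 : C.image (QuotientAddGroup.mk : G → G ⧸ F) =
      insert (0 : G ⧸ F) ((C \ hf F).image (QuotientAddGroup.mk : G → G ⧸ F)) := by
    ext y
    rw [Finset.mem_insert, Finset.mem_image, Finset.mem_image]
    constructor
    · rintro ⟨x, hx, rfl⟩
      by_cases h : x ∈ F
      · left
        exact (QuotientAddGroup.eq_zero_iff x).2 h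
      · right
        exact ⟨x, Finset.mem_sdiff.2 ⟨hx, fun h' => h (mem_hf.1 h')⟩, rfl⟩
    · rintro (rfl | ⟨x, hx, rfl⟩)
      · exact ⟨0, h0, rfl⟩
      · exact ⟨x, (Finset.mem_sdiff.1 hx).1, rfl⟩
  have h3 : (0 : G ⧸ F) ∉ (C \ hf F).image (QuotientAddGroup.mk : G → G ⧸ F) := by
    rw [Finset.mem_image]
    rintro ⟨x, hx, hx0⟩
    rw [Finset.mem_sdiff, mem_hf] at hx
    exact hx.2 ((QuotientAddGroup.eq_zero_iff x).1 hx0)
  rw [h2, Finset.card_insert_of_notMem h3, ← hk2, Nat.add_sub_cancel, ← hk1,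
    Finset.card_inter_add_card_sdiff]

theorem nf_image {V : Type u} [AddCommGroup V] [DecidableEq V] (f : G →+ V)
    (A : Finset G) : ∀ k, (nf k A).image f = nf k (A.image f)
  | 0 => by
    change ({0} : Finset G).image f = {0}
    rw [Finset.image_singleton, map_zero]
  | (k + 1) => by
    change (nf k A + A).image f = nf k (A.image f) + A.image f
    rw [Finset.image_add, nf_image f A k]

theorem nf_image_mk (F : AddSubgroup G) [DecidableEq (G ⧸ F)] (A : Finset G) (k : ℕ) :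
    (nf k A).image (QuotientAddGroup.mk : G → G ⧸ F) =
      nf k (A.image (QuotientAddGroup.mk : G → G ⧸ F)) :=
  nf_image (QuotientAddGroup.mk' F) A k

theorem nf_per {A : Finset G} {F : AddSubgroup G}
    (hper : ∀ x ∈ A, x ∉ F → ∀ g ∈ F, x + g ∈ A) :
    ∀ j, ∀ x ∈ nf j A, x ∉ F → ∀ g ∈ F, x + g ∈ nf j A
  | 0 => by
    intro x hx hxF
    have : x = 0 := Finset.mem_singleton.1 hx
    rw [this] at hxF
    exact absurd F.zero_mem hxF
  | (j + 1) => by
    intro x hx hxF g hg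
    obtain ⟨y, hy, a, ha, rfl⟩ := Finset.mem_add.1 hx
    by_cases h : y ∈ F
    · have ha' : a ∉ F := fun h' => hxF (F.add_mem h h')
      rw [add_assoc]
      exact Finset.add_mem_add hy (hper a ha ha' g hg)
    · rw [add_right_comm]
      exact Finset.add_mem_add (nf_per hper j y hy h g hg) ha

theorem tc_quot {n n' f q l h : ℕ} (hn : n = f * n') (hf : 0 < f) (hl : l < f)
    (hT : Tc n h (f * q + l + 1)) : Tc n' h (q + 1) := by
  intro d hd
  have h1 := hT (f * d) (by rw [hn]; exact Nat.mul_dvd_mul_left f hd)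
  rw [Nat.add_sub_cancel] at h1 ⊢
  rw [Nat.mod_mul, Nat.mul_add_mod, Nat.mod_eq_of_lt hl, Nat.mul_add_div hf,
    Nat.div_eq_of_lt hl, add_zero] at h1
  have h4 : f * (h * (q % d)) < f * d := by
    refine lt_of_le_of_lt ?_ h1
    rw [Nat.mul_add]
    have h5 : f * (h * (q % d)) = h * (f * (q % d)) := by ring
    omega
  exact Nat.lt_of_mul_lt_mul_left h4

theorem card_quot (F : AddSubgroup G) [Fintype (G ⧸ F)] :
    Fintype.card G = oH F * Fintype.card (G ⧸ F) := by
  have h1 := AddSubgroup.card_eq_card_quotient_mul_card_addSubgroup F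
  rw [Nat.card_eq_fintype_card, Nat.card_eq_fintype_card (α := G ⧸ F), ← oH_eq, mul_comm] at h1
  exact h1

/-- the quotient step -/
theorem desc {k : ℕ} (hk : 1 ≤ k) {A : Finset G} (h0 : (0 : G) ∈ A) {F : AddSubgroup G}
    (hper : ∀ x ∈ A, x ∉ F → ∀ g ∈ F, x + g ∈ A) {l : ℕ} (hl : (A ∩ hf F).card = l + 1)
    (hl2 : (k + 1) * l < oH F) (hnl : (k + 1) * l + 1 ≤ (nf (k + 1) A ∩ hf F).card)
    (huq : ∀ a ∈ A, ∀ u ∈ F, -a + u ∈ nf k A → a ∈ F)
    (hT : Tc (Fintype.card G) (k + 1) A.card)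
    (hcr : (nf (k + 1) A).card ≤ (k + 1) * (A.card - 1) + 1)
    (hB : Block (k + 1) ⊥ F ((A ∩ hf F).erase 0))
    (IH : ∀ [Fintype (G ⧸ F)] [DecidableEq (G ⧸ F)], ∀ A' : Finset (G ⧸ F), (0 : G ⧸ F) ∈ A' →
      (∀ a ∈ A', -a ∈ nf k A' → a = 0) → Tc (Fintype.card (G ⧸ F)) (k + 1) A'.card →
      (nf (k + 1) A').card ≤ (k + 1) * (A'.card - 1) + 1 → ∃ K, Tower (k + 1) ⊥ K A') :
    ∃ K, Tower (k + 1) ⊥ K A := by
  classical
  have : Fintype (G ⧸ F) := Fintype.ofFinite _
  have him : ∀ x : G, (QuotientAddGroup.mk x : G ⧸ F) = 0 ↔ x ∈ F := fun x =>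
    QuotientAddGroup.eq_zero_iff x
  obtain ⟨A', hA'⟩ : ∃ A', A' = A.image (QuotientAddGroup.mk : G → G ⧸ F) := ⟨_, rfl⟩
  have h0' : (0 : G ⧸ F) ∈ A' := by
    rw [hA']
    exact Finset.mem_image.2 ⟨0, h0, rfl⟩
  have hAc := card_split h0 hper
  have hnc := card_split (nf_zero_mem h0 (k + 1)) (nf_per hper (k + 1))
  rw [nf_image_mk, ← hA'] at hnc
  rw [← hA', hl] at hAc
  obtain ⟨q, hq⟩ : ∃ q, A'.card = q + 1 :=
    ⟨A'.card - 1, (Nat.sub_add_cancel (Finset.card_pos.2 ⟨_, h0'⟩)).symm⟩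
  obtain ⟨N, hN⟩ : ∃ N, (nf (k + 1) A').card = N + 1 :=
    ⟨(nf (k + 1) A').card - 1,
      (Nat.sub_add_cancel (Finset.card_pos.2 ⟨_, nf_zero_mem h0' (k + 1)⟩)).symm⟩
  rw [hq, Nat.add_sub_cancel] at hAc
  rw [hN, Nat.add_sub_cancel] at hnc
  have hfpos := oH_pos F
  have hNq : N ≤ (k + 1) * q := by
    have e1 : (k + 1) * (A.card - 1) = (k + 1) * l + oH F * ((k + 1) * q) := by
      rw [hAc]
      have : l + 1 + oH F * q - 1 = l + oH F * q := by omega
      rw [this]
      ring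
    have h1 : oH F * N ≤ oH F * ((k + 1) * q) := by omega
    exact Nat.le_of_mul_le_mul_left h1 hfpos
  have hll : l ≤ (k + 1) * l := Nat.le_mul_of_pos_left l (by omega)
  obtain ⟨K, hK⟩ := IH A' h0' (by
    intro a ha hna
    rw [hA'] at ha
    obtain ⟨b, hb, rfl⟩ := Finset.mem_image.1 ha
    rw [hA', ← nf_image_mk] at hna
    obtain ⟨z, hz, hza⟩ := Finset.mem_image.1 hna
    rw [him]
    refine huq b hb (z + b) ?_ ?_
    · rw [← him]
      change (QuotientAddGroup.mk z : G ⧸ F) + QuotientAddGroup.mk b = 0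
      rw [hza, neg_add_cancel]
    · have : -b + (z + b) = z := by abel
      rw [this]
      exact hz) (by
    rw [hq]
    refine tc_quot (card_quot F) hfpos (l := l) (by omega) ?_
    have : oH F * q + l + 1 = A.card := by omega
    rw [this]
    exact hT) (by
    rw [hq, hN, Nat.add_sub_cancel]
    omega)
  have h1 := hK.pre
  rw [comap_bot'] at h1
  refine ⟨_, Tower.prepend (by omega) bot_le hB h1 A fun x => ?_⟩
  rw [AddSubgroup.mem_bot, Finset.mem_erase, Finset.mem_inter, mem_hf, mem_pre]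
  constructor
  · intro hx
    by_cases hxF : x ∈ F
    · by_cases hx0 : x = 0
      · exact Or.inl hx0
      · exact Or.inr (Or.inl ⟨hx0, hx, hxF⟩)
    · refine Or.inr (Or.inr ⟨?_, hxF⟩)
      rw [hA']
      exact Finset.mem_image_of_mem _ hx
  · rintro (hx | hx | ⟨hx, hxF⟩)
    · rw [hx]
      exact h0
    · exact hx.2.1
    · rw [hA'] at hx
      obtain ⟨a, ha, hax⟩ := Finset.mem_image.1 hx
      have h2 : x - a ∈ F := by
        rw [← him]
        change (QuotientAddGroup.mk x : G ⧸ F) - QuotientAddGroup.mk a = 0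
        rw [hax, sub_self]
      have h3 : a ∉ F := by
        intro h
        apply hxF
        have := F.add_mem h2 h
        rwa [sub_add_cancel] at this
      have := hper a ha h3 _ h2
      rwa [add_sub_cancel] at this

/-! ### Progressions -/

theorem mult_mem_nf {A : Finset G} {t : G} {l : ℕ} (h : ∀ j ≤ l, j • t ∈ A) :
    ∀ k, ∀ i ≤ k * l, i • t ∈ nf k A
  | 0 => by
    intro i hi
    have : i = 0 := by omega
    rw [this, zero_nsmul]
    exact Finset.mem_singleton_self 0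
  | (k + 1) => by
    intro i hi
    have h1 : (k + 1) * l = k * l + l := by ring
    have h2 : i • t = (i - min i l) • t + (min i l) • t := by
      rw [← add_nsmul]
      congr 1
      omega
    rw [h2]
    exact Finset.add_mem_add (mult_mem_nf h k _ (by omega)) (h _ (min_le_right _ _))

theorem mult_inj {t : G} {L : ℕ} (hne : ∀ j, 1 ≤ j → j ≤ L → j • t ≠ 0) :
    Set.InjOn (fun j : ℕ => j • t) (Finset.range (L + 1)) := by
  have key : ∀ i j : ℕ, i < j → j ≤ L → i • t ≠ j • t := by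
    intro i j hij hj h
    apply hne (j - i) (by omega) (by omega)
    have h1 : j • t = (j - i) • t + i • t := by
      rw [← add_nsmul]
      congr 1
      omega
    rw [← h] at h1
    exact right_eq_add.1 h1
  intro i hi j hj hij
  rw [Finset.mem_coe, Finset.mem_range] at hi hj
  by_contra hcon
  rcases Nat.lt_or_gt_of_ne hcon with h | h
  · exact key i j h (by omega) hij
  · exact key j i h (by omega) hij.symm

theorem card_mult_le {C : Finset G} {t : G} {L : ℕ} (h : ∀ j ≤ L, j • t ∈ C)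
    (hne : ∀ j, 1 ≤ j → j ≤ L → j • t ≠ 0) : L + 1 ≤ C.card := by
  rw [← Finset.card_range (L + 1), ← Finset.card_image_of_injOn (mult_inj hne)]
  refine Finset.card_le_card fun x hx => ?_
  obtain ⟨j, hj, rfl⟩ := Finset.mem_image.1 hx
  exact h j (by have := Finset.mem_range.1 hj; omega)

theorem ap_step {k : ℕ} (hk : 1 ≤ k) {A : Finset G} (h0 : (0 : G) ∈ A) {t : G}
    {l : ℕ} (hper : ∀ x ∈ A, x ∉ AddSubgroup.zmultiples t →
      ∀ u ∈ AddSubgroup.zmultiples t, x + u ∈ A)
    (hprog : ∀ x ∈ AddSubgroup.zmultiples t, (x ∈ A ↔ ∃ j ≤ l, x = j • t))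
    (hne : ∀ j, 1 ≤ j → j ≤ l → j • t ≠ 0)
    (huq : ∀ a ∈ A, -a ∈ nf k A → a = 0)
    (hT : Tc (Fintype.card G) (k + 1) A.card)
    (hcr : (nf (k + 1) A).card ≤ (k + 1) * (A.card - 1) + 1)
    (IH : ∀ [Fintype (G ⧸ AddSubgroup.zmultiples t)] [DecidableEq (G ⧸ AddSubgroup.zmultiples t)],
      ∀ A' : Finset (G ⧸ AddSubgroup.zmultiples t), (0 : G ⧸ AddSubgroup.zmultiples t) ∈ A' →
      (∀ a ∈ A', -a ∈ nf k A' → a = 0) →
      Tc (Fintype.card (G ⧸ AddSubgroup.zmultiples t)) (k + 1) A'.card →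
      (nf (k + 1) A').card ≤ (k + 1) * (A'.card - 1) + 1 → ∃ K, Tower (k + 1) ⊥ K A') :
    ∃ K, Tower (k + 1) ⊥ K A := by
  have hmem : ∀ j ≤ l, j • t ∈ A := fun j hj =>
    (hprog _ (nsmul_mem_zmultiples' t j)).2 ⟨j, hj, rfl⟩
  have hkl : ∀ j, 1 ≤ j → j ≤ (k + 1) * l → j • t ≠ 0 := by
    intro j hj1 hj2 hj
    have h1 : (k + 1) * l = k * l + l := by ring
    have hl1 : 1 ≤ l := by
      by_contra hcon
      have : l = 0 := by omega
      rw [this, Nat.mul_zero] at hj2
      omega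
    have h2 : -(min j l • t) = (j - min j l) • t := by
      rw [eq_comm, ← sub_eq_zero, sub_neg_eq_add, ← add_nsmul]
      have : j - min j l + min j l = j := by omega
      rw [this, hj]
    refine hne (min j l) (by omega) (min_le_right _ _) (huq _ (hmem _ (min_le_right _ _)) ?_)
    rw [h2]
    exact mult_mem_nf hmem k _ (by omega)
  have hcap : A ∩ hf (AddSubgroup.zmultiples t) =
      (Finset.range (l + 1)).image fun j : ℕ => j • t := by
    ext x
    rw [Finset.mem_inter, mem_hf, Finset.mem_image]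
    constructor
    · rintro ⟨hx, hxF⟩
      obtain ⟨j, hj, rfl⟩ := (hprog x hxF).1 hx
      exact ⟨j, Finset.mem_range.2 (by omega), rfl⟩
    · rintro ⟨j, hj, rfl⟩
      exact ⟨hmem j (by have := Finset.mem_range.1 hj; omega), nsmul_mem_zmultiples' t j⟩
  refine desc hk h0 hper (l := l) ?_ ?_ ?_ ?_ hT hcr ?_ IH
  · rw [hcap, Finset.card_image_of_injOn (mult_inj hne), Finset.card_range]
  · exact card_mult_le (C := hf (AddSubgroup.zmultiples t))
      (fun j _ => mem_hf.2 (nsmul_mem_zmultiples' t j)) hkl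
  · exact card_mult_le (C := nf (k + 1) A ∩ hf (AddSubgroup.zmultiples t))
      (fun j hj => Finset.mem_inter.2
        ⟨mult_mem_nf hmem (k + 1) j hj, mem_hf.2 (nsmul_mem_zmultiples' t j)⟩) hkl
  · intro a ha u hu hau
    by_contra haF
    have h1 : a + -u ∈ A := hper a ha haF (-u) (AddSubgroup.neg_mem _ hu)
    have h2 : -(a + -u) = -a + u := by abel
    have h3 := huq _ h1 (by rw [h2]; exact hau)
    apply haF
    have h4 : a = u := by
      rw [← sub_eq_add_neg, sub_eq_zero] at h3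
      exact h3
    rw [h4]
    exact hu
  · left
    refine ⟨t, AddSubgroup.mem_zmultiples t, l, fun j h1 h2 h3 =>
      hkl j h1 h2 (AddSubgroup.mem_bot.1 h3), fun x => ?_⟩
    rw [Finset.mem_erase, hcap, Finset.mem_image]
    constructor
    · rintro ⟨hx0, j, hj, rfl⟩
      refine ⟨j, ?_, by have := Finset.mem_range.1 hj; omega, by simp⟩
      by_contra hcon
      apply hx0
      have : j = 0 := by omega
      rw [this, zero_nsmul]
    · rintro ⟨j, hj1, hj2, hj⟩
      rw [AddSubgroup.mem_bot, sub_eq_zero] at hj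
      subst hj
      exact ⟨hne j hj1 hj2, j, Finset.mem_range.2 (by omega), rfl⟩

theorem crit_norm {k : ℕ} (hk : 1 ≤ k) {A : Finset G} (h0 : (0 : G) ∈ A)
    (huq : ∀ a ∈ A, -a ∈ nf k A → a = 0) {g : G} (hg : g ≠ 0) {c : G} (hc : c ∈ A) {l : ℕ}
    (h1 : ∀ x ∈ A, x - c ∉ AddSubgroup.zmultiples g → ∀ u ∈ AddSubgroup.zmultiples g, x + u ∈ A)
    (h2 : ∀ x, x - c ∈ AddSubgroup.zmultiples g → (x ∈ A ↔ ∃ j ≤ l, x = c + j • g))
    (h3 : ∀ j, 1 ≤ j → j ≤ l → j • g ≠ 0) :
    ∃ t : G, t ≠ 0 ∧ (∀ x ∈ A, x ∉ AddSubgroup.zmultiples t →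
      ∀ u ∈ AddSubgroup.zmultiples t, x + u ∈ A) ∧
      (∀ x ∈ AddSubgroup.zmultiples t, (x ∈ A ↔ ∃ j ≤ l, x = j • t)) ∧
      ∀ j, 1 ≤ j → j ≤ l → j • t ≠ 0 := by
  have hsub : A ⊆ nf k A := by
    have := nf_subset_of_le h0 hk
    rwa [nf_one] at this
  have hno : ¬ (g ∈ A ∧ -g ∈ A) := fun h => hg (huq g h.1 (hsub h.2))
  have hcF : c ∈ AddSubgroup.zmultiples g := by
    by_contra hcF
    have h4 : (0 : G) - c ∉ AddSubgroup.zmultiples g := by
      rw [zero_sub]
      exact fun h => hcF (by simpa using AddSubgroup.neg_mem _ h)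
    apply hno
    constructor
    · have := h1 0 h0 h4 g (AddSubgroup.mem_zmultiples g)
      rwa [zero_add] at this
    · have := h1 0 h0 h4 (-g) (AddSubgroup.neg_mem _ (AddSubgroup.mem_zmultiples g))
      rwa [zero_add] at this
  have hsubc : ∀ x, x - c ∈ AddSubgroup.zmultiples g ↔ x ∈ AddSubgroup.zmultiples g := fun x =>
    ⟨fun h => by
      have := AddSubgroup.add_mem _ h hcF
      rwa [sub_add_cancel] at this, fun h => AddSubgroup.sub_mem _ h hcF⟩
  obtain ⟨j₀, hj₀, hj₀'⟩ := (h2 0 ((hsubc 0).2 (AddSubgroup.zero_mem _))).1 h0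
  by_cases hj : j₀ = 0
  · rw [hj, zero_nsmul, add_zero] at hj₀'
    refine ⟨g, hg, ?_, ?_, h3⟩
    · intro x hx hxF
      exact h1 x hx fun h => hxF ((hsubc x).1 h)
    · intro x hx
      rw [h2 x ((hsubc x).2 hx), ← hj₀']
      simp only [zero_add]
  · have hcj : c = -(j₀ • g) := eq_neg_of_add_eq_zero_left hj₀'.symm
    have hjl : j₀ = l := by
      by_contra hcon
      apply hno
      constructor
      · rw [h2 g ((hsubc g).2 (AddSubgroup.mem_zmultiples g))]
        refine ⟨j₀ + 1, by omega, ?_⟩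
        rw [hcj, succ_nsmul]
        abel
      · rw [h2 (-g) ((hsubc (-g)).2 (AddSubgroup.neg_mem _ (AddSubgroup.mem_zmultiples g)))]
        refine ⟨j₀ - 1, by omega, ?_⟩
        have h5 : j₀ • g = (j₀ - 1) • g + g := by
          rw [← succ_nsmul, Nat.sub_add_cancel (by omega)]
        rw [hcj, h5]
        abel
    subst hjl
    refine ⟨-g, neg_ne_zero.2 hg, ?_, ?_, ?_⟩
    · rw [AddSubgroup.zmultiples_neg]
      intro x hx hxF
      exact h1 x hx fun h => hxF ((hsubc x).1 h)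
    · rw [AddSubgroup.zmultiples_neg]
      intro x hx
      rw [h2 x ((hsubc x).2 hx)]
      have key : ∀ j ≤ j₀, c + j • g = (j₀ - j) • (-g) := by
        intro j hj
        have h5 : j₀ • g = (j₀ - j) • g + j • g := by
          rw [← add_nsmul]
          congr 1
          omega
        rw [hcj, h5, smul_neg]
        abel
      constructor
      · rintro ⟨j, hj, rfl⟩
        exact ⟨j₀ - j, by omega, key j hj⟩
      · rintro ⟨j, hj, rfl⟩
        refine ⟨j₀ - j, by omega, ?_⟩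
        rw [key _ (by omega)]
        congr 1
        omega
    · intro j hj1 hj2 h5
      apply h3 j hj1 hj2
      rw [smul_neg, neg_eq_zero] at h5
      exact h5

end Pool.Agent.H49.Sumset
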