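import Pool.Agent.H49.Sumset.Unique

/-!
Critical sets in which `0` has a unique representation are towers: the main induction.
-/

set_option autoImplicit false
set_option linter.unusedSectionVars false
set_option linter.unusedVariables false

namespace Pool.Agent.H49.Sumset

open Finset
open scoped Pointwise

universe u

variable {G : Type u} [AddCommGroup G] [Fintype G] [DecidableEq G]

theorem filter_zero {C : Finset G} {H : AddSubgroup G} [DecidablePred fun x => x - 0 ∈ H] :
    (C.filter fun x => x - 0 ∈ H) = C ∩ hf H := by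
  ext x
  rw [Finset.mem_filter, Finset.mem_inter, mem_hf, sub_zero]

theorem coset_large {A : Finset G} {H : AddSubgroup G} {s q : ℕ} [DecidablePred (· ∈ H)]
    (hAH : (A + hf H).card = oH H * (q + 1)) (hAc : A.card = oH H * q + s + 1)
    {a : G} (ha : a ∈ A) : s + 1 ≤ (A.filter fun x => x - a ∈ H).card := by
  have h1 : tr (hf H) a \ (A.filter fun x => x - a ∈ H) ⊆ (A + hf H) \ A := by
    intro z hz
    rw [Finset.mem_sdiff, mem_tr, mem_hf, Finset.mem_filter] at hz
    rw [Finset.mem_sdiff]
    exact ⟨mem_add_hf.2 ⟨a, ha, hz.1⟩, fun h => hz.2 ⟨h, hz.1⟩⟩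
  have h2 := Finset.card_le_card h1
  rw [Finset.card_sdiff_of_subset (subset_add_hf A H), hAH, hAc] at h2
  have h3 := Finset.le_card_sdiff (A.filter fun x => x - a ∈ H) (tr (hf H) a)
  rw [card_tr] at h3
  have h4 : (hf H).card = oH H := rfl
  have h5 : oH H * (q + 1) = oH H * q + oH H := by ring
  have h6 := Finset.card_le_card (subset_add_hf A H)
  rw [hAH, hAc] at h6
  omega

theorem lemma_Z {A : Finset G} {H : AddSubgroup G} {s h : ℕ} [DecidablePred (· ∈ H)]
    (hT : Tc (Fintype.card G) h A.card) (hs : s = (A.card - 1) % oH H)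
    (hbig : ∀ a ∈ A, s + 1 ≤ (A.filter fun x => x - a ∈ H).card) :
    ∀ j, 1 ≤ j → j ≤ h → ∀ z ∈ nf j A, j * s + 1 ≤ ((nf j A).filter fun x => x - z ∈ H).card := by
  intro j hj
  induction j, hj using Nat.le_induction with
  | base =>
    intro _ z hz
    rw [nf_one] at hz ⊢
    rw [one_mul]
    exact hbig z hz
  | succ j hj ih =>
    intro hjh z hz
    obtain ⟨y, hy, a, ha, rfl⟩ := Finset.mem_add.1 hz
    have h1 := ih (by omega) y hy
    have h2 := hbig a ha
    set U := (nf j A).filter fun x => x - y ∈ H with hU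
    set W := A.filter fun x => x - a ∈ H with hW
    have hyU : y ∈ U := Finset.mem_filter.2 ⟨hy, by rw [sub_self]; exact H.zero_mem⟩
    have haW : a ∈ W := Finset.mem_filter.2 ⟨ha, by rw [sub_self]; exact H.zero_mem⟩
    have hsub : U + W ⊆ (nf (j + 1) A).filter fun x => x - (y + a) ∈ H := by
      intro x hx
      obtain ⟨u, hu, w, hw, rfl⟩ := Finset.mem_add.1 hx
      rw [hU, Finset.mem_filter] at hu
      rw [hW, Finset.mem_filter] at hw
      rw [Finset.mem_filter]
      refine ⟨Finset.add_mem_add hu.1 hw.1, ?_⟩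
      have h3 : u + w - (y + a) = (u - y) + (w - a) := by abel
      rw [h3]
      exact H.add_mem hu.2 hw.2
    refine le_trans ?_ (Finset.card_le_card hsub)
    have hKH : stab (U + W) ≤ H := by
      intro g hg
      have h3 := per_stab (U + W) (y + a) (Finset.add_mem_add hyU haW) g hg
      have h4 := (Finset.mem_filter.1 (hsub h3)).2
      rwa [add_sub_cancel_left] at h4
    have h3 := kneser_tc ⟨y, hyU⟩ ⟨a, haW⟩ (x := j * s) (y := s) h1 h2 ?_
    · have h4 : (j + 1) * s = j * s + s := by ring
      omega
    · obtain ⟨e, he⟩ : ∃ e, e = oH (stab (U + W)) := ⟨_, rfl⟩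
      rw [← he]
      have h4 := hT e (by rw [he]; exact oH_dvd_card _)
      have h5 : s % e = (A.card - 1) % e := by
        rw [hs]
        exact Nat.mod_mod_of_dvd _ (by rw [he]; exact oH_dvd hKH)
      rw [← h5] at h4
      have h6 : (j + 1) * (s % e) ≤ h * (s % e) := Nat.mul_le_mul_right _ hjh
      have h7 : (j + 1) * (s % e) = j * (s % e) + s % e := by ring
      have h8 : j * s % e = j * (s % e) := by
        rw [← Nat.mul_mod_mod]
        exact Nat.mod_eq_of_lt (by omega)
      omega

/-- **Critical sets with unique zero are towers.** -/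
theorem unique_tower (k : ℕ) (hk : 1 ≤ k) : ∀ N : ℕ, ∀ (V : Type u) [AddCommGroup V] [Fintype V]
    [DecidableEq V], Fintype.card V ≤ N → ∀ A : Finset V, (0 : V) ∈ A →
      (∀ a ∈ A, -a ∈ nf k A → a = 0) → Tc (Fintype.card V) (k + 1) A.card →
      (nf (k + 1) A).card ≤ (k + 1) * (A.card - 1) + 1 →
      ∃ K, Tower (k + 1) (⊥ : AddSubgroup V) K A := by
  classical
  intro N
  induction N with
  | zero =>
    intro V _ _ _ hV A h0
    exact absurd (Fintype.card_pos_iff.2 ⟨(0 : V)⟩) (by omega)
  | succ N ih =>
    intro V _ _ _ hV A h0 huq hT hcr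
    have IH : ∀ F : AddSubgroup V, F ≠ ⊥ → ∀ [Fintype (V ⧸ F)] [DecidableEq (V ⧸ F)],
        ∀ A' : Finset (V ⧸ F), (0 : V ⧸ F) ∈ A' →
      (∀ a ∈ A', -a ∈ nf k A' → a = 0) → Tc (Fintype.card (V ⧸ F)) (k + 1) A'.card →
      (nf (k + 1) A').card ≤ (k + 1) * (A'.card - 1) + 1 → ∃ K, Tower (k + 1) ⊥ K A' := by
      intro F hF _ _ A'
      refine ih (V ⧸ F) ?_ A'
      have h1 := card_quot F
      have h2 := two_le_oH hF
      have h3 : 0 < Fintype.card (V ⧸ F) := Fintype.card_pos_iff.2 ⟨0⟩
      have h4 : 2 * Fintype.card (V ⧸ F) ≤ oH F * Fintype.card (V ⧸ F) :=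
        Nat.mul_le_mul_right _ h2
      omega
    have hAne : A.Nonempty := ⟨0, h0⟩
    by_cases hone : A.card = 1
    · refine ⟨⊥, Tower.base A fun x => ?_⟩
      obtain ⟨a, ha⟩ := Finset.card_eq_one.1 hone
      rw [ha, Finset.mem_singleton] at h0 ⊢
      rw [AddSubgroup.mem_bot, h0]
    have hA2 : 2 ≤ A.card := by
      have := Finset.card_pos.2 hAne
      omega
    have hfin : stab (A + A) = ⊥ → (A + A).card + 1 ≤ 2 * A.card →
        ∃ K, Tower (k + 1) (⊥ : AddSubgroup V) K A := by
      intro h1 h2
      obtain ⟨g, hg, c, hc, l, h3, h4, h5⟩ := critical_structure hA2 (hT.two (by omega)) h1 h2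
      obtain ⟨t, ht, h6, h7, h8⟩ := crit_norm hk h0 huq hg hc h3 h4 h5
      refine ap_step hk h0 h6 h7 h8 huq hT hcr ?_
      intro _ _ A'
      exact IH _ (fun h => ht (AddSubgroup.zmultiples_eq_bot.1 h)) A'
    by_cases hst : stab (nf (k + 1) A) = ⊥
    · obtain ⟨h1, h2⟩ := two_fold (by omega) hAne hst hcr
      exact hfin h1 h2
    -- a nontrivial stabiliser
    obtain ⟨hAH, hds⟩ := stab_case (by omega) hAne hT hcr
    have hkn := kneser (nf_nonempty hAne k) hAne
    rw [← nf_succ] at hkn
    obtain ⟨H, hH⟩ : ∃ H, H = stab (nf (k + 1) A) := ⟨_, rfl⟩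
    rw [← hH] at hAH hds hst hkn
    obtain ⟨q, hq⟩ : ∃ q, q = (A.card - 1) / oH H := ⟨_, rfl⟩
    obtain ⟨s, hs⟩ : ∃ s, s = (A.card - 1) % oH H := ⟨_, rfl⟩
    rw [← hs] at hds
    rw [← hq] at hAH
    have hd2 := two_le_oH hst
    have hAc : A.card = oH H * q + s + 1 := by
      have h1 := Nat.div_add_mod (A.card - 1) (oH H)
      rw [← hq, ← hs] at h1
      omega
    have hbig : ∀ a ∈ A, s + 1 ≤ (A.filter fun x => x - a ∈ H).card := fun a ha =>
      coset_large hAH hAc ha
    have hZ := lemma_Z hT hs hbig
    have e1 : (k + 1) * s = k * s + s := by ring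
    -- uniqueness modulo `H`
    have huqH : ∀ a ∈ A, ∀ u ∈ H, -a + u ∈ nf k A → a ∈ H := by
      intro a ha u hu hau
      have h1 := hbig a ha
      have h2 := hZ k hk (by omega) _ hau
      have h3 := full_of_card (H := H) (U := A.filter fun x => x - a ∈ H)
        (W := (nf k A).filter fun x => x - (-a + u) ∈ H) (c₁ := a) (c₂ := -a + u) (y := 0)
        (fun u hu => (Finset.mem_filter.1 hu).2) (fun u hu => (Finset.mem_filter.1 hu).2)
        (by omega) (by
          have h4 : (0 : V) - (a + (-a + u)) = -u := by abel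
          rw [h4]
          exact H.neg_mem hu)
      obtain ⟨x, hx, y, hy, hxy⟩ := Finset.mem_add.1 h3
      rw [Finset.mem_filter] at hx hy
      have h4 : y = -x := eq_neg_of_add_eq_zero_right hxy
      have h5 := huq x hx.1 (by rw [← h4]; exact hy.1)
      rw [h5, zero_sub] at hx
      simpa using hx.2
    -- the sizes of the parts inside `H`
    have hU := hbig 0 h0
    have hW := hZ k hk (by omega) 0 (nf_zero_mem h0 k)
    have hW1 := hZ (k + 1) (by omega) le_rfl 0 (nf_zero_mem h0 (k + 1))
    rw [filter_zero] at hU hW hW1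
    have hcardneg : ((nf k A ∩ hf H).image fun x => -x).card = (nf k A ∩ hf H).card :=
      Finset.card_image_of_injective _ neg_injective
    have hunion : (A ∩ hf H) ∪ ((nf k A ∩ hf H).image fun x => -x) ⊆ hf H := by
      intro x hx
      rcases Finset.mem_union.1 hx with h | h
      · exact (Finset.mem_inter.1 h).2
      · obtain ⟨y, hy, rfl⟩ := Finset.mem_image.1 h
        exact mem_hf.2 (H.neg_mem (mem_hf.1 (Finset.mem_inter.1 hy).2))
    have hinter : (A ∩ hf H) ∩ ((nf k A ∩ hf H).image fun x => -x) ⊆ {0} := by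
      intro x hx
      rw [Finset.mem_inter, Finset.mem_inter] at hx
      obtain ⟨y, hy, rfl⟩ := Finset.mem_image.1 hx.2
      rw [Finset.mem_singleton]
      refine huq _ hx.1.1 ?_
      rw [neg_neg]
      exact (Finset.mem_inter.1 hy).1
    have hui := Finset.card_union_add_card_inter (A ∩ hf H) ((nf k A ∩ hf H).image fun x => -x)
    have hc1 := Finset.card_le_card hunion
    have hc2 := Finset.card_le_card hinter
    rw [Finset.card_singleton] at hc2
    have hc3 : (hf H).card = oH H := rfl
    have hUc : (A ∩ hf H).card = s + 1 := by omega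
    have hWc : (nf k A ∩ hf H).card = k * s + 1 := by omega
    have hfull : (A ∩ hf H) ∪ ((nf k A ∩ hf H).image fun x => -x) = hf H :=
      Finset.eq_of_subset_of_card_le hunion (by omega)
    have e2 : oH H * (q + 1) = oH H * q + oH H := by ring
    have hAper : ∀ x ∈ A, x ∉ H → ∀ g ∈ H, x + g ∈ A := by
      intro x hx hxH g hg
      have h1 : A \ hf H ⊆ (A + hf H) \ hf H :=
        Finset.sdiff_subset_sdiff (subset_add_hf A H) (Finset.Subset.refl _)
      have h2 : hf H ⊆ A + hf H := fun y hy => mem_add_hf.2 ⟨0, h0, by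
        rw [sub_zero]; exact mem_hf.1 hy⟩
      have h3 : A \ hf H = (A + hf H) \ hf H := by
        refine Finset.eq_of_subset_of_card_le h1 ?_
        rw [Finset.card_sdiff_of_subset h2, hAH]
        have h4 := Finset.card_inter_add_card_sdiff A (hf H)
        omega
      have h4 : x + g ∈ (A + hf H) \ hf H := by
        rw [Finset.mem_sdiff, mem_hf]
        refine ⟨mem_add_hf.2 ⟨x, hx, by rw [add_sub_cancel_left]; exact hg⟩, fun h => hxH ?_⟩
        have := H.sub_mem h hg
        rwa [add_sub_cancel_right] at this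
      rw [← h3, Finset.mem_sdiff] at h4
      exact h4.1
    by_cases hk1 : k = 1
    · -- the half block
      subst hk1
      rw [nf_one] at hfull
      refine desc le_rfl h0 hAper hUc (by omega) hW1 huqH hT hcr (Or.inr ⟨rfl, ?_, ?_⟩) ?_
      · intro x hx
        rw [Finset.mem_erase, Finset.mem_inter, mem_hf] at hx
        refine ⟨hx.2.2, fun h => hx.1 (AddSubgroup.mem_bot.1 h), fun g hg => ?_⟩
        rw [AddSubgroup.mem_bot.1 hg, add_zero, Finset.mem_erase, Finset.mem_inter, mem_hf]
        exact hx
      · intro x hxH hx0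
        rw [AddSubgroup.mem_bot] at hx0
        rw [Finset.mem_erase, Finset.mem_erase, Finset.mem_inter, Finset.mem_inter, mem_hf,
          mem_hf]
        constructor
        · rintro ⟨-, hxA, -⟩ ⟨-, hnx, -⟩
          exact hx0 (huq x hxA (by rw [nf_one]; exact hnx))
        · intro h
          refine ⟨hx0, ?_, hxH⟩
          by_contra hxA
          have h1 := mem_hf.2 hxH
          rw [← hfull, Finset.mem_union, Finset.mem_image] at h1
          rcases h1 with h1 | ⟨y, hy, rfl⟩
          · exact hxA (Finset.mem_inter.1 h1).1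
          · apply h
            rw [neg_neg]
            refine ⟨?_, (Finset.mem_inter.1 hy).1, mem_hf.1 (Finset.mem_inter.1 hy).2⟩
            rintro rfl
            exact hx0 neg_zero
      · intro _ _ A'
        exact IH H hst A'
    · -- at least three summands: pass to the `(h-1)`-fold sumset
      have hk2 : 2 ≤ k := by omega
      have hKH : stab (nf k A) ≤ H := by
        rw [hH]
        refine le_stab ?_
        rw [nf_succ]
        exact (per_stab _).add_right A
      have hKbot : stab (nf k A) = ⊥ := by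
        refine eq_bot_of_oH (Nat.le_of_dvd one_pos ?_)
        have h1 : Per (nf k A ∩ hf H) (stab (nf k A)) := by
          intro x hx g hg
          rw [Finset.mem_inter] at hx ⊢
          exact ⟨per_stab _ x hx.1 g hg, mem_hf.2 (H.add_mem (mem_hf.1 hx.2) (hKH hg))⟩
        have h2 := h1.dvd
        have h3 := oH_dvd hKH
        rw [hWc] at h2
        rw [← hds] at h3
        have h4 : oH (stab (nf k A)) ∣ s := by
          have h5 := (Nat.dvd_sub h3 h2)
          have h6 : (k + 1) * s + 1 - (k * s + 1) = s := by omega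
          rwa [h6] at h5
        exact (Nat.dvd_add_right (h4.mul_left k)).1 h2
      have hnc : (nf k A).card ≤ k * (A.card - 1) + 1 := by
        have h1 : hf H \ (nf k A ∩ hf H) ⊆ (nf k A + hf H) \ nf k A := by
          intro z hz
          rw [Finset.mem_sdiff, Finset.mem_inter] at hz
          rw [Finset.mem_sdiff]
          refine ⟨mem_add_hf.2 ⟨0, nf_zero_mem h0 k, by rw [sub_zero]; exact mem_hf.1 hz.1⟩,
            fun h => hz.2 ⟨h, hz.1⟩⟩
        have h2 := Finset.card_le_card h1
        rw [Finset.card_sdiff_of_subset (subset_add_hf _ H),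
          Finset.card_sdiff_of_subset Finset.inter_subset_right, hWc] at h2
        have h3 := Finset.card_le_card (subset_add_hf (nf k A) H)
        have e3 : (k + 1) * (A.card - 1) = k * (oH H * q) + oH H * q + (k + 1) * s := by
          have : A.card - 1 = oH H * q + s := by omega
          rw [this]
          ring
        have e4 : k * (A.card - 1) = k * (oH H * q) + k * s := by
          have : A.card - 1 = oH H * q + s := by omega
          rw [this]
          ring
        omega
      obtain ⟨h1, h2⟩ := two_fold hk2 hAne hKbot hnc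
      exact hfin h1 h2

end Pool.Agent.H49.Sumset
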